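import Mathlib

/-! Supplements of a finite cyclic subgroup. -/

set_option autoImplicit false

namespace Pool.Agent.MP_9f65ab_al

variable {X : Type} [AddCommGroup X] {D E : AddSubgroup X} {μ : X}

theorem zsmul_mem_iff (B : AddSubgroup X) (x : X) (i : ℤ) :
    i • x ∈ B ↔ (addOrderOf (x : X ⧸ B) : ℤ) ∣ i := by
  rw [addOrderOf_dvd_iff_zsmul_eq_zero, ← QuotientAddGroup.eq_zero_iff]
  rfl

/-- A bounded locally cyclic quotient is cyclic. -/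
theorem cyc {M : AddSubgroup X} {m : ℕ} (hm : m ≠ 0) (h : ∀ a ∈ M, (m : ℤ) • a ∈ D)
    (h' : ∀ a ∈ M, ∀ b ∈ M, ∃ g ∈ M, ∃ i j : ℤ, a - i • g ∈ D ∧ b - j • g ∈ D) :
    ∃ μ ∈ M, ∀ b ∈ M, ∃ i : ℤ, b - i • μ ∈ D := by
  have hd : ∀ a ∈ M, addOrderOf (a : X ⧸ D) ∣ m := fun a ha => by
    exact_mod_cast (zsmul_mem_iff D a m).1 (h a ha)
  obtain ⟨a, ha, hmax⟩ := Set.Finite.exists_maximalFor' (fun a : X => addOrderOf (a : X ⧸ D)) M
    ((Set.finite_le_nat m).subset (by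
      rintro _ ⟨a, ha, rfl⟩
      exact Nat.le_of_dvd (Nat.pos_of_ne_zero hm) (hd a ha))) ⟨0, M.zero_mem⟩
  refine ⟨a, ha, fun b hb => ?_⟩
  obtain ⟨g, hg, i, j, h1, h2⟩ := h' a ha b hb
  have e : ∀ {x y : X}, x - y ∈ D ↔ (x : X ⧸ D) = y := fun {x y} =>
    QuotientAddGroup.eq_iff_sub_mem.symm
  have g0 : 0 < addOrderOf (g : X ⧸ D) := Nat.pos_of_dvd_of_pos (hd g hg) (Nat.pos_of_ne_zero hm)
  have hle : AddSubgroup.zmultiples (a : X ⧸ D) ≤ AddSubgroup.zmultiples (g : X ⧸ D) :=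
    AddSubgroup.zmultiples_le_of_mem ⟨i, (e.1 h1).symm⟩
  have : Finite (AddSubgroup.zmultiples (g : X ⧸ D)) :=
    Nat.finite_of_card_ne_zero (by rw [Nat.card_zmultiples]; exact g0.ne')
  have h3 := AddSubgroup.eq_of_le_of_card_ge hle (by
    rw [Nat.card_zmultiples, Nat.card_zmultiples]
    refine hmax hg (?_ : addOrderOf (a : X ⧸ D) ≤ addOrderOf (g : X ⧸ D))
    rw [← Nat.card_zmultiples, ← Nat.card_zmultiples]
    exact AddSubgroup.card_le_of_le hle)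
  obtain ⟨k, hk⟩ : (b : X ⧸ D) ∈ AddSubgroup.zmultiples (a : X ⧸ D) := h3 ▸ ⟨j, (e.1 h2).symm⟩
  exact ⟨k, e.2 hk.symm⟩

theorem rat_gcd (u v : ℚ) : ∃ α β i j : ℤ, u = i * (α * u + β * v) ∧ v = j * (α * u + β * v) := by
  obtain ⟨i, hi⟩ := Int.gcd_dvd_left (u.num * v.den) (v.num * u.den)
  obtain ⟨j, hj⟩ := Int.gcd_dvd_right (u.num * v.den) (v.num * u.den)
  have hg := Int.gcd_eq_gcd_ab (u.num * v.den) (v.num * u.den)
  generalize Int.gcdA _ _ = α, Int.gcdB _ _ = β at hg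
  rw [hg] at hi hj
  have hi' := congrArg (Int.cast : ℤ → ℚ) hi
  have hj' := congrArg (Int.cast : ℤ → ℚ) hj
  push_cast at hi' hj'
  rw [← Rat.den_mul_eq_num u, ← Rat.den_mul_eq_num v] at hi' hj'
  have h0 : (u.den : ℚ) * v.den ≠ 0 := by exact_mod_cast mul_ne_zero u.den_nz v.den_nz
  exact ⟨α, β, i, j, mul_left_cancel₀ h0 (by linear_combination hi'),
    mul_left_cancel₀ h0 (by linear_combination hj')⟩

/-- The class of `μ` modulo `n E + D` has order `n`. -/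
def Ord (D E : AddSubgroup X) (μ : X) (n : ℕ) : Prop :=
  n ≠ 0 ∧ ∀ i : ℤ, ∀ e ∈ E, i • μ - (n : ℤ) • e ∈ D → (n : ℤ) ∣ i

theorem exists_ord {m : ℕ} (hm : m ≠ 0) (h : (m : ℤ) • μ ∈ D) :
    ∃ c, Ord D E μ c ∧ ∀ n, Ord D E μ n → n ∣ c := by
  have hd : ∀ n, Ord D E μ n → n ≤ m := fun n hn => Nat.le_of_dvd (Nat.pos_of_ne_zero hm)
    (by exact_mod_cast hn.2 m 0 E.zero_mem (by simpa using h))
  obtain ⟨c, hc, hmax⟩ := Set.Finite.exists_maximal ((Set.finite_le_nat m).subset hd)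
    ⟨1, one_ne_zero, fun i _ _ _ => by simp⟩
  refine ⟨c, hc, fun n hn => ?_⟩
  have h1 : Ord D E μ (n.lcm c) := ⟨Nat.lcm_ne_zero hn.1 hc.1, fun i e he hi => by
    obtain ⟨a, ha⟩ := Nat.dvd_lcm_left n c
    obtain ⟨b, hb⟩ := Nat.dvd_lcm_right n c
    have h2 := hn.2 i ((a : ℤ) • e) (E.zsmul_mem he _) (by rwa [ha, Nat.cast_mul, mul_smul] at hi)
    have h3 := hc.2 i ((b : ℤ) • e) (E.zsmul_mem he _) (by rwa [hb, Nat.cast_mul, mul_smul] at hi)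
    exact Int.natCast_dvd.2 (Nat.lcm_dvd (Int.natCast_dvd.1 h2) (Int.natCast_dvd.1 h3))⟩
  have h2 := Nat.le_of_dvd (Nat.pos_of_ne_zero h1.1) (Nat.dvd_lcm_right n c)
  exact le_antisymm (hmax h1 h2) h2 ▸ Nat.dvd_lcm_left n c

theorem ord_mul {m c : ℕ} (hm : m ≠ 0) (h : (m : ℤ) • μ ∈ D) (hc : Ord D E μ c)
    {A : AddSubgroup X} (hA : D ≤ A) (hs : ∀ e ∈ E, ∃ i : ℤ, (c : ℤ) • e - i • (c : ℤ) • μ ∈ A) :
    ∃ n, Ord D E μ (n * c) ∧ ∀ e ∈ E, ((n * c : ℕ) : ℤ) • e ∈ A := by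
  have h1 := zsmul_mem_iff A ((c : ℤ) • μ)
  set n := addOrderOf ((((c : ℤ) • μ : X)) : X ⧸ A)
  have n0 : n ≠ 0 := fun e => hm (by
    have := (h1 m).1 (by rw [smul_comm]; exact A.zsmul_mem (hA h) _)
    rw [e] at this
    simpa using this)
  have h2 : ∀ e ∈ E, ((n * c : ℕ) : ℤ) • e ∈ A := fun e he => by
    obtain ⟨i, hi⟩ := hs e he
    convert A.add_mem (A.zsmul_mem hi n) (A.zsmul_mem ((h1 n).2 dvd_rfl) i) using 1
    push_cast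
    module
  refine ⟨n, ⟨mul_ne_zero n0 hc.1, fun i e he hi => ?_⟩, h2⟩
  obtain ⟨j, rfl⟩ := hc.2 i ((n : ℤ) • e) (E.zsmul_mem he _)
    (by rwa [Nat.cast_mul, mul_comm, mul_smul] at hi)
  have h3 : j • (c : ℤ) • μ ∈ A := by
    convert A.add_mem (hA hi) (h2 e he) using 1
    module
  rw [Nat.cast_mul, mul_comm]
  exact mul_dvd_mul_left _ ((h1 j).1 h3)

theorem torsion_circle {c : ℕ} (hc : c ≠ 0) (x : AddCircle (1 : ℚ)) (h : (c : ℤ) • x = 0) :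
    ∃ k : ℤ, x = k • (((c : ℚ)⁻¹ : ℚ) : AddCircle (1 : ℚ)) := by
  induction x using QuotientAddGroup.induction_on with
  | H q =>
    obtain ⟨k, hk⟩ := (AddCircle.coe_eq_zero_iff (p := (1 : ℚ)) (x := (c : ℤ) • q)).1 h
    refine ⟨k, congrArg (QuotientAddGroup.mk) (?_ : q = k • (c : ℚ)⁻¹)⟩
    have : (c : ℚ) ≠ 0 := by exact_mod_cast hc
    simp only [zsmul_eq_mul, mul_one, Int.cast_natCast] at hk ⊢
    rw [hk]
    field_simp

theorem circle_zero {c : ℕ} (hc : c ≠ 0) (k : ℤ) :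
    k • (((c : ℚ)⁻¹ : ℚ) : AddCircle (1 : ℚ)) = 0 ↔ (c : ℤ) ∣ k := by
  have : (c : ℚ) ≠ 0 := by exact_mod_cast hc
  refine (AddCircle.coe_eq_zero_iff (p := (1 : ℚ)) (x := k • (c : ℚ)⁻¹)).trans
    (exists_congr fun n => ?_)
  simp only [zsmul_eq_mul, mul_one]
  rw [eq_mul_inv_iff_mul_eq₀ this, eq_comm, mul_comm]
  norm_cast

/-- An element outside `c E + D` is missed by some supplement. -/
theorem exists_supp {c : ℕ} (hc : Ord D E μ c) (hμ : μ ∈ E) (hD : D ≤ E) {x : X}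
    (hx : ∀ e ∈ E, x - (c : ℤ) • e ∉ D) :
    ∃ B, D ≤ B ∧ B ≤ E ∧ (∀ e ∈ E, ∃ i : ℤ, e - i • μ ∈ B) ∧ (∀ e ∈ E, (c : ℤ) • e ∈ B) ∧ x ∉ B := by
  let S := D ⊔ E.map (zsmulAddGroupHom (c : ℤ))
  have hS : ∀ y, y ∈ S ↔ ∃ e ∈ E, y - (c : ℤ) • e ∈ D := fun y => by
    constructor
    · intro h
      obtain ⟨d, hd, _, ⟨e, he, rfl⟩, rfl⟩ := AddSubgroup.mem_sup.1 h
      exact ⟨e, he, by simpa using hd⟩
    · rintro ⟨e, he, h⟩
      exact AddSubgroup.mem_sup.2 ⟨_, h, _, ⟨e, he, rfl⟩, by simp⟩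
  have hcE : ∀ e ∈ E, (c : ℤ) • e ∈ S := fun e he => (hS _).2 ⟨e, he, by simp⟩
  suffices H : ∃ χ : X →+ AddCircle (1 : ℚ), (∀ y ∈ S, χ y = 0) ∧ χ μ = ((c : ℚ)⁻¹ : ℚ) ∧ χ x ≠ 0 by
    obtain ⟨χ, h1, h2, h3⟩ := H
    refine ⟨E ⊓ χ.ker, fun y hy => ⟨hD hy, h1 y (AddSubgroup.mem_sup_left hy)⟩, inf_le_left,
      fun e he => ?_, fun e he => ⟨E.zsmul_mem he _, h1 _ (hcE e he)⟩, fun h => h3 h.2⟩
    obtain ⟨k, hk⟩ := torsion_circle hc.1 (χ e) (by rw [← map_zsmul]; exact h1 _ (hcE e he))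
    exact ⟨k, E.sub_mem he (E.zsmul_mem hμ _), by simp [hk, h2]⟩
  obtain ⟨χ, hχ⟩ := (Module.Baer.of_divisible (AddCircle (1 : ℚ))).extension_property_addMonoidHom
    (ZMod.lift c ⟨zmultiplesHom _ (μ : X ⧸ S), (QuotientAddGroup.eq_zero_iff _).2 (hcE μ hμ)⟩)
    ((ZMod.lift_injective c).2 fun i hi => by
      obtain ⟨e, he, h⟩ := (hS _).1 ((QuotientAddGroup.eq_zero_iff (i • μ)).1 hi)
      exact (ZMod.intCast_zmod_eq_zero_iff_dvd _ _).2 (hc.2 i e he h))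
    (ZMod.lift c ⟨zmultiplesHom _ (((c : ℚ)⁻¹ : ℚ) : AddCircle (1 : ℚ)),
      (circle_zero hc.1 c).2 dvd_rfl⟩)
  have h1 : χ μ = ((c : ℚ)⁻¹ : ℚ) := by
    have := DFunLike.congr_fun hχ ((1 : ℤ) : ZMod c)
    rw [AddMonoidHom.comp_apply, ZMod.lift_coe, ZMod.lift_coe] at this
    simpa using this
  have h2 : ∀ y ∈ S, χ y = 0 := fun y hy => by rw [(QuotientAddGroup.eq_zero_iff y).2 hy, map_zero]
  by_cases h3 : χ x = 0
  swap
  · exact ⟨χ.comp (QuotientAddGroup.mk' S), h2, h1, h3⟩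
  obtain ⟨ψ, hψ⟩ := CharacterModule.exists_character_apply_ne_zero_of_ne_zero
    (a := (x : X ⧸ (S ⊔ AddSubgroup.zmultiples μ))) fun h => by
      obtain ⟨y, hy, _, ⟨i, rfl⟩, rfl⟩ := AddSubgroup.mem_sup.1 ((QuotientAddGroup.eq_zero_iff x).1 h)
      have h4 : χ y + i • χ μ = 0 := by simpa using h3
      rw [h2 y hy, zero_add, h1, circle_zero hc.1] at h4
      obtain ⟨j, rfl⟩ := h4
      obtain ⟨e, he, h5⟩ := (hS _).1 (S.add_mem hy (hcE _ (E.zsmul_mem hμ j)))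
      exact hx e he (by simpa [mul_smul] using h5)
  have h4 : ∀ y ∈ S ⊔ AddSubgroup.zmultiples μ, ψ y = 0 := fun y hy => by
    rw [(QuotientAddGroup.eq_zero_iff y).2 hy, map_zero]
  refine ⟨χ.comp (QuotientAddGroup.mk' S) + AddMonoidHom.comp ψ (QuotientAddGroup.mk' _),
    fun y hy => ?_, ?_, ?_⟩
  · exact (congrArg₂ (· + ·) (h2 y hy) (h4 y (AddSubgroup.mem_sup_left hy))).trans (add_zero 0)
  · exact (congrArg₂ (· + ·) h1
      (h4 μ (AddSubgroup.mem_sup_right (AddSubgroup.mem_zmultiples μ)))).trans (add_zero _)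
  · exact fun h => hψ (((congrArg (· + ψ x) h3).trans (zero_add _)).symm.trans h)

end Pool.Agent.MP_9f65ab_al
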