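import Pool.Agent.MP_9f65ab_al.Defs

/-! Heights, types and the type subspaces. -/

set_option autoImplicit false

namespace Pool.Agent.MP_9f65ab_al

variable {V : Type} [AddCommGroup V] [Module ℚ V]

abbrev Chi : Type := Nat.Primes → ℕ∞

section tle

variable {χ ψ σ : Chi}

theorem TLe.refl : TLe χ χ := ⟨by simp, fun _ h => h⟩

theorem TLe.trans (h : TLe χ ψ) (h' : TLe ψ σ) : TLe χ σ :=
  ⟨(h.1.union h'.1).subset fun p hp => by
    by_contra hn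
    simp only [Set.mem_union, Set.mem_ofPred_eq, not_or, not_lt] at hn hp
    exact absurd (hn.1.trans hn.2) (not_le.2 hp), fun p hp => h'.2 p (h.2 p hp)⟩

theorem TLe.of_le (h : χ ≤ ψ) : TLe χ ψ :=
  ⟨Set.finite_empty.subset fun p hp => absurd (h p) (not_le.2 hp),
    fun p hp => top_le_iff.1 (hp ▸ h p)⟩

theorem TLe.sup (h : TLe χ σ) (h' : TLe ψ σ) : TLe (χ ⊔ ψ) σ :=
  ⟨(h.1.union h'.1).subset fun p hp => by simpa using hp, fun p hp => by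
    rcases le_total (χ p) (ψ p) with e | e
    · exact h'.2 p (by simpa [e] using hp)
    · exact h.2 p (by simpa [e] using hp)⟩

theorem TLe.inf (h : TLe σ χ) (h' : TLe σ ψ) : TLe σ (χ ⊓ ψ) :=
  ⟨(h.1.union h'.1).subset fun p hp => by simpa using hp, fun p hp => by
    simp [h.2 p hp, h'.2 p hp]⟩

end tle

variable {G B : AddSubgroup V} {x y c : V} {τ σ : Chi}

theorem qsmul_mem (hx : x ∈ G) (n : ℕ) : (n : ℚ) • x ∈ G := by
  rw [Nat.cast_smul_eq_nsmul]; exact G.nsmul_mem hx n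

theorem zq_mem (hx : x ∈ G) (n : ℤ) : (n : ℚ) • x ∈ G := by
  rw [Int.cast_smul_eq_zsmul]; exact G.zsmul_mem hx n

/-- The local-global principle. -/
theorem mem_of_local (h : ∀ p : ℕ, p.Prime → ∃ n : ℕ, ¬ p ∣ n ∧ (n : ℚ) • x ∈ G) : x ∈ G := by
  by_contra hx
  have h1 : addOrderOf (x : V ⧸ G) ≠ 1 := fun e =>
    hx ((QuotientAddGroup.eq_zero_iff x).1 (AddMonoid.addOrderOf_eq_one_iff.1 e))
  obtain ⟨p, hp, hd⟩ := Nat.exists_prime_and_dvd h1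
  obtain ⟨n, hn, h2⟩ := h p hp
  refine hn (hd.trans (addOrderOf_dvd_iff_nsmul_eq_zero.2 ?_))
  rw [Nat.cast_smul_eq_nsmul] at h2
  exact (QuotientAddGroup.eq_zero_iff (n • x)).2 h2

theorem mem_of_coprime {a b : ℕ} (hab : a.Coprime b) (ha : (a : ℚ) • x ∈ G)
    (hb : (b : ℚ) • x ∈ G) : x ∈ G :=
  mem_of_local fun p hp => by
    by_cases h : p ∣ a
    · exact ⟨b, fun h' => hp.one_lt.ne' (Nat.eq_one_of_dvd_coprimes hab h h'), hb⟩
    · exact ⟨a, h, ha⟩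

theorem inv_den_mem {q : ℚ} (hx : x ∈ G) (hq : q • x ∈ G) : ((q.den : ℚ))⁻¹ • x ∈ G := by
  have hd : (q.den : ℚ) ≠ 0 := by exact_mod_cast q.den_nz
  refine mem_of_coprime q.reduced ?_ ?_
  · have e : (q.num.natAbs : ℚ) * (q.den : ℚ)⁻¹ = (q.num.sign : ℚ) * q := by
      rw [Nat.cast_natAbs, ← Int.sign_mul_self_eq_abs, Int.cast_mul, mul_assoc, ← div_eq_mul_inv,
        Rat.num_div_den]
    rw [smul_smul, e, mul_smul]
    exact zq_mem hq _
  · rwa [smul_smul, mul_inv_cancel₀ hd, one_smul]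

theorem dv_iff (p : Nat.Primes) (k : ℕ) :
    (∃ y ∈ G, x = (p : ℕ) ^ k • y) ↔ (((p : ℕ) : ℚ) ^ k)⁻¹ • x ∈ G := by
  have hp : (((p : ℕ) : ℚ) ^ k) ≠ 0 := pow_ne_zero _ (by exact_mod_cast p.2.ne_zero)
  constructor
  · rintro ⟨y, hy, rfl⟩
    rwa [← Nat.cast_smul_eq_nsmul ℚ, smul_smul, Nat.cast_pow, inv_mul_cancel₀ hp, one_smul]
  · refine fun h => ⟨_, h, ?_⟩
    rw [← Nat.cast_smul_eq_nsmul ℚ, smul_smul, Nat.cast_pow, mul_inv_cancel₀ hp, one_smul]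

theorem dv_mono {p : ℕ} (hp : p ≠ 0) {j k : ℕ} (hjk : j ≤ k) (h : ((p : ℚ) ^ k)⁻¹ • x ∈ G) :
    ((p : ℚ) ^ j)⁻¹ • x ∈ G := by
  obtain ⟨d, rfl⟩ := Nat.exists_eq_add_of_le hjk
  have h0 : (p : ℚ) ≠ 0 := by exact_mod_cast hp
  have := qsmul_mem h (p ^ d)
  rw [smul_smul] at this
  convert this using 2
  push_cast
  field_simp
  ring

theorem le_ht (hx : x ∈ G) (p : Nat.Primes) (k : ℕ) :
    (k : ℕ∞) ≤ ht G x p ↔ (((p : ℕ) : ℚ) ^ k)⁻¹ • x ∈ G := by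
  constructor
  · intro h
    rcases k with _ | k
    · simpa using hx
    · have h1 : (k : ℕ∞) < ht G x p := lt_of_lt_of_le (by exact_mod_cast k.lt_succ_self) h
      simp only [ht, lt_iSup_iff] at h1
      obtain ⟨j, hj, hlt⟩ := h1
      exact dv_mono p.2.ne_zero (by exact_mod_cast hlt) ((dv_iff p j).1 hj)
  · exact fun h => le_iSup₂_of_le (f := fun (k : ℕ) (_ : ∃ y ∈ G, x = (p : ℕ) ^ k • y) => (k : ℕ∞))
      k ((dv_iff p k).2 h) le_rfl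

theorem ht_top (hx : x ∈ G) (p : Nat.Primes) :
    ht G x p = ⊤ ↔ ∀ k : ℕ, (((p : ℕ) : ℚ) ^ k)⁻¹ • x ∈ G := by
  rw [ENat.eq_top_iff_forall_ge]
  exact forall_congr' fun k => le_ht hx p k

theorem enat_le {a b : ℕ∞} (h : ∀ k : ℕ, (k : ℕ∞) ≤ a → (k : ℕ∞) ≤ b) : a ≤ b :=
  ENat.forall_natCast_le_iff_le.1 h

/-- From divisibility to types. -/
theorem tle_of_mul (hc : c ∈ G) (hx : x ∈ B) {m : ℕ} (hm : m ≠ 0)
    (h : ∀ q : ℚ, q • c ∈ G → ((m : ℚ) * q) • x ∈ B) : TLe (ht G c) (ht B x) := by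
  have key : ∀ (p : Nat.Primes) (k v m' : ℕ), m = (p : ℕ) ^ v * m' → ¬ (p : ℕ) ∣ m' →
      (((p : ℕ) : ℚ) ^ (k + v))⁻¹ • c ∈ G → (((p : ℕ) : ℚ) ^ k)⁻¹ • x ∈ B := by
    intro p k v m' e hd hk
    have h0 : ((p : ℕ) : ℚ) ≠ 0 := by exact_mod_cast p.2.ne_zero
    refine mem_of_coprime (((Nat.Prime.coprime_iff_not_dvd p.2).2 hd).pow_left k) ?_ ?_
    · rwa [smul_smul, Nat.cast_pow, mul_inv_cancel₀ (pow_ne_zero _ h0), one_smul]
    · rw [smul_smul]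
      convert h _ hk using 2
      rw [e]
      push_cast
      field_simp
      ring
  refine ⟨(((Set.finite_le_nat m).preimage Subtype.val_injective.injOn)).subset fun p hp => ?_,
    fun p hp => ?_⟩
  · by_contra hn
    refine absurd (enat_le fun k hk => (le_ht hx p k).2
      (key p k 0 m (by simp) (fun hd => hn (Nat.le_of_dvd (Nat.pos_of_ne_zero hm) hd))
        ((le_ht hc p k).1 hk))) (not_le.2 hp)
  · obtain ⟨v, m', hd, e⟩ := Nat.exists_eq_pow_mul_and_not_dvd hm p p.2.ne_one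
    exact (ht_top hx p).2 fun k => key p k v m' e hd ((ht_top hc p).1 hp _)

/-- From types to divisibility. -/
theorem mul_of_tle (hc : c ∈ G) (hx : x ∈ B) (h : TLe (ht G c) (ht B x)) :
    ∃ m : ℕ, m ≠ 0 ∧ ∀ q : ℚ, q • c ∈ G → ((m : ℚ) * q) • x ∈ B := by
  classical
  refine ⟨∏ p ∈ h.1.toFinset, (p : ℕ) ^ (ht G c p).toNat,
    Finset.prod_ne_zero_iff.2 fun p _ => pow_ne_zero _ p.2.ne_zero, fun q hq => ?_⟩
  refine mem_of_local fun p hp => ?_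
  obtain ⟨k, w, hd, e⟩ := Nat.exists_eq_pow_mul_and_not_dvd q.den_nz p hp.ne_one
  have h0 : (p : ℚ) ≠ 0 := by exact_mod_cast hp.ne_zero
  have hw : (w : ℚ) ≠ 0 := by
    have : w ≠ 0 := fun h => hd (h ▸ dvd_zero p)
    exact_mod_cast this
  have h1 : ((p : ℚ) ^ k)⁻¹ • c ∈ G := by
    have := qsmul_mem (inv_den_mem hc hq) w
    rw [smul_smul] at this
    convert this using 2
    rw [e]
    push_cast
    field_simp
  have h2 := (le_ht hc ⟨p, hp⟩ k).2 h1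
  have e2 : (w : ℚ) * q = (q.num : ℚ) * ((p : ℚ) ^ k)⁻¹ := by
    conv_lhs => rw [← Rat.num_div_den q, e]
    push_cast
    field_simp
  refine ⟨w, hd, ?_⟩
  rw [smul_smul, mul_left_comm, e2, mul_left_comm, mul_smul]
  refine zq_mem ?_ _
  by_cases hF : (⟨p, hp⟩ : Nat.Primes) ∈ h.1.toFinset
  · have h3 : ht G c ⟨p, hp⟩ ≠ ⊤ := fun e => by
      have : ht B x ⟨p, hp⟩ < ht G c ⟨p, hp⟩ := h.1.mem_toFinset.1 hF
      rw [h.2 _ e] at this
      exact not_top_lt this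
    have h4 : p ^ k ∣ ∏ p ∈ h.1.toFinset, (p : ℕ) ^ (ht G c p).toNat :=
      (pow_dvd_pow p (by simpa using ENat.toNat_le_toNat h2 h3)).trans
        (Finset.dvd_prod_of_mem (fun p : Nat.Primes => (p : ℕ) ^ (ht G c p).toNat) hF)
    obtain ⟨d, hd⟩ := h4
    rw [hd]
    convert qsmul_mem hx d using 2
    push_cast
    field_simp
  · rw [mul_smul]
    refine qsmul_mem ((le_ht hx ⟨p, hp⟩ k).1 (h2.trans ?_)) _
    exact not_lt.1 fun hlt => hF (h.1.mem_toFinset.2 hlt)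

theorem mem_soc : x ∈ soc G τ ↔ x ∈ G ∧ TLe τ (ht G x) := by
  refine ⟨fun h => ?_, fun h => AddSubgroup.subset_closure h⟩
  induction h using AddSubgroup.closure_induction with
  | mem x hx => exact hx
  | zero => exact ⟨G.zero_mem, TLe.of_le fun p => by
      rw [(ht_top G.zero_mem p).2 fun k => by simp]; exact le_top⟩
  | add x y _ _ hx hy =>
    refine ⟨G.add_mem hx.1 hy.1, (hx.2.inf hy.2).trans (TLe.of_le fun p => enat_le fun k hk => ?_)⟩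
    rw [le_ht (G.add_mem hx.1 hy.1), smul_add]
    exact G.add_mem ((le_ht hx.1 p k).1 (hk.trans inf_le_left))
      ((le_ht hy.1 p k).1 (hk.trans inf_le_right))
  | neg x _ hx =>
    refine ⟨G.neg_mem hx.1, hx.2.trans (TLe.of_le fun p => enat_le fun k hk => ?_)⟩
    rw [le_ht (G.neg_mem hx.1), smul_neg]
    exact G.neg_mem ((le_ht hx.1 p k).1 hk)

theorem mem_span_iff : x ∈ Submodule.span ℚ (G : Set V) ↔ ∃ n : ℕ, n ≠ 0 ∧ (n : ℚ) • x ∈ G := by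
  constructor
  · intro h
    induction h using Submodule.span_induction with
    | mem x hx => exact ⟨1, one_ne_zero, by simpa using hx⟩
    | zero => exact ⟨1, one_ne_zero, by simp⟩
    | add x y _ _ hx hy =>
      obtain ⟨a, ha, h1⟩ := hx
      obtain ⟨b, hb, h2⟩ := hy
      refine ⟨a * b, mul_ne_zero ha hb, ?_⟩
      rw [smul_add, Nat.cast_mul]
      refine G.add_mem ?_ ?_
      · rw [mul_comm, mul_smul]; exact qsmul_mem h1 b
      · rw [mul_smul]; exact qsmul_mem h2 a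
    | smul q x _ hx =>
      obtain ⟨a, ha, h1⟩ := hx
      refine ⟨a * q.den, mul_ne_zero ha q.den_nz, ?_⟩
      rw [smul_smul, Nat.cast_mul, mul_assoc, Rat.den_mul_eq_num, mul_comm, mul_smul]
      exact zq_mem h1 _
  · rintro ⟨n, hn, h⟩
    have := Submodule.smul_mem _ (n : ℚ)⁻¹ (Submodule.subset_span (R := ℚ) (s := (G : Set V)) h)
    rwa [smul_smul, inv_mul_cancel₀ (by exact_mod_cast hn), one_smul] at this

/-- The span of `G(τ)`. -/
def US (G : AddSubgroup V) (τ : Chi) : Submodule ℚ V := Submodule.span ℚ (soc G τ : Set V)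

/-- The span of `G^*(τ)`. -/
def WS (G : AddSubgroup V) (τ : Chi) : Submodule ℚ V := Submodule.span ℚ (star G τ : Set V)

theorem mem_US (hx : x ∈ G) : x ∈ US G τ ↔ TLe τ (ht G x) := by
  refine ⟨fun h => ?_, fun h => Submodule.subset_span (mem_soc.2 ⟨hx, h⟩)⟩
  obtain ⟨n, hn, h⟩ := mem_span_iff.1 h
  refine (mem_soc.1 h).2.trans (tle_of_mul (mem_soc.1 h).1 hx hn fun q hq => ?_)
  rwa [smul_smul, mul_comm] at hq

theorem mem_soc' : x ∈ soc G τ ↔ x ∈ G ∧ x ∈ US G τ :=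
  mem_soc.trans (and_congr_right fun hx => (mem_US hx).symm)

theorem mem_sharp : x ∈ sharp G τ ↔ x ∈ G ∧ x ∈ WS G τ := by
  refine ⟨fun h => ?_, fun h => AddSubgroup.subset_closure ⟨h.1, ?_⟩⟩
  · refine (AddSubgroup.closure_le (G ⊓ (WS G τ).toAddSubgroup)).2 (fun y hy => ⟨hy.1, ?_⟩) h
    obtain ⟨n, hn, h⟩ := hy.2
    exact mem_span_iff.2 ⟨n, hn, by rwa [Nat.cast_smul_eq_nsmul]⟩
  · obtain ⟨n, hn, h⟩ := mem_span_iff.1 h.2
    exact ⟨n, hn, by rwa [Nat.cast_smul_eq_nsmul] at h⟩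

theorem US_le_span : US G τ ≤ Submodule.span ℚ (G : Set V) :=
  Submodule.span_mono fun _ h => (mem_soc.1 h).1

theorem US_anti (h : TLe τ σ) : US G σ ≤ US G τ :=
  Submodule.span_mono fun _ hx => mem_soc.2 ⟨(mem_soc.1 hx).1, h.trans (mem_soc.1 hx).2⟩

theorem US_le_WS (h : TLe τ σ) (h' : ¬ TLe σ τ) : US G σ ≤ WS G τ :=
  Submodule.span_mono (SetLike.coe_subset_coe.2 (le_iSup₂_of_le
    (f := fun (σ : Chi) (_ : TLe τ σ ∧ ¬ TLe σ τ) => soc G σ) σ ⟨h, h'⟩ le_rfl))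

theorem WS_le {Z : Submodule ℚ V} (h : ∀ σ, TLe τ σ → ¬ TLe σ τ → US G σ ≤ Z) : WS G τ ≤ Z :=
  Submodule.span_le.2 (show star G τ ≤ Z.toAddSubgroup from
    iSup₂_le fun σ hσ _ hx => h σ hσ.1 hσ.2 (Submodule.subset_span hx))

theorem WS_le_US : WS G τ ≤ US G τ := WS_le fun _ h _ => US_anti h

theorem WS_anti (h : TLe τ σ) : WS G σ ≤ WS G τ :=
  WS_le fun _ h1 h2 => US_le_WS (h.trans h1) fun h3 => h2 (h3.trans h)

theorem exists_mul {Z : Submodule ℚ V} (hx : x ∈ US G τ) (hZ : x ∉ Z) :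
    ∃ y ∈ G, y ∈ US G τ ∧ y ∉ Z := by
  obtain ⟨n, hn, h⟩ := mem_span_iff.1 hx
  exact ⟨_, (mem_soc.1 h).1, Submodule.smul_mem _ _ hx,
    fun h' => hZ ((Z.smul_mem_iff (by exact_mod_cast hn)).1 h')⟩

theorem inf_le_WS (h : ¬ TLe σ τ) : US G τ ⊓ US G σ ≤ WS G τ := fun x hx => by
  obtain ⟨n, hn, h1⟩ := mem_span_iff.1 (US_le_span hx.1)
  have h2 : (n : ℚ) • x ∈ US G (τ ⊔ σ) := (mem_US h1).2
    (((mem_US h1).1 (Submodule.smul_mem _ _ hx.1)).sup ((mem_US h1).1 (Submodule.smul_mem _ _ hx.2)))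
  exact ((WS G τ).smul_mem_iff (by exact_mod_cast hn)).1
    (US_le_WS (TLe.of_le le_sup_left) (fun h3 => h ((TLe.of_le le_sup_right).trans h3)) h2)

theorem tle_of_not_mem (hx : x ∈ G) (h : x ∈ US G τ) (h' : x ∉ WS G τ) : TLe (ht G x) τ :=
  by_contra fun hn => h' (US_le_WS ((mem_US hx).1 h) hn ((mem_US hx).2 TLe.refl))

/-- A subgroup of bounded index. -/
def Bd (G B : AddSubgroup V) : Prop := B ≤ G ∧ ∃ m : ℕ, m ≠ 0 ∧ ∀ x ∈ G, (m : ℚ) • x ∈ B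

theorem Bd.refl : Bd G G := ⟨le_rfl, 1, one_ne_zero, fun x hx => by simpa using hx⟩

theorem Bd.us (h : Bd G B) : US B τ = US G τ := by
  obtain ⟨hle, m, hm, h⟩ := h
  refine le_antisymm (Submodule.span_mono fun x hx => ?_) (Submodule.span_le.2 fun x hx => ?_)
  · obtain ⟨h1, h2⟩ := mem_soc.1 hx
    exact mem_soc.2 ⟨hle h1, h2.trans (tle_of_mul h1 (hle h1) one_ne_zero fun q hq => by
      simpa using hle hq)⟩
  · obtain ⟨h1, h2⟩ := mem_soc.1 hx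
    refine ((US B τ).smul_mem_iff (by exact_mod_cast hm)).1
      ((mem_US (h x h1)).2 (h2.trans (tle_of_mul h1 (h x h1) one_ne_zero fun q hq => ?_)))
    rw [Nat.cast_one, one_mul, smul_comm]
    exact h _ hq

theorem Bd.ws (h : Bd G B) : WS B τ = WS G τ :=
  le_antisymm (WS_le fun _ h1 h2 => h.us.le.trans (US_le_WS h1 h2))
    (WS_le fun _ h1 h2 => h.us.ge.trans (US_le_WS h1 h2))

/-- `C` is a complement of `B ∩ W` in `B ∩ U`. -/
structure Cp (B : AddSubgroup V) (U W : Submodule ℚ V) (C : AddSubgroup V) : Prop where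
  le : ∀ x ∈ C, x ∈ B ∧ x ∈ U
  dj : ∀ x ∈ C, x ∈ W → x = 0
  sp : ∀ x ∈ B, x ∈ U → ∃ c ∈ C, x - c ∈ W

theorem cp_iff {C : AddSubgroup V} :
    C ⊓ sharp G τ = ⊥ ∧ C ⊔ sharp G τ = soc G τ ↔ Cp G (US G τ) (WS G τ) C := by
  constructor
  · rintro ⟨h1, h2⟩
    have hle : ∀ x ∈ C, x ∈ G ∧ x ∈ US G τ := fun x hx =>
      mem_soc'.1 (h2 ▸ AddSubgroup.mem_sup_left hx)
    refine ⟨hle, fun x hx hW => AddSubgroup.mem_bot.1 (h1 ▸ ⟨hx, mem_sharp.2 ⟨(hle x hx).1, hW⟩⟩),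
      fun x hx hU => ?_⟩
    obtain ⟨c, hc, y, hy, rfl⟩ := AddSubgroup.mem_sup.1 (h2 ▸ mem_soc'.2 ⟨hx, hU⟩)
    exact ⟨c, hc, by simpa using (mem_sharp.1 hy).2⟩
  · refine fun h => ⟨eq_bot_iff.2 fun x hx => h.dj x hx.1 (mem_sharp.1 hx.2).2, le_antisymm
      (sup_le (fun x hx => mem_soc'.2 (h.le x hx)) fun x hx =>
        mem_soc'.2 ⟨(mem_sharp.1 hx).1, WS_le_US (mem_sharp.1 hx).2⟩) fun x hx => ?_⟩
    obtain ⟨c, hc, hW⟩ := h.sp x (mem_soc'.1 hx).1 (mem_soc'.1 hx).2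
    exact AddSubgroup.mem_sup.2 ⟨c, hc, x - c,
      mem_sharp.2 ⟨G.sub_mem (mem_soc'.1 hx).1 (h.le c hc).1, hW⟩, by simp⟩

/-- A choice of complements in `B`. -/
def Ch (G B : AddSubgroup V) (C : Chi → AddSubgroup V) : Prop :=
  ∀ τ, Cp B (US G τ) (WS G τ) (C τ)

/-- The choice depends only on the type. -/
def TInv (C : Chi → AddSubgroup V) : Prop := ∀ σ τ, TLe σ τ → TLe τ σ → C σ = C τ

theorem Bd.isReg (h : Bd G B) {A : AddSubgroup V} :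
    IsReg B A ↔ ∃ C, Ch G B C ∧ TInv C ∧ A = ⨆ τ, C τ :=
  exists_congr fun C => by
    simp only [cp_iff, h.us, h.ws]
    exact and_left_comm

theorem Bd.mem_reg (h : Bd G B) : x ∈ reg B ↔ ∀ C, Ch G B C → TInv C → x ∈ ⨆ τ, C τ :=
  AddSubgroup.mem_sInf.trans ⟨fun h1 C h2 h3 => h1 _ (h.isReg.2 ⟨C, h2, h3, rfl⟩),
    fun h1 _ hA => by obtain ⟨C, h2, h3, rfl⟩ := h.isReg.1 hA; exact h1 C h2 h3⟩

/-- The construction of regulating subgroups. -/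
theorem exists_ch (P : Submodule ℚ V → Submodule ℚ V → AddSubgroup V → Prop)
    (hP : ∀ τ, ∃ C, Cp B (US G τ) (WS G τ) C ∧ P (US G τ) (WS G τ) C) :
    ∃ C, Ch G B C ∧ TInv C ∧ ∀ τ, P (US G τ) (WS G τ) (C τ) := by
  let F : Submodule ℚ V → Submodule ℚ V → AddSubgroup V := fun U W =>
    Classical.epsilon fun C => Cp B U W C ∧ P U W C
  have hF := fun τ => Classical.epsilon_spec (hP τ)
  refine ⟨fun τ => F (US G τ) (WS G τ), fun τ => (hF τ).1, fun σ τ h1 h2 => ?_, fun τ => (hF τ).2⟩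
  exact congrArg₂ F (le_antisymm (US_anti h2) (US_anti h1)) (le_antisymm (WS_anti h2) (WS_anti h1))

end Pool.Agent.MP_9f65ab_al
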