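import Pool.Agent.MP_9f65ab_al.Poset

/-! From Butler groups to systems of subspaces. -/

set_option autoImplicit false

namespace Pool.Agent.MP_9f65ab_al

variable {V : Type} [AddCommGroup V] [Module ℚ V] {G B : AddSubgroup V} {τ σ : Chi} {x y : V}

theorem crit_iff : soc G τ ≠ sharp G τ ↔ ¬ US G τ ≤ WS G τ :=
  not_congr ⟨fun e => Submodule.span_le.2 fun _ hx => (mem_sharp.1 (e.le hx)).2, fun e =>
    AddSubgroup.ext fun _ => mem_soc'.trans ((and_congr_right fun _ =>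
      ⟨fun h => e h, fun h => WS_le_US h⟩).trans mem_sharp.symm)⟩

theorem IsButler.supp (h : IsButler G) : ∃ (κ : Type) (_ : Finite κ) (s : V → κ),
    ∀ c ∈ G, ∀ d ∈ G, s c = s d → TLe (ht G c) (ht G d) := by
  obtain ⟨ι, _, A, f, hinj, hA, hpure⟩ := h
  refine ⟨Set ι, inferInstance, fun c => {i | f c i = 0}, fun c hc d hd e => ?_⟩
  obtain ⟨m, hm, h1⟩ := exists_den fun i => f d i / f c i
  refine tle_of_mul hc hd hm fun q hq => ?_
  generalize hr : (m : ℚ) * q = r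
  have h2 : (r.den : ℚ) • r • d ∈ G := by rw [smul_smul, Rat.den_mul_eq_num]; exact zq_mem hd _
  obtain ⟨y, hy, e'⟩ := hpure (r • f d) (fun i => by
      obtain ⟨z, hz⟩ := h1 i
      convert (A i).zsmul_mem (hA _ hq i) z using 1
      simp only [← hr, map_smul, Pi.smul_apply, smul_eq_mul, zsmul_eq_mul, ← hz]
      by_cases c0 : f c i = 0
      · rw [c0, show f d i = 0 from e.le c0]; simp
      · field_simp) r.den r.den_nz ⟨_, h2, by rw [map_smul, map_smul, Nat.cast_smul_eq_nsmul]⟩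
  have := hinj _ (G.sub_mem h2 (qsmul_mem hy r.den)) (by simp [e'])
  rw [← smul_sub, smul_eq_zero, sub_eq_zero] at this
  exact (this.resolve_left (by exact_mod_cast r.den_nz)) ▸ hy

theorem IsButler.reg_reg_of (h : IsButler G) {P : Type} [PartialOrder P] (hP : NP P) (e : Chi → P)
    (he : ∀ σ τ, ¬ US G σ ≤ WS G σ → ¬ US G τ ≤ WS G τ → (TLe σ τ ↔ e σ ≤ e τ)) :
    reg (reg G) = reg G := by
  classical
  let ι := {p : P // ∃ τ, ¬ US G τ ≤ WS G τ ∧ e τ = p}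
  choose t ht1 ht2 using fun i : ι => i.2
  have hle : ∀ i j, TLe (t i) (t j) ↔ i ≤ j := fun i j => by
    rw [he _ _ (ht1 i) (ht1 j), ht2, ht2]; rfl
  have eqv : ∀ τ (c : ¬ US G τ ≤ WS G τ), TLe τ (t ⟨e τ, τ, c, rfl⟩) ∧ TLe (t ⟨e τ, τ, c, rfl⟩) τ :=
    fun τ c => ⟨(he _ _ c (ht1 _)).2 (ht2 ⟨e τ, τ, c, rfl⟩).ge,
      (he _ _ (ht1 _) c).2 (ht2 ⟨e τ, τ, c, rfl⟩).le⟩
  have fin : Finite ι := by
    obtain ⟨κ, _, s, hs⟩ := h.supp
    have k : ∀ i, ∃ c ∈ G, TLe (t i) (ht G c) ∧ TLe (ht G c) (t i) := fun i => by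
      obtain ⟨x, hx, hx'⟩ := SetLike.not_le_iff_exists.1 (ht1 i)
      obtain ⟨y, hy, h1, h2⟩ := exists_mul hx hx'
      exact ⟨y, hy, (mem_US hy).1 h1, tle_of_not_mem hy h1 h2⟩
    choose c hc h1 h2 using k
    exact Finite.of_injective (fun i => s (c i)) fun i j e => le_antisymm
      ((hle _ _).1 ((h1 i).trans ((hs _ (hc i) _ (hc j) e).trans (h2 j))))
      ((hle _ _).1 ((h1 j).trans ((hs _ (hc j) _ (hc i) e.symm).trans (h2 i))))
  have ext : ∀ (B : AddSubgroup V) (C : ι → AddSubgroup V),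
      (∀ j, Cp B (US G (t j)) (WS G (t j)) (C j)) → ∃ D, Ch G B D ∧ TInv D ∧
        ∀ τ (J : Set ι), (∀ j, TLe τ (t j) → TLe (t j) τ → j ∈ J) → D τ ≤ sm J C := fun B C hC => by
    refine ⟨fun τ => if c : ¬ US G τ ≤ WS G τ then C ⟨e τ, τ, c, rfl⟩ else ⊥, fun τ => ?_,
      fun σ τ h1 h2 => ?_, fun τ J hJ => ?_⟩
    · dsimp only
      split_ifs with c
      · exact ⟨fun x hx => by simp [AddSubgroup.mem_bot.1 hx], fun x hx _ => hx,
          fun x _ hx => ⟨0, zero_mem _, by simpa using c hx⟩⟩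
      · have := hC ⟨e τ, τ, c, rfl⟩
        rwa [le_antisymm (US_anti (eqv τ c).1) (US_anti (eqv τ c).2),
          le_antisymm (WS_anti (eqv τ c).1) (WS_anti (eqv τ c).2)] at this
    · have k : US G σ ≤ WS G σ ↔ US G τ ≤ WS G τ := by
        rw [le_antisymm (US_anti h2) (US_anti h1), le_antisymm (WS_anti h2) (WS_anti h1)]
      by_cases c : US G τ ≤ WS G τ
      · simp only [c, k.2 c, not_true_eq_false, dite_false]
      · dsimp only
        rw [dif_pos c, dif_pos (mt k.1 c)]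
        exact congrArg C (Subtype.ext (le_antisymm ((he _ _ (mt k.1 c) c).1 h1)
          ((he _ _ c (mt k.1 c)).1 h2)))
    · dsimp only
      split_ifs with c
      · exact bot_le
      · exact le_sm (hJ _ (eqv τ c).1 (eqv τ c).2)
  have bd : ∀ i, ∃ m : ℕ, m ≠ 0 ∧ ∀ C : ι → AddSubgroup V,
      (∀ j, Cp G (US G (t j)) (WS G (t j)) (C j)) → ∀ x ∈ G, x ∈ WS G (t i) →
        (m : ℚ) • x ∈ sm {j | i < j} C := fun i => by
    obtain ⟨m, hm, h1⟩ := h.fis (t i)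
    refine ⟨m, hm, fun C hC x hx hW => ?_⟩
    obtain ⟨D, d1, -, d2⟩ := ext G C hC
    exact (iSup₂_le fun σ hσ => d2 σ _ fun j j1 j2 => lt_of_le_not_ge ((hle _ _).1 (hσ.1.trans j1))
      fun k => hσ.2 (j1.trans ((hle _ _).2 k)) : _ ≤ sm {j | i < j} C) (h1 D d1 x hx hW)
  have sys : Sys G (fun i => US G (t i)) fun i => WS G (t i) := by
    refine ⟨fun k => US_le_WS ((hle _ _).2 k.le) fun k' => k.not_ge ((hle _ _).1 k'),
      fun {i Z} hZ x hx => ?_, fun _ => WS_le_US, fun k => inf_le_WS fun k' => k ((hle _ _).1 k'),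
      fun i B m h1 h2 h3 => h.cp h1 h2 h3, bd⟩
    obtain ⟨n, hn, h1⟩ := mem_span_iff.1 (US_le_span (WS_le_US hx))
    obtain ⟨m, hm, h2⟩ := bd i
    obtain ⟨C, hC, -⟩ := h.ch Bd.refl
    have h3 : (m : ℚ) • (n : ℚ) • x ∈ Z :=
      (sm_le fun j hj y hy => hZ j hj ((hC _).le y hy).2 : _ ≤ Z.toAddSubgroup)
        (h2 (fun j => C (t j)) (fun j => hC _) _ h1 (Submodule.smul_mem _ _ hx))
    rwa [Z.smul_mem_iff (by exact_mod_cast hm), Z.smul_mem_iff (by exact_mod_cast hn)] at h3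
  have mr : ∀ B, Bd G B → ∀ x, x ∈ reg B ↔ ∀ C : ι → AddSubgroup V,
      (∀ j, Cp B (US G (t j)) (WS G (t j)) (C j)) → x ∈ sm Set.univ C := fun B hB x => by
    refine hB.mem_reg.trans ⟨fun h1 C hC => ?_, fun h1 C hC _ => ?_⟩
    · obtain ⟨D, d1, d2, d3⟩ := ext B C hC
      exact (iSup_le fun τ => d3 τ _ fun _ _ _ => trivial : _ ≤ sm Set.univ C) (h1 D d1 d2)
    · exact (sm_le fun j _ => le_iSup C (t j) : _ ≤ ⨆ τ, C τ) (h1 (fun j => C (t j)) fun j => hC _)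
  have hR := h.bd_reg
  refine le_antisymm (fun x hx => ?_) fun x hx => (mr _ hR x).2 fun C hC => ?_
  · obtain ⟨C, hC, hI⟩ := h.ch hR
    exact hC.le (hR.mem_reg.1 hx C hC hI)
  · exact sys.good (fun a b c d e => hP a.1 b.1 c.1 d.1 e.1) Set.univ isUpperSet_univ (reg G) C
      (fun _ _ y _ => (mr G Bd.refl y).trans mem_RJ.symm) (fun j _ => hC j)
      (mem_RJ.2 ((mr G Bd.refl x).1 hx))

/-- An upper bound for the regulator. -/
theorem IsButler.reg_le_of (h : IsButler G) (hB : Bd G B) {B' : AddSubgroup V} (hB' : Bd G B')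
    (h1 : B' ≤ B) {μ : V} (h2 : ∀ x ∈ B, ∃ k : ℤ, x - k • μ ∈ B')
    (h3 : ∀ τ, ¬ US G τ ≤ WS G τ → μ ∈ WS G τ ∨ ∀ x ∈ B, x ∈ US G τ → x ∈ B') : reg B ≤ B' := by
  intro x hx
  obtain ⟨C, hC, hI, h4⟩ := exists_ch (G := G) (B := B) (fun _ _ C => C ≤ B') fun τ => by
    by_cases e : μ ∈ WS G τ
    · obtain ⟨D, hD⟩ := h.cp' hB' τ
      refine ⟨D, ⟨fun x hx => ⟨h1 (hD.le x hx).1, (hD.le x hx).2⟩, hD.dj, fun x hx hU => ?_⟩,
        fun x hx => (hD.le x hx).1⟩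
      obtain ⟨k, hk⟩ := h2 x hx
      obtain ⟨c, hc, hW⟩ := hD.sp _ hk (sub_mem hU (zsmul_mem (WS_le_US e) k))
      exact ⟨c, hc, by convert add_mem hW (zsmul_mem e k) using 1; abel⟩
    · obtain ⟨D, hD⟩ := h.cp' hB τ
      exact ⟨D, hD, hD.le_of fun c x hx =>
        (h3 τ c).resolve_left e x (hD.le x hx).1 (hD.le x hx).2⟩
  exact (iSup_le h4 : _ ≤ B') (hB.mem_reg.1 hx C hC hI)

end Pool.Agent.MP_9f65ab_al
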