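import Pool.Agent.MP_9f65ab_al.Semi

/-! Nine flags in a lattice of rank four. -/

set_option autoImplicit false

namespace Pool.Agent.MP_9f65ab_al

/-- The first column spans the line, the first two columns span the plane of the flag. -/
def Mx : Fin 9 → Matrix (Fin 4) (Fin 4) ℤ :=
  ![!![1, 0, 0, 0; 1, 1, 0, 0; 0, 0, 1, 0; 0, 0, 0, 1],
    !![1, 0, 0, 0; 1, 1, 0, 0; 2, 0, 1, 0; 2, 2, 0, 1],
    !![1, 0, 0, 0; 1, 1, 0, 0; 2, 2, 1, 0; 4, 2, 0, 1],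
    !![1, 0, 0, 0; 1, 1, 0, 0; 4, 2, 1, 0; 6, 4, 0, 1],
    !![0, 0, 1, 0; 0, 0, 0, 1; 1, 0, 0, 0; 1, 1, 0, 0],
    !![2, 0, 1, 0; 2, 2, 0, 1; 1, 0, 0, 0; 1, 1, 0, 0],
    !![2, 2, 1, 0; 4, 2, 0, 1; 1, 0, 0, 0; 1, 1, 0, 0],
    !![4, 2, 1, 0; 6, 4, 0, 1; 1, 0, 0, 0; 1, 1, 0, 0],
    !![-1, 0, 0, 0; -1, -2, 0, 1; -1, 1, 0, 0; -1, 3, 1, 0]]

/-- The inverse matrices. -/
def Nx : Fin 9 → Matrix (Fin 4) (Fin 4) ℤ :=
  ![!![1, 0, 0, 0; -1, 1, 0, 0; 0, 0, 1, 0; 0, 0, 0, 1],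
    !![1, 0, 0, 0; -1, 1, 0, 0; -2, 0, 1, 0; 0, -2, 0, 1],
    !![1, 0, 0, 0; -1, 1, 0, 0; 0, -2, 1, 0; -2, -2, 0, 1],
    !![1, 0, 0, 0; -1, 1, 0, 0; -2, -2, 1, 0; -2, -4, 0, 1],
    !![0, 0, 1, 0; 0, 0, -1, 1; 1, 0, 0, 0; 0, 1, 0, 0],
    !![0, 0, 1, 0; 0, 0, -1, 1; 1, 0, -2, 0; 0, 1, 0, -2],
    !![0, 0, 1, 0; 0, 0, -1, 1; 1, 0, 0, -2; 0, 1, -2, -2],
    !![0, 0, 1, 0; 0, 0, -1, 1; 1, 0, -2, -2; 0, 1, -2, -4],
    !![-1, 0, 0, 0; -1, 0, 1, 0; 2, 0, -3, 1; -3, 1, 2, 0]]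

theorem hMN : ∀ j, Mx j * Nx j = 1 := by decide +kernel

theorem hNM : ∀ j, Nx j * Mx j = 1 := by decide +kernel

/-- The determinant that measures the intersection of two planes. -/
def dl (i j : Fin 9) : ℤ :=
  (Nx i * Mx j) 2 0 * (Nx i * Mx j) 3 1 - (Nx i * Mx j) 2 1 * (Nx i * Mx j) 3 0

theorem hdl : ∀ i j, i ≠ j → dl i j ≠ 0 ∧ (dl i j).natAbs < 37 := by decide +kernel

theorem hev : ∀ (i : Fin 4) (j : Fin 9), 2 ∣ Mx j i 1 ∨ 2 ∣ Mx j i 1 + Mx j i 0 := by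
  decide +kernel

/-- Twice the unit vectors in terms of the first columns. -/
def cf : Fin 4 → Fin 9 → ℤ :=
  ![![0, 0, 0, 0, -1, 2, -1, 0, 0], ![0, 0, 0, 0, 0, -1, 1, 0, 0], ![-1, 2, -1, 0, 0, 0, 0, 0, 0],
    ![0, -1, 1, 0, 0, 0, 0, 0, 0]]

theorem hcf : ∀ i l, ∑ j, cf i j * Mx j l 0 = if l = i then 2 else 0 := by decide +kernel

theorem hch : ∀ n : Fin 4 → ZMod 4, ∀ i, 2 * n i ≠ 0 → ∃ j, ∀ m k : ZMod 4, 2 * m ≠ 0 →
    ∑ l, (m * Mx j l 1 + k * Mx j l 0) * n l ≠ 0 := by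
  have : ∀ a b c d : ZMod 4, ∀ i, 2 * ![a, b, c, d] i ≠ 0 → ∃ j, ∀ m k : ZMod 4, 2 * m ≠ 0 →
      (m * Mx j 0 1 + k * Mx j 0 0) * a + (m * Mx j 1 1 + k * Mx j 1 0) * b +
      (m * Mx j 2 1 + k * Mx j 2 0) * c + (m * Mx j 3 1 + k * Mx j 3 0) * d ≠ 0 := by
    decide +kernel
  intro n i hi
  simp only [Fin.sum_univ_four]
  exact this (n 0) (n 1) (n 2) (n 3) i (by fin_cases i <;> exact hi)

/-- The primes. -/
def pv : Option (Fin 9 ⊕ Fin 9) → ℕ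
  | none => 2
  | some (.inl j) => ![37, 41, 43, 47, 53, 59, 61, 67, 71] j
  | some (.inr j) => ![73, 79, 83, 89, 97, 101, 103, 107, 109] j

theorem pv_inj : ∀ a b, pv a = pv b → a = b := by decide +kernel

theorem pv_ge : ∀ a, 37 ≤ pv (some a) := by decide +kernel

theorem pv_prime : ∀ a, (pv a).Prime := by
  rintro (_ | j | j)
  · exact Nat.prime_two
  all_goals fin_cases j <;> simp only [pv] <;> norm_num

/-- The lattice fact behind the chain. -/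
theorem two_mem {B : AddSubgroup (Fin 4 → ℤ)} {t : ℕ}
    (h : ∀ w : Fin 4 → ℤ, (2 ^ t * 2 : ℤ) • w ∈ B)
    (h' : ∀ j, ∃ m k : ℤ, ¬ 2 ∣ m ∧ (fun l => m * Mx j l 1 + k * Mx j l 0) ∈ B) (w : Fin 4 → ℤ) :
    (2 : ℤ) • w ∈ B := by
  let B' := B ⊔ (zsmulAddGroupHom (4 : ℤ) : (Fin 4 → ℤ) →+ _).range
  have h1 : ∀ w : Fin 4 → ℤ, (2 : ℤ) • w ∈ B' := fun w => by
    by_contra hn
    obtain ⟨ψ, hψ⟩ := CharacterModule.exists_character_apply_ne_zero_of_ne_zero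
      (a := (((2 : ℤ) • w : Fin 4 → ℤ) : _ ⧸ B')) fun e => hn ((QuotientAddGroup.eq_zero_iff _).1 e)
    let χ : (Fin 4 → ℤ) →+ AddCircle (1 : ℚ) := AddMonoidHom.comp ψ (QuotientAddGroup.mk' B')
    have h2 : ∀ y ∈ B', χ y = 0 := fun y hy =>
      (congrArg ψ ((QuotientAddGroup.eq_zero_iff y).2 hy)).trans (map_zero ψ)
    choose n hn' using fun l : Fin 4 => torsion_circle (c := 4) (by norm_num) (χ (Pi.single l 1))
      (by rw [← map_zsmul]; exact h2 _ (AddSubgroup.mem_sup_right ⟨_, rfl⟩))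
    have h3 : ∀ y, χ y = 0 ↔ ∑ l, (y l : ZMod 4) * n l = 0 := fun y => by
      have e : χ y = (∑ l, y l * n l) • ((((4 : ℕ) : ℚ)⁻¹ : ℚ) : AddCircle (1 : ℚ)) := by
        conv_lhs => rw [pi_eq_sum_univ' y]
        simp only [map_sum, map_zsmul, hn', Finset.sum_smul, mul_smul]
      rw [e, circle_zero (by norm_num), ← ZMod.intCast_zmod_eq_zero_iff_dvd]
      push_cast
      rfl
    obtain ⟨i, hi⟩ : ∃ i, 2 * (n i : ZMod 4) ≠ 0 := by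
      by_contra hc
      push Not at hc
      refine hψ ((h3 _).2 (Finset.sum_eq_zero fun l _ => ?_))
      simp only [Pi.smul_apply, smul_eq_mul, Int.cast_mul, Int.cast_ofNat]
      rw [mul_right_comm, hc, zero_mul]
    obtain ⟨j, hj⟩ := hch (fun l => n l) i hi
    obtain ⟨m, k, hm, hB⟩ := h' j
    refine hj m k (fun e => hm ?_) (by simpa using (h3 _).1 (h2 _ (AddSubgroup.mem_sup_left hB)))
    have : ((4 : ℕ) : ℤ) ∣ 2 * m := (ZMod.intCast_zmod_eq_zero_iff_dvd _ _).1 (by simpa using e)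
    omega
  have h2 : ∀ s : ℕ, ∀ w : Fin 4 → ℤ, ∃ u : Fin 4 → ℤ, (2 : ℤ) • w - (2 ^ s * 2 : ℤ) • u ∈ B := by
    intro s
    induction s with
    | zero => exact fun w => ⟨w, by simp⟩
    | succ s ih =>
      intro w
      obtain ⟨u, hu⟩ := ih w
      obtain ⟨b, hb, _, ⟨v, rfl⟩, e⟩ := AddSubgroup.mem_sup.1 (h1 u)
      have e' : b = (2 : ℤ) • u - (4 : ℤ) • v := eq_sub_of_add_eq e
      refine ⟨v, ?_⟩
      convert B.add_mem hu (B.zsmul_mem hb (2 ^ s)) using 1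
      rw [e']
      module
  obtain ⟨u, hu⟩ := h2 t w
  simpa using B.add_mem hu (h u)

end Pool.Agent.MP_9f65ab_al
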