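import Mathlib

/-!
Butler groups, types, regulating subgroups and the regulator, for subgroups of a rational vector
space.
-/

set_option autoImplicit false

namespace Pool.Agent.MP_9f65ab_al

variable {V : Type} [AddCommGroup V] [Module ℚ V]

/-- The height sequence of `x` in `G`: at the prime `p`, the supremum of the `k` with
`x ∈ p ^ k G`. -/
noncomputable def ht (G : AddSubgroup V) (x : V) (p : Nat.Primes) : ℕ∞ :=
  ⨆ (k : ℕ) (_ : ∃ y ∈ G, x = (p : ℕ) ^ k • y), (k : ℕ∞)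

/-- The type of the sequence `χ` is at most the type of `ψ`: `χ p ≤ ψ p` for almost all `p`, and
`ψ` is infinite wherever `χ` is. Types are the classes of `TLe χ ψ ∧ TLe ψ χ`. -/
def TLe (χ ψ : Nat.Primes → ℕ∞) : Prop :=
  {p | ψ p < χ p}.Finite ∧ ∀ p, χ p = ⊤ → ψ p = ⊤

/-- `G(τ)`: the elements of `G` of type at least `τ` (they form a subgroup). -/
def soc (G : AddSubgroup V) (τ : Nat.Primes → ℕ∞) : AddSubgroup V :=
  AddSubgroup.closure {x | x ∈ G ∧ TLe τ (ht G x)}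

/-- `G^*(τ)`: the sum of the `G(σ)` with `σ > τ`. -/
def star (G : AddSubgroup V) (τ : Nat.Primes → ℕ∞) : AddSubgroup V :=
  ⨆ (σ : Nat.Primes → ℕ∞) (_ : TLe τ σ ∧ ¬ TLe σ τ), soc G σ

/-- The purification of `G^*(τ)` in `G` (it is a subgroup). -/
def sharp (G : AddSubgroup V) (τ : Nat.Primes → ℕ∞) : AddSubgroup V :=
  AddSubgroup.closure {x | x ∈ G ∧ ∃ n : ℕ, n ≠ 0 ∧ n • x ∈ star G τ}

/-- `A` is a regulating subgroup of `G`: the sum of complements `C τ` of the purification of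
`G^*(τ)` in `G(τ)`, one for each type `τ`. -/
def IsReg (G A : AddSubgroup V) : Prop :=
  ∃ C : (Nat.Primes → ℕ∞) → AddSubgroup V, (∀ σ τ, TLe σ τ → TLe τ σ → C σ = C τ) ∧
    (∀ τ, C τ ⊓ sharp G τ = ⊥ ∧ C τ ⊔ sharp G τ = soc G τ) ∧ A = ⨆ τ, C τ

/-- The regulator: the intersection of all regulating subgroups. -/
def reg (G : AddSubgroup V) : AddSubgroup V := sInf {A | IsReg G A}

/-- Butler groups: a linear map `f` embeds `G` as a pure subgroup of a finite direct sum of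
subgroups `A i` of the rationals. -/
def IsButler (G : AddSubgroup V) : Prop :=
  ∃ (ι : Type) (_ : Finite ι) (A : ι → AddSubgroup ℚ) (f : V →ₗ[ℚ] (ι → ℚ)),
    (∀ x ∈ G, f x = 0 → x = 0) ∧ (∀ x ∈ G, ∀ i, f x i ∈ A i) ∧
    ∀ y : ι → ℚ, (∀ i, y i ∈ A i) → ∀ n : ℕ, n ≠ 0 → (∃ x ∈ G, f x = n • y) → ∃ x ∈ G, f x = y

/-- The rank of `G`. -/
noncomputable def rank (G : AddSubgroup V) : ℕ :=
  Module.finrank ℚ (Submodule.span ℚ (G : Set V))

end Pool.Agent.MP_9f65ab_al
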