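import Pool.Agent.MP_9f65ab_al.Data

/-! Butler groups of rank five with long regulator chains. -/

set_option autoImplicit false

namespace Pool.Agent.MP_9f65ab_al

abbrev V5 : Type := ℚ × (Fin 4 → ℚ)

def pp (a : Option (Fin 9 ⊕ Fin 9)) : Nat.Primes := ⟨pv a, pv_prime a⟩

theorem pp_inj {a b : Option (Fin 9 ⊕ Fin 9)} : pp a = pp b ↔ a = b :=
  ⟨fun h => pv_inj a b (congrArg Subtype.val h), congrArg pp⟩

abbrev p2 : Nat.Primes := pp none
abbrev ps (j : Fin 9) : Nat.Primes := pp (some (.inl j))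
abbrev pr (j : Fin 9) : Nat.Primes := pp (some (.inr j))

/-- The coordinates adapted to the flag `j`. -/
def fy (j : Fin 9) (k : Fin 4) : V5 →ₗ[ℚ] ℚ where
  toFun v := ∑ l, (Nx j k l : ℚ) * v.2 l
  map_add' v w := by simp [mul_add, Finset.sum_add_distrib]
  map_smul' t v := by simp [Finset.mul_sum, mul_left_comm]

theorem fy_sum (j : Fin 9) (v : V5) (l : Fin 4) : ∑ k, (Mx j l k : ℚ) * fy j k v = v.2 l := by
  have h : ∀ i, ∑ k, (Mx j l k : ℚ) * Nx j k i = if l = i then 1 else 0 := fun i => by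
    have := congrArg (Int.cast : ℤ → ℚ) (congrFun (congrFun (hMN j) l) i)
    simpa [Matrix.mul_apply, Matrix.one_apply] using this
  simp only [fy, LinearMap.coe_mk, AddHom.coe_mk, Finset.mul_sum, ← mul_assoc]
  rw [Finset.sum_comm]
  simp [← Finset.sum_mul, h]

/-- The elements of the space of the flag `j`. -/
def el (j : Fin 9) (α β γ : ℚ) : V5 := (α, fun l => β * Mx j l 0 + γ * Mx j l 1)

variable {i j : Fin 9} {α β γ t : ℚ} {v x : V5} {N n : ℕ} {q : Nat.Primes} {τ : Chi}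

theorem fy_el (i j : Fin 9) (k : Fin 4) :
    fy i k (el j α β γ) = β * (Nx i * Mx j) k 0 + γ * (Nx i * Mx j) k 1 := by
  simp only [fy, el, LinearMap.coe_mk, AddHom.coe_mk, Matrix.mul_apply, Fin.sum_univ_four]
  push_cast
  ring

theorem fy_self : fy j 0 (el j α β γ) = β ∧ fy j 1 (el j α β γ) = γ ∧ fy j 2 (el j α β γ) = 0 ∧
    fy j 3 (el j α β γ) = 0 := by
  simp [fy_el, hNM]

theorem el_smul : t • el j α β γ = el j (t * α) (t * β) (t * γ) :=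
  Prod.ext rfl (funext fun l => by simp [el]; ring)

theorem el_add {α' β' γ' : ℚ} : el j α β γ + el j α' β' γ' = el j (α + α') (β + β') (γ + γ') :=
  Prod.ext rfl (funext fun l => by simp [el]; ring)

theorem el_sub {α' β' γ' : ℚ} : el j α β γ - el j α' β' γ' = el j (α - α') (β - β') (γ - γ') :=
  Prod.ext rfl (funext fun l => by simp [el]; ring)

theorem el_zero (i j : Fin 9) : el i α 0 0 = el j α 0 0 := by simp [el]

/-- The space of the flag. -/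
def HH (j : Fin 9) (v : V5) : Prop := fy j 2 v = 0 ∧ fy j 3 v = 0

theorem HH.el (h : HH j v) : v = el j v.1 (fy j 0 v) (fy j 1 v) :=
  Prod.ext rfl (funext fun l => by
    rw [← fy_sum j v l, Fin.sum_univ_four, h.1, h.2]; simp [Pool.Agent.MP_9f65ab_al.el]; ring)

theorem hh_el : HH j (el j α β γ) := fy_self.2.2

theorem cross (i j : Fin 9) :
    (dl i j : ℚ) * β = (Nx i * Mx j) 3 1 * fy i 2 (el j α β γ) -
      (Nx i * Mx j) 2 1 * fy i 3 (el j α β γ) ∧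
    (dl i j : ℚ) * γ = (Nx i * Mx j) 2 0 * fy i 3 (el j α β γ) -
      (Nx i * Mx j) 3 0 * fy i 2 (el j α β γ) := by
  simp only [fy_el, dl]
  push_cast
  constructor <;> ring

theorem cross_zero (h : i ≠ j) (h1 : HH i (el j α β γ)) : β = 0 ∧ γ = 0 := by
  have h2 := cross (α := α) (β := β) (γ := γ) i j
  have h3 : (dl i j : ℚ) ≠ 0 := by exact_mod_cast (hdl i j h).1
  simpa [h1.1, h1.2, h3] using h2

theorem cross_mem (h : i ≠ j) {a : Fin 9 ⊕ Fin 9} (h2 : fy i 2 (el j α β γ) ∈ zl (pp (some a)))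
    (h3 : fy i 3 (el j α β γ) ∈ zl (pp (some a))) :
    β ∈ zl (pp (some a)) ∧ γ ∈ zl (pp (some a)) := by
  have h1 := cross (α := α) (β := β) (γ := γ) i j
  have h4 := (hdl i j h).2.trans_le (pv_ge a)
  exact ⟨zl_cancel (hdl i j h).1 h4 (h1.1 ▸ sub_mem (mul_mem (intCast_mem _ _) h2)
    (mul_mem (intCast_mem _ _) h3)), zl_cancel (hdl i j h).1 h4 (h1.2 ▸
      sub_mem (mul_mem (intCast_mem _ _) h3) (mul_mem (intCast_mem _ _) h2))⟩

theorem fy_mem (k : Fin 4) (hβ : β ∈ zl q) (hγ : γ ∈ zl q) : fy i k (el j α β γ) ∈ zl q := by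
  rw [fy_el]
  exact add_mem (mul_mem hβ (intCast_mem _ _)) (mul_mem hγ (intCast_mem _ _))

abbrev Ix : Type := Option (Fin 4) ⊕ (Fin 9 × Fin 2) ⊕ (Fin 9 × Fin 4)

def pi5 : Ix → Nat.Primes
  | .inl _ => p2
  | .inr (.inl a) => ps a.1
  | .inr (.inr a) => pr a.1

def f5 (N n : ℕ) : Ix → V5 →ₗ[ℚ] ℚ
  | .inl none => ((2 : ℚ) ^ N)⁻¹ • LinearMap.fst ℚ ℚ _
  | .inl (some l) => ((2 : ℚ) ^ n)⁻¹ • (LinearMap.proj l ∘ₗ LinearMap.snd ℚ ℚ _)
  | .inr (.inl a) => fy a.1 (![2, 3] a.2)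
  | .inr (.inr a) => fy a.1 a.2 - (if a.2 = 0 then (1 : ℚ) else 0) • LinearMap.fst ℚ ℚ _

theorem all5 (Q : Nat.Primes → ℚ → Prop) : (∀ a, Q (pi5 a) (f5 N n a v)) ↔
    (Q p2 ((2 ^ N)⁻¹ * v.1) ∧ ∀ l, Q p2 ((2 ^ n)⁻¹ * v.2 l)) ∧
    (∀ j, Q (ps j) (fy j 2 v) ∧ Q (ps j) (fy j 3 v)) ∧
    ∀ j, Q (pr j) (fy j 0 v - v.1) ∧ Q (pr j) (fy j 1 v) ∧ Q (pr j) (fy j 2 v) ∧
      Q (pr j) (fy j 3 v) := by
  simp [Option.forall, pi5, f5, Fin.forall_fin_succ]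

/-- The groups of the chain. -/
def GG (N n : ℕ) : AddSubgroup V5 := SG pi5 (f5 N n)

theorem mem_GG : v ∈ GG N n ↔ ((2 ^ N)⁻¹ * v.1 ∈ zl p2 ∧ ∀ l, (2 ^ n)⁻¹ * v.2 l ∈ zl p2) ∧
    (∀ j, fy j 2 v ∈ zl (ps j) ∧ fy j 3 v ∈ zl (ps j)) ∧
    ∀ j, fy j 0 v - v.1 ∈ zl (pr j) ∧ fy j 1 v ∈ zl (pr j) ∧ fy j 2 v ∈ zl (pr j) ∧
      fy j 3 v ∈ zl (pr j) :=
  mem_SG.trans (all5 fun p t => t ∈ zl p)

theorem GG_butler : IsButler (GG N n) := SG_butler fun x h => by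
  have := ((all5 fun _ t => t = 0).1 h).1
  exact Prod.ext (by simpa using this.1) (funext fun l => by simpa using this.2 l)

/-- The line of the flag. -/
def LL (j : Fin 9) (v : V5) : Prop := fy j 0 v = v.1 ∧ fy j 1 v = 0 ∧ HH j v

theorem van (P : Nat.Primes → Prop) : (∀ a, P (pi5 a) → f5 N n a v = 0) ↔
    (P p2 → v = 0) ∧ (∀ j, P (ps j) → HH j v) ∧ ∀ j, P (pr j) → LL j v := by
  rw [all5 fun p t => P p → t = 0]
  refine and_congr ⟨fun h e => Prod.ext (by simpa using h.1 e) (funext fun l => by simpa using h.2 l e),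
    fun h => ⟨fun e => by simp [h e], fun l e => by simp [h e]⟩⟩
    (and_congr (forall_congr' fun j => imp_and.symm) (forall_congr' fun j => ?_))
  simp only [LL, HH, imp_and, sub_eq_zero]

theorem mem_U : v ∈ US (GG N n) τ ↔
    (τ p2 = ⊤ → v = 0) ∧ (∀ j, τ (ps j) = ⊤ → HH j v) ∧ ∀ j, τ (pr j) = ⊤ → LL j v :=
  SG_US.trans (van fun p => τ p = ⊤)

theorem W_s (h : τ (ps j) ≠ ⊤) (hv : v ∈ US (GG N n) τ) (h' : HH j v) : v ∈ WS (GG N n) τ :=
  SG_WS h hv ((van fun p => p = ps j).2 (by simpa [pp_inj] using h'))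

theorem W_r (h : τ (pr j) ≠ ⊤) (hv : v ∈ US (GG N n) τ) (h' : LL j v) : v ∈ WS (GG N n) τ :=
  SG_WS h hv ((van fun p => p = pr j).2 (by simpa [pp_inj] using h'))

open Classical in
/-- The type that is infinite outside a set of the special primes. -/
noncomputable def tp (S : Option (Fin 9 ⊕ Fin 9) → Prop) : Chi :=
  fun p => if ∃ a, pp a = p ∧ ¬ S a then 0 else ⊤

theorem tp_top {S : Option (Fin 9 ⊕ Fin 9) → Prop} {a : Option (Fin 9 ⊕ Fin 9)} :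
    tp S (pp a) = ⊤ ↔ S a := by
  simp [tp, pp_inj]

theorem W_le {S : Option (Fin 9 ⊕ Fin 9) → Prop} {Z : Submodule ℚ V5}
    (hs : ∀ j, ¬ S (some (.inl j)) → ∀ v ∈ US (GG N n) (tp S), HH j v → v ∈ Z)
    (hr : ∀ j, ¬ S (some (.inr j)) → ∀ v ∈ US (GG N n) (tp S), LL j v → v ∈ Z) :
    WS (GG N n) (tp S) ≤ Z := SG_WS_le fun q hq v hv h => by
  obtain ⟨a, rfl, ha⟩ : ∃ a, pp a = q ∧ ¬ S a := by
    by_contra hn
    exact hq (if_neg hn)
  have h1 := (van fun p => p = pp a).1 h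
  rcases a with _ | j | j
  · exact h1.1 rfl ▸ Z.zero_mem
  · exact hs j ha v hv (h1.2.1 j rfl)
  · exact hr j ha v hv (h1.2.2 j rfl)

theorem two_inv (a : Fin 9 ⊕ Fin 9) (k : ℕ) : ((2 : ℚ) ^ k)⁻¹ ∈ zl (pp (some a)) :=
  zl_inv_pow (q := p2) (fun e => by simp [pp_inj] at e) k

theorem two_pow (k : ℕ) : (2 : ℚ) ^ k ∈ zl q := pow_mem (natCast_mem _ 2) k

theorem mem_el : el j α β γ ∈ GG N n ↔
    ((2 ^ N)⁻¹ * α ∈ zl p2 ∧ (2 ^ n)⁻¹ * β ∈ zl p2 ∧ (2 ^ n)⁻¹ * γ ∈ zl p2) ∧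
    (∀ i, i ≠ j → β ∈ zl (ps i) ∧ γ ∈ zl (ps i)) ∧
    (∀ i, i ≠ j → α ∈ zl (pr i) ∧ β ∈ zl (pr i) ∧ γ ∈ zl (pr i)) ∧
    β - α ∈ zl (pr j) ∧ γ ∈ zl (pr j) := by
  rw [mem_GG]
  constructor
  · rintro ⟨⟨h1, h2⟩, h3, h4⟩
    have k : ∀ l, (2 ^ n)⁻¹ * fy j l (el j α β γ) ∈ zl p2 := fun l => by
      simp only [fy, LinearMap.coe_mk, AddHom.coe_mk, Finset.mul_sum]
      exact sum_mem fun a _ => mul_left_comm _ _ ((el j α β γ).2 a) ▸ mul_mem (intCast_mem _ _) (h2 a)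
    have k0 := k 0
    have k1 := k 1
    have k3 := h4 j
    rw [fy_self.1] at k0 k3
    rw [fy_self.2.1] at k1 k3
    refine ⟨⟨h1, k0, k1⟩, fun i hi => cross_mem hi (h3 i).1 (h3 i).2, fun i hi => ?_, k3.1, k3.2.1⟩
    have k2 := cross_mem hi (h4 i).2.2.1 (h4 i).2.2.2
    refine ⟨?_, k2⟩
    convert sub_mem (fy_mem (i := i) (j := j) (α := α) 0 k2.1 k2.2) (h4 i).1 using 1
    simp [el]
  · rintro ⟨⟨h1, h2, h3⟩, h4, h5, h6, h7⟩
    refine ⟨⟨h1, fun l => ?_⟩, fun i => ?_, fun i => ?_⟩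
    · simp only [el, mul_add, ← mul_assoc]
      exact add_mem (mul_mem h2 (intCast_mem _ _)) (mul_mem h3 (intCast_mem _ _))
    · by_cases e : i = j
      · subst e; simp [fy_self]
      · exact ⟨fy_mem 2 (h4 i e).1 (h4 i e).2, fy_mem 3 (h4 i e).1 (h4 i e).2⟩
    · by_cases e : i = j
      · subst e; simpa [fy_self] using ⟨h6, h7⟩
      · obtain ⟨a, b, c⟩ := h5 i e
        exact ⟨sub_mem (fy_mem 0 b c) a, fy_mem 1 b c, fy_mem 2 b c,
          fy_mem 3 b c⟩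

theorem pow_le (h : n ≤ N) : ((2 : ℚ) ^ n)⁻¹ * 2 ^ N = 2 ^ (N - n) := by
  obtain ⟨d, rfl⟩ := Nat.exists_eq_add_of_le h
  simp [pow_add]

theorem two_le (h : n ≤ N) (ht : (2 ^ N)⁻¹ * t ∈ zl q) : (2 ^ n)⁻¹ * t ∈ zl q := by
  convert mul_mem (two_pow (N - n)) ht using 1
  rw [← pow_le h]
  field_simp

theorem LL.el (h : LL j v) : v = el j v.1 v.1 0 := by
  have := h.2.2.el
  rwa [h.1, h.2.1] at this

theorem ll_el : LL j (el j α α 0) := ⟨fy_self.1, fy_self.2.1, hh_el⟩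

theorem ll_zero (h : i ≠ j) (h1 : HH i v) (h2 : LL j v) : v = 0 := by
  rw [h2.el] at h1 ⊢
  have := (cross_zero h h1).1
  rw [this]
  simp [el, Prod.ext_iff, funext_iff]

theorem two_e (l : Fin 4) : ((0, Pi.single l (2 * t)) : V5) =
    ∑ j, (cf l j : ℚ) • (el j t t 0 - el j t 0 0) := by
  refine Prod.ext (by simp [Prod.fst_sum, el]) (funext fun k => ?_)
  have := congrArg (Int.cast : ℤ → ℚ) (hcf l k)
  simp only [Int.cast_sum, Int.cast_mul, Int.cast_ite, Int.cast_ofNat, Int.cast_zero] at this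
  have e : ∀ j, ((cf l j : ℚ) • (el j t t 0 - el j t 0 0)).2 k =
      t * (cf l j * Mx j k 0) := fun j => by simp [el]; ring
  simp only [Prod.snd_sum, Finset.sum_apply, e, ← Finset.mul_sum, this, Pi.single_apply]
  split_ifs <;> ring

theorem split5 (v : V5) : v = el j v.1 0 0 + ∑ l, ((0, Pi.single l (v.2 l)) : V5) :=
  Prod.ext (by simp [Prod.fst_sum, el]) (funext fun k => by
    simp [Prod.snd_sum, el, Pi.single_apply])

section lower

variable {C : Chi → AddSubgroup V5}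

theorem low0 (hC : Ch (GG N n) (GG N n) C) (h : el j α 0 0 ∈ GG N n) : el j α 0 0 ∈ ⨆ τ, C τ := by
  let S : Option (Fin 9 ⊕ Fin 9) → Prop := fun a => ∃ i, a = some (.inl i)
  obtain ⟨c, hc, hW⟩ := (hC (tp S)).sp _ h (mem_U.2 ⟨by simp [tp_top, S],
    fun i _ => el_zero i j ▸ hh_el, by simp [tp_top, S]⟩)
  have := W_le (Z := ⊥) (fun i hi => absurd ⟨i, rfl⟩ hi) (fun i _ v hv h => by
    obtain ⟨k, hk⟩ := exists_ne i
    exact ll_zero hk ((mem_U.1 hv).2.1 k (tp_top.2 ⟨k, rfl⟩)) h) hW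
  rw [Submodule.mem_bot, sub_eq_zero] at this
  exact this ▸ le_iSup C _ hc

theorem low1 (hC : Ch (GG N n) (GG N n) C) (h : el j α α 0 ∈ GG N n) :
    el j α α 0 ∈ ⨆ τ, C τ := by
  let S : Option (Fin 9 ⊕ Fin 9) → Prop := fun a => a = some (.inl j) ∨ a = some (.inr j)
  obtain ⟨c, hc, hW⟩ := (hC (tp S)).sp _ h (mem_U.2 (by simpa [tp_top, S] using ⟨hh_el, ll_el⟩))
  have k : ∀ i, i ≠ j → ∀ v ∈ US (GG N n) (tp S), HH i v → v ∈ (⊥ : Submodule ℚ V5) :=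
    fun i hi v hv h => ll_zero hi h ((mem_U.1 hv).2.2 j (tp_top.2 (Or.inr rfl)))
  have := W_le (Z := ⊥) (fun i hi => k i fun e => hi (Or.inl (e ▸ rfl)))
    (fun i hi v hv h => k i (fun e => hi (Or.inr (e ▸ rfl))) v hv h.2.2) hW
  rw [Submodule.mem_bot, sub_eq_zero] at this
  exact this ▸ le_iSup C _ hc

theorem low2 (hC : Ch (GG N n) (GG N n) C) (h : el j α β γ ∈ GG N n) :
    ∃ α' β', el j α' β' 0 ∈ GG N n ∧ el j α β γ - el j α' β' 0 ∈ ⨆ τ, C τ := by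
  let S : Option (Fin 9 ⊕ Fin 9) → Prop := fun a => a = some (.inl j)
  obtain ⟨c, hc, hW⟩ := (hC (tp S)).sp _ h (mem_U.2 (by simpa [tp_top, S] using hh_el))
  have k0 : ∀ v ∈ US (GG N n) (tp S), HH j v := fun v hv => (mem_U.1 hv).2.1 j (tp_top.2 rfl)
  have k : ∀ i, i ≠ j → ∀ v ∈ US (GG N n) (tp S), HH i v → v ∈ LinearMap.ker (fy j 1) :=
    fun i hi v hv h => (cross_zero hi ((k0 v hv).el ▸ h)).2
  have h1 : fy j 1 _ = 0 := W_le (Z := LinearMap.ker (fy j 1))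
    (fun i hi => k i fun e => hi (e ▸ rfl)) (fun i _ v hv h => by
      by_cases e : i = j
      · exact e ▸ h.2.1
      · exact k i e v hv h.2.2) hW
  have h2 := (k0 _ (WS_le_US hW)).el
  rw [h1] at h2
  exact ⟨_, _, h2 ▸ sub_mem h ((hC _).le c hc).1, by rw [← h2]; simpa using le_iSup C _ hc⟩

theorem away2 (N : ℕ) (t : ℚ) (q : Nat.Primes) : ∃ m : ℕ, ¬ (q : ℕ) ∣ m ∧
    ((q = p2 → (2 ^ N)⁻¹ * t ∈ zl q) → (2 ^ N)⁻¹ * (m * t) ∈ zl p2) ∧
    ∀ a, (q = pp (some a) → t ∈ zl q) → (m : ℚ) * t ∈ zl (pp (some a)) := by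
  obtain ⟨m, hm, h⟩ := away ((2 ^ N)⁻¹ * t) q
  refine ⟨m, hm, fun e => mul_left_comm (m : ℚ) _ t ▸ h _ fun e' => e e'.symm, fun a e => ?_⟩
  convert mul_mem (two_pow N) (h _ fun e' => mul_mem (e' ▸ two_inv a N) (e e'.symm)) using 1
  field_simp

theorem loc0 (hC : Ch (GG N n) (GG N n) C) (h2 : q = p2 → (2 ^ N)⁻¹ * t ∈ zl q)
    (hr : ∀ i, q = pr i → t ∈ zl q) : el j t 0 0 ∈ loc q (⨆ τ, C τ) := by
  obtain ⟨m, hm, h, h'⟩ := away2 N t q
  refine ⟨m, hm, ?_⟩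
  simp only [el_smul, mul_zero]
  have k := fun i => h' _ (hr i)
  exact low0 hC (mem_el.2 ⟨⟨h h2, by simp⟩, by simp,
    fun i _ => ⟨k i, by simp⟩, by simpa using k j, by simp⟩)

theorem loc1 (hC : Ch (GG N n) (GG N n) C) (hn : n ≤ N) (h2 : q = p2 → (2 ^ N)⁻¹ * t ∈ zl q)
    (hs : ∀ i, i ≠ j → q = ps i → t ∈ zl q) (hr : ∀ i, i ≠ j → q = pr i → t ∈ zl q) :
    el j t t 0 ∈ loc q (⨆ τ, C τ) := by
  obtain ⟨m, hm, h, h'⟩ := away2 N t q
  refine ⟨m, hm, ?_⟩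
  rw [el_smul, mul_zero]
  exact low1 hC (mem_el.2 ⟨⟨h h2, two_le hn (h h2), by simp⟩, fun i hi => ⟨h' _ (hs i hi), by simp⟩,
    fun i hi => ⟨h' _ (hr i hi), h' _ (hr i hi), by simp⟩, by simp⟩)

theorem loc_e (hC : Ch (GG N n) (GG N n) C) (hn : n ≤ N) (l : Fin 4)
    (h : (∃ a, q = pp a) → t ∈ zl q) :
    ((0, Pi.single l (2 ^ N * 2 * t)) : V5) ∈ loc q (⨆ τ, C τ) := by
  rw [mul_right_comm, mul_comm, two_e]
  have h1 : q = p2 → (2 ^ N)⁻¹ * (2 ^ N * t) ∈ zl q := fun e => by simpa using h ⟨_, e⟩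
  have h2 : ∀ a, q = pp a → 2 ^ N * t ∈ zl q := fun a e => mul_mem (two_pow N) (h ⟨_, e⟩)
  exact sum_mem fun j _ => zq_mem (sub_mem (loc1 hC hn h1 (fun _ _ => h2 _)
    fun _ _ => h2 _) (loc0 hC h1 fun _ => h2 _)) _

theorem loc_w (hC : Ch (GG N n) (GG N n) C) (hn : n ≤ N) (hq : q ≠ p2) (j : Fin 9)
    (h1 : ∀ i, q = pr i → v.1 ∈ zl q) (h : (∃ a, q = pp a) → ∀ k, fy j k v ∈ zl q) :
    v ∈ loc q (⨆ τ, C τ) := by
  rw [split5 (j := j) v]
  refine add_mem (loc0 hC (fun e => absurd e hq) h1) (sum_mem fun l _ => ?_)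
  have e : v.2 l = 2 ^ N * 2 * ((2 ^ (N + 1))⁻¹ * v.2 l) := by field_simp; ring
  rw [e]
  refine loc_e hC hn l fun ha => mul_mem (zl_inv_pow (q := p2) hq _) ?_
  rw [← fy_sum j v l]
  exact sum_mem fun k _ => mul_mem (intCast_mem _ _) (h ha k)

theorem loc_odd (hC : Ch (GG N n) (GG N n) C) (hn : n ≤ N) (hq : q ≠ p2) (hv : v ∈ GG N n) :
    v ∈ loc q (⨆ τ, C τ) := by
  obtain ⟨-, h1, h2⟩ := mem_GG.1 hv
  by_cases e : ∃ a, q = pp a
  swap
  · exact loc_w hC hn hq 0 (fun i h => absurd ⟨_, h⟩ e) fun h => absurd h e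
  obtain ⟨_ | j | j, rfl⟩ := e
  · exact absurd rfl hq
  · have k1 : v - el j v.1 (fy j 0 v) (fy j 1 v) ∈ loc (ps j) (⨆ τ, C τ) :=
      loc_w hC hn hq j (by simp [pp_inj]) fun _ => by
        simpa [Fin.forall_fin_succ, fy_self] using h1 j
    suffices k2 : el j v.1 (fy j 0 v) (fy j 1 v) ∈ loc (ps j) (⨆ τ, C τ) by
      simpa using add_mem k1 k2
    generalize v.1 = α, fy j 0 v = β, fy j 1 v = γ
    obtain ⟨a, ha, h3⟩ := away ((2 ^ N)⁻¹ * α) (ps j)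
    obtain ⟨b, hb, h4⟩ := away ((2 ^ n)⁻¹ * β) (ps j)
    obtain ⟨c, hc, h5⟩ := away ((2 ^ n)⁻¹ * γ) (ps j)
    refine loc_of_mul ((ps j).2.not_dvd_mul ((ps j).2.not_dvd_mul ha hb) hc) ?_
    rw [el_smul]
    have k : ∀ p, p ≠ ps j → ((2 ^ N)⁻¹ * (((a * b * c : ℕ) : ℚ) * α) ∈ zl p ∧
        (2 ^ n)⁻¹ * (((a * b * c : ℕ) : ℚ) * β) ∈ zl p ∧
        (2 ^ n)⁻¹ * (((a * b * c : ℕ) : ℚ) * γ) ∈ zl p) ∧ ((a * b * c : ℕ) : ℚ) * α ∈ zl p ∧
        ((a * b * c : ℕ) : ℚ) * β ∈ zl p ∧ ((a * b * c : ℕ) : ℚ) * γ ∈ zl p := fun p hp => by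
      have e1 := mul_mem (natCast_mem _ (b * c)) (h3 p fun e => absurd e hp)
      have e2 := mul_mem (natCast_mem _ (a * c)) (h4 p fun e => absurd e hp)
      have e3 := mul_mem (natCast_mem _ (a * b)) (h5 p fun e => absurd e hp)
      refine ⟨⟨by convert e1 using 1; push_cast; ring, by convert e2 using 1; push_cast; ring,
        by convert e3 using 1; push_cast; ring⟩, ?_, ?_, ?_⟩
      · convert mul_mem (two_pow N) e1 using 1; push_cast; field_simp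
      · convert mul_mem (two_pow n) e2 using 1; push_cast; field_simp
      · convert mul_mem (two_pow n) e3 using 1; push_cast; field_simp
    generalize ((a * b * c : ℕ) : ℚ) * α = α, ((a * b * c : ℕ) : ℚ) * β = β,
      ((a * b * c : ℕ) : ℚ) * γ = γ at k
    have kr := fun i => k (pr i) (by simp [pp_inj])
    obtain ⟨α', β', -, h6⟩ := low2 hC (mem_el.2 ⟨(k p2 hq.symm).1,
      fun i hi => (k (ps i) (by simpa [pp_inj] using hi)).2.2, fun i _ => (kr i).2,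
      sub_mem (kr j).2.2.1 (kr j).2.1, (kr j).2.2.2⟩)
    have h7 := add_mem (loc0 (j := j) (q := ps j) (t := α' - β') hC
      (fun e => absurd e hq) (by simp [pp_inj])) (loc1 (j := j) (t := β') hC hn
        (fun e => absurd e hq) (fun i hi e => absurd (by simpa [pp_inj] using e.symm) hi)
        (by simp [pp_inj]))
    have h8 : el j α' β' 0 ∈ loc (ps j) (⨆ τ, C τ) := by simpa [el_add] using h7
    simpa using add_mem (le_loc h6) h8
  · have k1 : v - el j v.1 v.1 0 ∈ loc (pr j) (⨆ τ, C τ) :=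
      loc_w hC hn hq j (fun _ _ => by simp [el]) fun _ => by
        simpa [Fin.forall_fin_succ, fy_self] using h2 j
    simpa using add_mem k1 (loc1 (j := j) (t := v.1) hC hn (fun e => absurd e hq)
      (by simp [pp_inj]) fun i hi e => absurd (by simpa [pp_inj] using e.symm) hi)

/-- The integral vectors whose multiples lie in a group. -/
def emb (n : ℕ) : (Fin 4 → ℤ) →+ V5 where
  toFun w := (0, fun l => 2 ^ n * w l)
  map_zero' := by simp [Prod.ext_iff, funext_iff]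
  map_add' v w := by simp [funext_iff, mul_add]

theorem loc_a (hC : Ch (GG N n) (GG N n) C) (j : Fin 9) : ∃ m k : ℤ, ¬ 2 ∣ m ∧
    (fun l => m * Mx j l 1 + k * Mx j l 0) ∈ (loc p2 (⨆ τ, C τ)).comap (emb n) := by
  obtain ⟨α, β, h1, h2⟩ := low2 (j := j) (α := 0) (β := 0) (γ := 2 ^ n) hC
    (mem_el.2 (by simp [two_pow]))
  obtain ⟨⟨h3, ⟨m, hm, z, hz⟩, -⟩, -⟩ := mem_el.1 h1
  refine ⟨m, -z, fun h => hm (Int.natCast_dvd_natCast.1 h), ?_⟩
  have h4 := qsmul_mem (add_mem (le_loc (q := p2) h2)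
    (loc0 (j := j) hC (fun _ => h3) (by simp [pp_inj]))) m
  rw [el_sub, el_add, el_smul] at h4
  rw [AddSubgroup.mem_comap]
  convert h4 using 1
  refine Prod.ext (by simp [emb, el]) (funext fun l => ?_)
  simp only [emb, el, AddMonoidHom.coe_mk, ZeroHom.coe_mk]
  push_cast
  rw [← hz]
  field_simp
  ring

theorem loc_two (hC : Ch (GG N n) (GG N n) C) {k : ℕ} (hv : v ∈ GG N k)
    (h : ∀ l, ((0, Pi.single l (2 ^ k)) : V5) ∈ loc p2 (⨆ τ, C τ)) : v ∈ loc p2 (⨆ τ, C τ) := by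
  obtain ⟨⟨h1, h2⟩, -⟩ := mem_GG.1 hv
  rw [split5 (j := 0) v]
  refine add_mem (loc0 hC (fun _ => h1) (by simp [pp_inj])) (sum_mem fun l _ => ?_)
  convert loc_smul (h2 l) (h l) using 1
  simp [← Pi.single_smul', mul_right_comm _ (v.2 l)]

theorem emb_single (l : Fin 4) (z : ℤ) :
    emb n (z • Pi.single l 1) = (0, Pi.single l (2 ^ n * (z : ℚ))) :=
  Prod.ext rfl (funext fun k => by
    simp only [emb, AddMonoidHom.coe_mk, ZeroHom.coe_mk, Pi.single_apply, Pi.smul_apply]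
    split_ifs <;> simp)

theorem GG_anti : GG N (n + 1) ≤ GG N n := fun v hv => by
  obtain ⟨⟨h1, h2⟩, h3⟩ := mem_GG.1 hv
  refine mem_GG.2 ⟨⟨h1, fun l => ?_⟩, h3⟩
  convert mul_mem (two_pow 1) (h2 l) using 1
  field_simp
  ring

theorem of_loc {A : AddSubgroup V5} (h : ∀ q, v ∈ loc q A) : v ∈ A :=
  mem_of_local fun p hp => h ⟨p, hp⟩

theorem le_reg (hn : n ≤ N) : GG N (n + 1) ≤ reg (GG N n) := fun v hv =>
  Bd.refl.mem_reg.2 fun C hC _ => of_loc fun q => by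
    by_cases hq : q = p2
    swap
    · exact loc_odd hC hn hq (GG_anti hv)
    subst hq
    refine loc_two hC hv fun l => ?_
    have := two_mem (t := N - n) (fun w => ?_) (loc_a hC) (Pi.single l 1)
    · rw [AddSubgroup.mem_comap, emb_single] at this
      simpa [pow_succ] using this
    · rw [pi_eq_sum_univ' w, Finset.smul_sum]
      refine sum_mem fun l _ => ?_
      rw [smul_smul, AddSubgroup.mem_comap, emb_single]
      convert loc_e (t := w l) hC hn l fun _ => intCast_mem _ _ using 3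
      push_cast
      rw [← pow_le hn]
      field_simp

theorem le_reg_last : GG N N ≤ reg (GG N N) := fun v hv =>
  Bd.refl.mem_reg.2 fun C hC _ => of_loc fun q => by
    by_cases hq : q = p2
    swap
    · exact loc_odd hC le_rfl hq hv
    subst hq
    have h1 : ∀ j, el j 0 (2 ^ N) 0 ∈ loc p2 (⨆ τ, C τ) := fun j => by
      have := sub_mem (loc1 (j := j) (q := p2) (t := 2 ^ N) hC le_rfl (by simp)
        (fun _ _ _ => two_pow _) fun _ _ _ => two_pow _)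
        (loc0 (j := j) (t := 2 ^ N) hC (by simp) fun _ _ => two_pow _)
      simpa [el_sub] using this
    have h2 : ∀ j, el j 0 0 (2 ^ N) ∈ loc p2 (⨆ τ, C τ) := fun j => by
      obtain ⟨α, β, h3, h4⟩ := low2 (j := j) (α := 0) (β := 0) (γ := 2 ^ N) hC
        (mem_el.2 (by simp [two_pow]))
      obtain ⟨⟨h5, h6, -⟩, -⟩ := mem_el.1 h3
      have := add_mem (add_mem (le_loc (q := p2) h4)
        (loc0 (j := j) hC (fun _ => h5) (by simp [pp_inj]))) (loc_smul h6 (h1 j))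
      simpa [el_sub, el_add, el_smul, mul_right_comm _ β] using this
    refine loc_two hC hv fun l => ?_
    fin_cases l
    · convert sub_mem (h1 0) (h2 0) using 1
      simp [el, Mx, funext_iff, Fin.forall_fin_succ]
    · convert h2 0 using 1
      simp [el, Mx, funext_iff, Fin.forall_fin_succ]
    · convert sub_mem (h1 4) (h2 4) using 1
      simp [el, Mx, funext_iff, Fin.forall_fin_succ]
    · convert h2 4 using 1
      simp [el, Mx, funext_iff, Fin.forall_fin_succ]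

end lower

theorem reg_le (hn : n < N) : reg (GG N n) ≤ GG N (n + 1) := fun v hv => by
  obtain ⟨⟨h1, -⟩, h2⟩ := mem_GG.1 (GG_butler.bd_reg.1 hv)
  refine mem_GG.2 ⟨⟨h1, fun l => ?_⟩, h2⟩
  let G' := (zl p2).toAddSubgroup.comap (f5 N (n + 1) (.inl (some l))).toAddMonoidHom
  have hG : ∀ x : V5, x ∈ G' ↔ (2 ^ (n + 1))⁻¹ * x.2 l ∈ zl p2 := fun x => Iff.rfl
  suffices H : ∀ τ, ∃ C, Cp (GG N n) (US (GG N n) τ) (WS (GG N n) τ) C ∧ C ≤ G' by
    obtain ⟨C, hC, hI, h3⟩ := exists_ch (fun _ _ C => C ≤ G') H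
    exact (iSup_le h3 : _ ≤ G') (Bd.refl.mem_reg.1 hv C hC hI)
  intro τ
  obtain ⟨C, hC⟩ := GG_butler.cp' (G := GG N n) Bd.refl τ
  have k0 : ∀ j α, el j α 0 0 ∈ G' := fun j α => by simp [hG, el]
  by_cases e2 : τ p2 = ⊤
  · exact ⟨C, hC, fun x hx => (mem_U.1 (hC.le x hx).2).1 e2 ▸ zero_mem _⟩
  by_cases er : ∃ j, τ (pr j) = ⊤
  · obtain ⟨j, hj⟩ := er
    refine ⟨C, hC, fun x hx => ?_⟩
    rw [((mem_U.1 (hC.le x hx).2).2.2 j hj).el, hG]
    simp only [el, zero_mul, add_zero, ← mul_assoc]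
    exact mul_mem (two_le hn (mem_GG.1 (hC.le x hx).1).1.1) (intCast_mem _ _)
  push Not at er
  have hU : ∀ x, (∀ j, τ (ps j) = ⊤ → HH j x) → x ∈ US (GG N n) τ := fun x hx =>
    mem_U.2 ⟨fun e => absurd e e2, hx, fun j e => absurd e (er j)⟩
  by_cases e3 : ∃ i j, i ≠ j ∧ τ (ps i) = ⊤ ∧ τ (ps j) = ⊤
  · obtain ⟨i, j, hij, hi, hj⟩ := e3
    refine ⟨C, hC, fun x hx => ?_⟩
    have k := (mem_U.1 (hC.le x hx).2).2.1
    have k1 := (k j hj).el
    have k2 := cross_zero hij (k1 ▸ k i hi)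
    rw [k1, k2.1, k2.2]
    exact k0 _ _
  have k1 : ∀ j α, el j α 0 0 ∈ WS (GG N n) τ := fun j α => by
    obtain ⟨i, hi⟩ : ∃ i, τ (ps i) ≠ ⊤ := by
      by_contra hc
      push Not at hc
      exact e3 ⟨0, 1, by decide, hc 0, hc 1⟩
    exact W_s hi (hU _ fun k _ => el_zero k j ▸ hh_el) (el_zero i j ▸ hh_el)
  have k2 : ∀ j, (∀ i, τ (ps i) = ⊤ → i = j) → ∀ α, el j α α 0 ∈ WS (GG N n) τ :=
    fun j hj α => W_r (er j) (hU _ fun i hi => hj i hi ▸ hh_el) ll_el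
  by_cases e4 : ∃ j, τ (ps j) = ⊤
  swap
  · refine ⟨C, hC, hC.le_of fun e => absurd (fun x _ => ?_) e⟩
    rw [split5 (j := 0) x]
    refine add_mem (k1 _ _) (sum_mem fun l _ => ?_)
    have e : x.2 l = 2 * (2⁻¹ * x.2 l) := by field_simp
    rw [e, two_e]
    exact sum_mem fun j _ => Submodule.smul_mem _ _
      (sub_mem (k2 j (fun i hi => absurd ⟨i, hi⟩ e4) _) (k1 _ _))
  obtain ⟨j, hj⟩ := e4
  have k3 : ∀ i, τ (ps i) = ⊤ → i = j := fun i hi => by_contra fun e => e3 ⟨i, j, e, hi, hj⟩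
  have k4 : ∀ α β, el j α β 0 ∈ WS (GG N n) τ := fun α β => by
    have := add_mem (k1 j (α - β)) (k2 j k3 β)
    rw [el_add] at this
    simpa using this
  have k5 : ∀ x ∈ US (GG N n) τ, HH j x := fun x hx => (mem_U.1 hx).2.1 j hj
  by_cases e5 : el j 0 0 1 ∈ WS (GG N n) τ
  · refine ⟨C, hC, hC.le_of fun e => absurd (fun x hx => ?_) e⟩
    rw [(k5 x hx).el]
    simpa [el_add, el_smul] using add_mem (k4 x.1 (fy j 0 x)) (Submodule.smul_mem _ (fy j 1 x) e5)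
  obtain ⟨k, z, hz⟩ : ∃ k z : ℤ, Mx j l 1 + k * Mx j l 0 = 2 * z := by
    rcases hev l j with ⟨z, hz⟩ | ⟨z, hz⟩
    · exact ⟨0, z, by simpa using hz⟩
    · exact ⟨1, z, by simpa using hz⟩
  refine ⟨ln (GG N n) (el j 0 k 1), ⟨fun x hx => ⟨hx.1, ?_⟩, fun x hx hW => ?_, fun x hx hxU => ?_⟩,
    fun x hx => ?_⟩
  · obtain ⟨-, t, rfl⟩ := mem_ln.1 hx
    exact Submodule.smul_mem _ _ (hU _ fun i hi => k3 i hi ▸ hh_el)
  · obtain ⟨-, t, rfl⟩ := mem_ln.1 hx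
    by_contra h0
    refine e5 ?_
    simpa [el_sub] using sub_mem
      ((Submodule.smul_mem_iff _ fun e => h0 (by rw [e, zero_smul])).1 hW) (k4 0 k)
  · rw [(k5 x hxU).el] at hx ⊢
    generalize x.1 = α, fy j 0 x = β, fy j 1 x = γ at hx ⊢
    obtain ⟨⟨-, -, a1⟩, a2, a3, -, a4⟩ := mem_el.1 hx
    refine ⟨γ • el j 0 k 1, mem_ln.2 ⟨?_, _, rfl⟩, by simpa [el_smul, el_sub] using k4 _ _⟩
    rw [el_smul, mul_zero, mul_one]
    exact mem_el.2 ⟨⟨by simp, mul_assoc _ γ _ ▸ mul_mem a1 (intCast_mem _ _), a1⟩,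
      fun i hi => ⟨mul_mem (a2 i hi).2 (intCast_mem _ _), (a2 i hi).2⟩,
      fun i hi => ⟨zero_mem _, mul_mem (a3 i hi).2.2 (intCast_mem _ _), (a3 i hi).2.2⟩,
      by simpa using mul_mem a4 (intCast_mem _ k), a4⟩
  · obtain ⟨hx, t, rfl⟩ := mem_ln.1 hx
    rw [el_smul] at hx ⊢
    have hz' := congrArg (Int.cast : ℤ → ℚ) hz
    push_cast at hz'
    rw [hG]
    convert mul_mem (mem_el.1 hx).1.2.2 (intCast_mem _ z) using 1
    simp only [el]
    field_simp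
    linear_combination 2 ^ n * t * hz'

theorem GG_lt : GG N (n + 1) < GG N n := lt_of_le_of_ne GG_anti fun e => by
  have h1 : el 0 0 0 (2 ^ n) ∈ GG N n := mem_el.2 (by simp [two_pow])
  obtain ⟨m, hm, z, hz⟩ := (mem_el.1 (e.ge h1)).1.2.2
  refine hm (Int.natCast_dvd_natCast.1 ⟨z, ?_⟩)
  have : (m : ℚ) = 2 * z := by rw [← hz]; field_simp; ring
  exact_mod_cast this

theorem iter_GG (hn : n ≤ N) : reg^[n] (GG N 0) = GG N n := by
  induction n with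
  | zero => rfl
  | succ n ih =>
    rw [Function.iterate_succ_apply', ih (by omega)]
    exact le_antisymm (reg_le hn) (le_reg (by omega))

theorem rank_GG : rank (GG N n) = 5 := by
  have : Submodule.span ℚ (GG N n : Set V5) = ⊤ := eq_top_iff.2 fun x _ => mem_span_iff.2 (SG_mul x)
  rw [rank, this]
  simp

theorem GG_bd : Bd (GG 0 0) (GG N 0) := by
  refine ⟨fun v hv => ?_, 2 ^ N, by simp, fun v hv => ?_⟩
  · obtain ⟨⟨h1, h2⟩, h3⟩ := mem_GG.1 hv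
    exact mem_GG.2 ⟨⟨two_le (Nat.zero_le N) h1, h2⟩, h3⟩
  · obtain ⟨⟨-, h2⟩, h3⟩ := mem_GG.1 (qsmul_mem hv (2 ^ N))
    exact mem_GG.2 ⟨⟨by simpa using (mem_GG.1 hv).1.1, h2⟩, h3⟩

theorem five : ∃ H : AddSubgroup V5, IsButler H ∧ rank H = 5 ∧ ∀ N : ℕ, ∃ G ≤ H,
    (∃ m : ℕ, m ≠ 0 ∧ ∀ x ∈ H, m • x ∈ G) ∧ IsButler G ∧ rank G = 5 ∧
    (∀ n < N, reg^[n + 1] G < reg^[n] G) ∧ reg^[N + 1] G = reg^[N] G :=
  ⟨GG 0 0, GG_butler, rank_GG, fun N => ⟨GG N 0, GG_bd.1,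
    by simpa only [Nat.cast_smul_eq_nsmul] using GG_bd.2, GG_butler, rank_GG, fun n hn => by
      rw [iter_GG hn, iter_GG hn.le]; exact GG_lt, by
      rw [Function.iterate_succ_apply', iter_GG le_rfl]
      exact le_antisymm GG_butler.bd_reg.1 le_reg_last⟩⟩

end Pool.Agent.MP_9f65ab_al
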