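import Pool.Agent.MP_9f65ab_al.Split
import Pool.Agent.MP_9f65ab_al.Alg

/-! The regulator has bounded index, and it is its own regulator in rank at most four. -/

set_option autoImplicit false

namespace Pool.Agent.MP_9f65ab_al

open Module

variable {V : Type} [AddCommGroup V] [Module ℚ V] {G B : AddSubgroup V} {τ σ : Chi} {x y : V}
  {C : Chi → AddSubgroup V}

theorem IsButler.fdU (h : IsButler G) (τ : Chi) : FiniteDimensional ℚ (US G τ) :=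
  have := h.fd
  Submodule.finiteDimensional_of_le US_le_span

theorem IsButler.fdW (h : IsButler G) (τ : Chi) : FiniteDimensional ℚ (WS G τ) :=
  have := h.fdU τ
  Submodule.finiteDimensional_of_le WS_le_US

theorem IsButler.us_lt (h : IsButler G) (hy : y ∈ G) (h1 : TLe (ht G y) σ) (h2 : ¬ TLe σ (ht G y)) :
    finrank ℚ (US G σ) < finrank ℚ (US G (ht G y)) :=
  have := h.fdU (ht G y)
  Submodule.finrank_lt_finrank_of_lt (lt_of_le_of_ne (US_anti h1) fun e =>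
    h2 ((mem_US hy).1 (e ▸ (mem_US hy).2 TLe.refl)))

theorem IsButler.ws_lt (h : IsButler G) (hc : ¬ US G τ ≤ WS G τ) :
    finrank ℚ (WS G τ) < finrank ℚ (US G τ) :=
  have := h.fdU τ
  Submodule.finrank_lt_finrank_of_lt (lt_of_le_of_ne WS_le_US fun e => hc e.ge)

/-- A multiple of `G(τ)` lies in the sum of the complements of types at least `τ`. -/
def FI (G : AddSubgroup V) (τ : Chi) : Prop := ∃ m : ℕ, m ≠ 0 ∧ ∀ C, Ch G G C →
  ∀ x ∈ G, x ∈ US G τ → (m : ℚ) • x ∈ ⨆ (σ : Chi) (_ : TLe τ σ), C σ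

/-- The same for the types above `τ`. -/
def FIs (G : AddSubgroup V) (τ : Chi) : Prop := ∃ m : ℕ, m ≠ 0 ∧ ∀ C, Ch G G C →
  ∀ x ∈ G, x ∈ WS G τ → (m : ℚ) • x ∈ ⨆ (σ : Chi) (_ : TLe τ σ ∧ ¬ TLe σ τ), C σ

theorem FIs.fi (h : FIs G τ) : FI G τ := by
  obtain ⟨m, hm, h⟩ := h
  refine ⟨m, hm, fun C hC x hx hU => ?_⟩
  obtain ⟨c, hc, hW⟩ := (hC τ).sp x hx hU
  have h1 := biSup_mono (f := C) (fun σ (hσ : TLe τ σ ∧ ¬ TLe σ τ) => hσ.1)
    (h C hC _ (G.sub_mem hx ((hC τ).le c hc).1) hW)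
  have h2 : C τ ≤ ⨆ (σ : Chi) (_ : TLe τ σ), C σ :=
    le_iSup₂_of_le (f := fun (σ : Chi) (_ : TLe τ σ) => C σ) τ TLe.refl le_rfl
  convert AddSubgroup.add_mem _ h1 (qsmul_mem (h2 hc) m) using 1
  module

theorem IsButler.fis_of (h : IsButler G)
    (ih : ∀ y ∈ G, TLe τ (ht G y) → ¬ TLe (ht G y) τ → FI G (ht G y)) : FIs G τ := by
  obtain ⟨s, n, hn, hs, h1⟩ := h.gen (WS G τ)
  have up : ∀ (C : Chi → AddSubgroup V) (ρ : Chi), TLe τ ρ → ¬ TLe ρ τ →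
      (⨆ (σ : Chi) (_ : TLe ρ σ), C σ) ≤ ⨆ (σ : Chi) (_ : TLe τ σ ∧ ¬ TLe σ τ), C σ :=
    fun C ρ e e' => biSup_mono fun σ hσ => ⟨e.trans hσ, fun h => e' (hσ.trans h)⟩
  obtain ⟨r, hr, h2⟩ := exists_common s (fun c r => ∀ C, Ch G G C → ∀ x ∈ ln G c,
      (r : ℚ) • x ∈ ⨆ (σ : Chi) (_ : TLe τ σ ∧ ¬ TLe σ τ), C σ)
    (fun c a b _ h C hC x hx => by rw [Nat.cast_mul, mul_smul]; exact qsmul_mem (h C hC x hx) b)
    fun c hc => by
      obtain ⟨hcG, hcW, -⟩ := hs c hc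
      by_cases e : TLe (ht G c) τ
      swap
      · have e' := (mem_US hcG).1 (WS_le_US hcW)
        obtain ⟨m, hm, h3⟩ := ih c hcG e' e
        refine ⟨m, hm, fun C hC x hx => up C _ e' e (h3 C hC x hx.1 ?_)⟩
        obtain ⟨-, q, rfl⟩ := mem_ln.1 hx
        exact Submodule.smul_mem _ _ ((mem_US hcG).2 TLe.refl)
      let Q : AddSubgroup V :=
        { carrier := {y | ∃ m : ℕ, m ≠ 0 ∧ ∀ C, Ch G G C → ∀ q : ℚ, q • c ∈ G →
            ((m : ℚ) * q) • y ∈ ⨆ (σ : Chi) (_ : TLe τ σ ∧ ¬ TLe σ τ), C σ}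
          zero_mem' := ⟨1, one_ne_zero, fun _ _ _ _ => by simp⟩
          add_mem' := by
            rintro a b ⟨m, hm, ha⟩ ⟨k, hk, hb⟩
            refine ⟨m * k, mul_ne_zero hm hk, fun C hC q hq => ?_⟩
            convert AddSubgroup.add_mem _ (qsmul_mem (ha C hC q hq) k) (qsmul_mem (hb C hC q hq) m)
              using 1
            push_cast
            module
          neg_mem' := by
            rintro a ⟨m, hm, ha⟩
            exact ⟨m, hm, fun C hC q hq => by rw [smul_neg]; exact neg_mem (ha C hC q hq)⟩ }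
      have h3 : star G τ ≤ Q := iSup₂_le fun σ hσ y hy => by
        obtain ⟨hy, h4⟩ := mem_soc.1 hy
        have e1 := hσ.1.trans h4
        have e2 : ¬ TLe (ht G y) τ := fun h => hσ.2 (h4.trans h)
        obtain ⟨m, hm, h5⟩ := ih y hy e1 e2
        obtain ⟨k, hk, h6⟩ := mul_of_tle hcG hy (e.trans e1)
        refine ⟨m * k, mul_ne_zero hm hk, fun C hC q hq => up C _ e1 e2 ?_⟩
        rw [Nat.cast_mul, mul_assoc, mul_smul]
        exact h5 C hC _ (h6 q hq) (Submodule.smul_mem _ _ ((mem_US hy).2 TLe.refl))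
      obtain ⟨k, hk, h4⟩ := mem_span_iff.1 hcW
      obtain ⟨m, hm, h5⟩ := h3 h4
      refine ⟨m * k, mul_ne_zero hm hk, fun C hC x hx => ?_⟩
      obtain ⟨hx, q, rfl⟩ := mem_ln.1 hx
      convert h5 C hC q hx using 1
      push_cast
      module
  refine ⟨r * n, mul_ne_zero hr hn, fun C hC x hx hW => ?_⟩
  have h3 : (⨆ c ∈ s, ln G c) ≤ (⨆ (σ : Chi) (_ : TLe τ σ ∧ ¬ TLe σ τ), C σ).comap
      (DistribSMul.toAddMonoidHom V (r : ℚ)) := iSup₂_le fun c hc x hx => h2 c hc C hC x hx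
  rw [Nat.cast_mul, mul_smul]
  exact h3 (h1 x hx hW)

theorem IsButler.fis (h : IsButler G) (τ : Chi) : FIs G τ := by
  have key : ∀ n, ∀ y ∈ G, finrank ℚ (US G (ht G y)) < n → FI G (ht G y) := fun n => by
    induction n with
    | zero => intro y _ h; omega
    | succ n ih =>
      exact fun y hy hn => (h.fis_of fun z hz e e' =>
        ih z hz ((h.us_lt hy e e').trans_le (by omega))).fi
  exact h.fis_of fun y hy _ _ => key _ y hy (Nat.lt_succ_self _)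

theorem IsButler.cp' (h : IsButler G) (hB : Bd G B) (τ : Chi) : ∃ C, Cp B (US G τ) (WS G τ) C :=
  let ⟨h1, _, hm, h2⟩ := hB
  h.cp h1 hm fun x hx _ => h2 x hx

theorem IsButler.ch (h : IsButler G) (hB : Bd G B) : ∃ C, Ch G B C ∧ TInv C :=
  let ⟨C, h1, h2, _⟩ := exists_ch (fun _ _ _ => True) fun τ => (h.cp' hB τ).imp fun _ h => ⟨h, trivial⟩
  ⟨C, h1, h2⟩

omit [Module ℚ V] in
theorem bsup_le (P : Chi → Prop) (C : Chi → AddSubgroup V) :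
    (⨆ (τ : Chi) (_ : P τ), C τ) ≤ ⨆ τ, C τ := iSup₂_le fun τ _ => le_iSup C τ

theorem Ch.le (h : Ch G B C) : ⨆ τ, C τ ≤ B := iSup_le fun τ x hx => ((h τ).le x hx).1

theorem IsButler.bd_reg (h : IsButler G) : Bd G (reg G) := by
  obtain ⟨C, hC, hI⟩ := h.ch Bd.refl
  obtain ⟨m, hm, h1⟩ := (h.fis ⊥).fi
  exact ⟨fun x hx => hC.le (Bd.refl.mem_reg.1 hx C hC hI), m, hm, fun x hx =>
    Bd.refl.mem_reg.2 fun C hC _ => bsup_le _ _
      (h1 C hC x hx ((mem_US hx).2 (TLe.of_le bot_le)))⟩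

theorem IsButler.exists_max (h : IsButler G) (hW : WS G τ ≠ ⊥) :
    ∃ σ, US G σ ≤ WS G τ ∧ US G σ ≠ ⊥ ∧ WS G σ = ⊥ := by
  have up : ∀ τ : Chi, WS G τ ≠ ⊥ → ∃ y ∈ G, y ≠ 0 ∧ TLe τ (ht G y) ∧ ¬ TLe (ht G y) τ := by
    intro τ hW
    by_contra hn
    refine hW (eq_bot_iff.2 (WS_le fun σ e e' x hx => by_contra fun h0 => hn ?_))
    obtain ⟨y, hy, hU, h1⟩ := exists_mul hx h0
    have := (mem_US hy).1 hU
    exact ⟨y, hy, h1, e.trans this, fun h => e' (this.trans h)⟩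
  have key : ∀ n, ∀ y ∈ G, y ≠ 0 → finrank ℚ (US G (ht G y)) < n →
      ∃ σ, US G σ ≤ US G (ht G y) ∧ US G σ ≠ ⊥ ∧ WS G σ = ⊥ := fun n => by
    induction n with
    | zero => intro y _ _ h; omega
    | succ n ih =>
      intro y hy y0 hn
      by_cases e : WS G (ht G y) = ⊥
      · exact ⟨_, le_rfl, fun h => y0 ((Submodule.mem_bot ℚ).1 (h ▸ (mem_US hy).2 TLe.refl)), e⟩
      · obtain ⟨z, hz, z0, e1, e2⟩ := up _ e
        obtain ⟨σ, h1, h2⟩ := ih z hz z0 ((h.us_lt hy e1 e2).trans_le (by omega))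
        exact ⟨σ, h1.trans (US_anti e1), h2⟩
  obtain ⟨y, hy, y0, e1, e2⟩ := up τ hW
  obtain ⟨σ, h1, h2⟩ := key _ y hy y0 (Nat.lt_succ_self _)
  exact ⟨σ, h1.trans (US_le_WS e1 e2), h2⟩

/-- The sum of the complements for the types with a small radical. -/
def pS (G : AddSubgroup V) (C : Chi → AddSubgroup V) : AddSubgroup V :=
  ⨆ (τ : Chi) (_ : finrank ℚ (WS G τ) ≤ 2), C τ

theorem le_pS (h : finrank ℚ (WS G τ) ≤ 2) : C τ ≤ pS G C :=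
  le_iSup₂_of_le (f := fun (τ : Chi) (_ : finrank ℚ (WS G τ) ≤ 2) => C τ) τ h le_rfl

theorem Cp.le_of {U W : Submodule ℚ V} {C A : AddSubgroup V} (h : Cp B U W C)
    (hA : ¬ U ≤ W → ∀ x ∈ C, x ∈ A) : C ≤ A := fun x hx => by
  by_cases e : U ≤ W
  · rw [h.dj x hx (e (h.le x hx).2)]; exact A.zero_mem
  · exact hA e x hx

theorem eq_of_ne_bot {L Z : Submodule ℚ V} [FiniteDimensional ℚ Z] (h : L ≤ Z) (h0 : L ≠ ⊥)
    (h1 : finrank ℚ Z ≤ 1) : L = Z :=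
  have := Submodule.finiteDimensional_of_le h
  Submodule.eq_of_le_of_finrank_le h (h1.trans (Submodule.one_le_finrank_iff.2 h0))

theorem IsButler.tight (h : IsButler G) (hC : Ch G B C) (h1 : finrank ℚ (WS G τ) ≤ 1) (hx : x ∈ B)
    (hU : x ∈ US G τ) : x ∈ pS G C := by
  obtain ⟨c, hc, hW⟩ := (hC τ).sp x hx hU
  have h2 : c ∈ pS G C := le_pS (τ := τ) (by omega) hc
  by_cases e : WS G τ = ⊥
  · rw [e, Submodule.mem_bot, sub_eq_zero] at hW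
    rwa [hW]
  · obtain ⟨σ, h3, h4, h5⟩ := h.exists_max e
    have := h.fdW τ
    obtain ⟨d, hd, h6⟩ := (hC σ).sp _ (B.sub_mem hx ((hC τ).le c hc).1)
      ((eq_of_ne_bot h3 h4 h1).ge hW)
    rw [h5, Submodule.mem_bot, sub_eq_zero, sub_eq_iff_eq_add] at h6
    rw [h6]
    exact AddSubgroup.add_mem _ (le_pS (τ := σ) (by rw [h5]; simp) hd) h2

/-- The part that lies in all regulating subgroups for trivial reasons. -/
def fx (G : AddSubgroup V) : AddSubgroup V :=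
  ⨆ (τ : Chi) (_ : ¬ US G τ ≤ WS G τ ∧ finrank ℚ (WS G τ) ≤ 1), G ⊓ (US G τ).toAddSubgroup

theorem mem_fx (h : ¬ US G τ ≤ WS G τ) (h1 : finrank ℚ (WS G τ) ≤ 1) (hx : x ∈ G)
    (hU : x ∈ US G τ) : x ∈ fx G :=
  le_iSup₂_of_le (f := fun (τ : Chi) (_ : ¬ US G τ ≤ WS G τ ∧ finrank ℚ (WS G τ) ≤ 1) =>
    G ⊓ (US G τ).toAddSubgroup) τ ⟨h, h1⟩ le_rfl ⟨hx, hU⟩

theorem IsButler.gen_plane (h : IsButler G) (h2 : finrank ℚ (WS G τ) = 2) :
    ∃ (μ : V) (m : ℕ), μ ∈ G ∧ μ ∈ WS G τ ∧ m ≠ 0 ∧ (m : ℤ) • μ ∈ fx G ∧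
      ∀ b ∈ G, b ∈ WS G τ → ∃ i : ℤ, b - i • μ ∈ fx G := by
  obtain ⟨C, hC, -⟩ := h.ch Bd.refl
  obtain ⟨m, hm, h1⟩ := h.fis τ
  have := h.fdW τ
  have h3 : ∀ a ∈ G ⊓ (WS G τ).toAddSubgroup, (m : ℤ) • a ∈ fx G := fun a ha => by
    rw [natCast_zsmul, ← Nat.cast_smul_eq_nsmul ℚ]
    refine (iSup₂_le fun σ hσ => (hC σ).le_of fun e x hx => mem_fx e ?_ ((hC σ).le x hx).1
      ((hC σ).le x hx).2 : _ ≤ fx G) (h1 C hC a ha.1 ha.2)
    have h4 := h.ws_lt e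
    have h5 := Submodule.finrank_mono (US_le_WS (G := G) hσ.1 hσ.2)
    omega
  obtain ⟨σ, h4, h5, h6⟩ := h.exists_max (τ := τ) fun e => by rw [e] at h2; simp at h2
  have h7 : ∀ x ∈ G, x ∈ US G σ → x ∈ fx G := fun x =>
    mem_fx (fun e => h5 (eq_bot_iff.2 (h6 ▸ e))) (by rw [h6]; simp)
  obtain ⟨φ, hφ⟩ : ∃ φ : V →ₗ[ℚ] ℚ, ∀ x ∈ WS G τ, φ x = 0 → x ∈ US G σ := by
    by_cases e : WS G τ ≤ US G σ
    · exact ⟨0, fun x hx _ => e hx⟩
    obtain ⟨d, hd, hd'⟩ := SetLike.not_le_iff_exists.1 e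
    obtain ⟨φ, hφ0, hφ⟩ := (US G σ).exists_dual_map_eq_bot_of_notMem hd' inferInstance
    have h8 : WS G τ ⊓ LinearMap.ker φ < WS G τ :=
      lt_of_le_of_ne inf_le_left fun e => hφ0 (e.ge hd).2
    have h9 := Submodule.finrank_lt_finrank_of_lt h8
    have h10 : US G σ = WS G τ ⊓ LinearMap.ker φ := eq_of_ne_bot (fun x hx =>
      ⟨h4 hx, (Submodule.mem_bot ℚ).1 (hφ ▸ Submodule.mem_map_of_mem hx)⟩) h5 (by omega)
    exact ⟨φ, fun x hx h0 => h10 ▸ ⟨hx, h0⟩⟩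
  obtain ⟨μ, hμ, h8⟩ := cyc hm h3 fun a ha b hb => by
    obtain ⟨α, β, i, j, e1, e2⟩ := rat_gcd (φ a) (φ b)
    have hg := AddSubgroup.add_mem _ (AddSubgroup.zsmul_mem _ ha α) (AddSubgroup.zsmul_mem _ hb β)
    have k : ∀ z ∈ G ⊓ (WS G τ).toAddSubgroup, ∀ l : ℤ, φ z = l * (α * φ a + β * φ b) →
        z - l • (α • a + β • b) ∈ fx G := fun z hz l e => by
      have h9 := AddSubgroup.sub_mem _ hz (AddSubgroup.zsmul_mem _ hg l)
      exact h7 _ h9.1 (hφ _ h9.2 (by simp [e, mul_add]))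
    exact ⟨_, hg, i, j, k a ha i e1, k b hb j e2⟩
  exact ⟨μ, m, hμ.1, hμ.2, hm, h3 μ hμ, fun b hb hW => h8 b ⟨hb, hW⟩⟩

/-- Critical types whose radical is a plane. -/
def Loose (G : AddSubgroup V) (τ : Chi) : Prop := ¬ US G τ ≤ WS G τ ∧ finrank ℚ (WS G τ) = 2

theorem IsButler.key (h : IsButler G) (hK : ∀ τ σ, Loose G τ → Loose G σ → WS G τ = WS G σ)
    (hB : ∀ τ, ¬ US G τ ≤ WS G τ → finrank ℚ (WS G τ) ≤ 2 → ∀ x ∈ US G τ,
      (x ∈ B ↔ ∀ C, Ch G G C → TInv C → x ∈ pS G C))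
    (hBG : B ≤ G) {C' : Chi → AddSubgroup V} (hC' : Ch G B C')
    (hx : ∀ C, Ch G G C → TInv C → x ∈ pS G C) : x ∈ pS G C' := by
  have hD : ∀ C, Ch G G C → fx G ≤ pS G C := fun C hC =>
    iSup₂_le fun τ hτ x hx => h.tight hC hτ.2 hx.1 hx.2
  have hD' : fx G ≤ pS G C' := iSup₂_le fun τ hτ x hx => h.tight hC' hτ.2
    ((hB τ hτ.1 (by omega) x hx.2).2 fun C hC _ => h.tight hC hτ.2 hx.1 hx.2) hx.2
  have hT : ∀ τ (C : AddSubgroup V), Cp G (US G τ) (WS G τ) C → ¬ Loose G τ →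
      finrank ℚ (WS G τ) ≤ 2 → C ≤ fx G := fun τ C hC hl h2 => hC.le_of fun e x hx =>
    mem_fx e (by by_contra hn; exact hl ⟨e, by omega⟩) (hC.le x hx).1 (hC.le x hx).2
  by_cases h0 : ∃ τ, Loose G τ
  swap
  · obtain ⟨C, hC, hI⟩ := h.ch Bd.refl
    exact hD' ((iSup₂_le fun τ hτ => hT τ _ (hC τ) (fun e => h0 ⟨τ, e⟩) hτ : pS G C ≤ _) (hx C hC hI))
  obtain ⟨τ₀, h0⟩ := h0
  obtain ⟨μ, m, hμ, hμW, hm, hmμ, hgen⟩ := h.gen_plane h0.2
  let E := fx G ⊔ ⨆ (τ : Chi) (_ : Loose G τ), G ⊓ (US G τ).toAddSubgroup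
  have hE : ∀ τ, Loose G τ → ∀ x ∈ G, x ∈ US G τ → x ∈ E := fun τ hτ x hx hU =>
    AddSubgroup.mem_sup_right (le_iSup₂_of_le
      (f := fun (τ : Chi) (_ : Loose G τ) => G ⊓ (US G τ).toAddSubgroup) τ hτ le_rfl ⟨hx, hU⟩)
  have hEG : E ≤ G := sup_le (iSup₂_le fun _ _ => inf_le_left) (iSup₂_le fun _ _ => inf_le_left)
  obtain ⟨c, hc, hmax⟩ := exists_ord (E := E) hm hmμ
  have gen : ∀ (k : ℕ) (A : AddSubgroup V), Ord (fx G) E μ k → fx G ≤ A →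
      (∀ τ, Loose G τ → ∀ x ∈ G, x ∈ US G τ → ∃ i : ℤ, (k : ℤ) • x - i • (k : ℤ) • μ ∈ A) →
      ∀ e ∈ E, (c : ℤ) • e ∈ A := fun k A hk hA hs e he => by
    let S := (A ⊔ AddSubgroup.zmultiples ((k : ℤ) • μ)).comap (zsmulAddGroupHom (k : ℤ))
    have h1 : E ≤ S := sup_le (fun x hx => AddSubgroup.mem_sup_left (A.zsmul_mem (hA hx) _))
      (iSup₂_le fun τ hτ x hx => by
        obtain ⟨i, hi⟩ := hs τ hτ x hx.1 hx.2
        exact AddSubgroup.mem_sup.2 ⟨_, hi, _, ⟨i, rfl⟩, by simp⟩)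
    obtain ⟨n, h2, h3⟩ := ord_mul hm hmμ hk hA fun e he => by
      obtain ⟨a, ha, _, ⟨i, rfl⟩, e1⟩ := AddSubgroup.mem_sup.1 (h1 he)
      have e2 : a = (k : ℤ) • e - i • (k : ℤ) • μ := eq_sub_of_add_eq e1
      exact ⟨i, e2 ▸ ha⟩
    obtain ⟨d, hd⟩ := hmax _ h2
    rw [hd, mul_comm, Nat.cast_mul, mul_smul]
    exact A.zsmul_mem (h3 e he) _
  have h1 : ∀ e ∈ E, ∀ C, Ch G G C → TInv C → (c : ℤ) • e ∈ pS G C := fun e he C hC _ =>
    gen 1 _ ⟨one_ne_zero, fun _ _ _ _ => by simp⟩ (hD C hC) (fun τ hτ x hx hU => by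
      obtain ⟨a, ha, hW⟩ := (hC τ).sp x hx hU
      obtain ⟨i, hi⟩ := hgen _ (G.sub_mem hx ((hC τ).le a ha).1) (hK _ _ hτ h0 ▸ hW)
      refine ⟨i, ?_⟩
      convert AddSubgroup.add_mem _ (hD C hC hi) (le_pS hτ.2.le ha) using 1
      simp only [Nat.cast_one, one_smul]
      abel) e he
  have h2 : ∀ x, (∀ C, Ch G G C → TInv C → x ∈ pS G C) → ∃ e ∈ E, x - (c : ℤ) • e ∈ fx G := by
    intro x hx
    by_contra hn
    push Not at hn
    obtain ⟨S, s1, s2, s3, s4, s5⟩ := exists_supp hc (hE τ₀ h0 μ hμ (WS_le_US hμW)) le_sup_left hn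
    obtain ⟨C, hC, hI, hS⟩ := exists_ch (G := G) (B := G)
      (fun _ W C => finrank ℚ W ≤ 2 → C ≤ S) fun τ => by
        by_cases hl : Loose G τ
        · obtain ⟨C, hC⟩ := h.cp (τ := τ) (s2.trans hEG) hc.1 fun x hx hU => by
            rw [Nat.cast_smul_eq_nsmul, ← natCast_zsmul]; exact s4 x (hE τ hl x hx hU)
          refine ⟨C, ⟨fun x hx => ⟨hEG (s2 (hC.le x hx).1), (hC.le x hx).2⟩, hC.dj,
            fun x hx hU => ?_⟩, fun _ x hx => (hC.le x hx).1⟩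
          have e : μ ∈ WS G τ := hK _ _ h0 hl ▸ hμW
          obtain ⟨i, hi⟩ := s3 x (hE τ hl x hx hU)
          obtain ⟨a, ha, hW⟩ := hC.sp _ hi (sub_mem hU (zsmul_mem (WS_le_US e) i))
          exact ⟨a, ha, by convert add_mem hW (zsmul_mem e i) using 1; abel⟩
        · obtain ⟨C, hC⟩ := h.cp' Bd.refl τ
          exact ⟨C, hC, fun e => (hT τ C hC hl e).trans s1⟩
    exact s5 ((iSup₂_le hS : pS G C ≤ S) (hx C hC hI))
  obtain ⟨e, he, h3⟩ := h2 x hx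
  have h4 := gen c _ hc hD' (fun τ hτ x hx hU => by
    have k1 := zsmul_mem hU (c : ℤ)
    have k2 := (hB τ hτ.1 hτ.2.le _ k1).2 (h1 x (hE τ hτ x hx hU))
    obtain ⟨a, ha, hW⟩ := (hC' τ).sp _ k2 k1
    have k3 := B.sub_mem k2 ((hC' τ).le a ha).1
    obtain ⟨e, he, k4⟩ := h2 _ ((hB τ hτ.1 hτ.2.le _ (WS_le_US hW)).1 k3)
    obtain ⟨j, hj⟩ := hgen _ (hBG k3) (hK _ _ hτ h0 ▸ hW)
    obtain ⟨i, rfl⟩ := hc.2 j e he (by convert sub_mem k4 hj using 1; abel)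
    refine ⟨i, ?_⟩
    convert AddSubgroup.add_mem _ (hD' hj) (le_pS hτ.2.le ha) using 1
    rw [mul_comm, mul_smul]
    abel) e he
  simpa using AddSubgroup.add_mem _ (hD' h3) h4

theorem IsButler.reg_reg (h : IsButler G) (hr : rank G ≤ 4) : reg (reg G) = reg G := by
  have hR := h.bd_reg
  have := h.fd
  have hU : ∀ Z, Z ≤ Submodule.span ℚ (G : Set V) → finrank ℚ Z ≤ 4 := fun Z hZ =>
    (Submodule.finrank_mono hZ).trans hr
  have hK : ∀ τ σ, Loose G τ → Loose G σ → WS G τ = WS G σ := fun τ σ hτ hσ => by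
    have := h.fdU τ
    have := h.fdU σ
    have := h.fdW τ
    have := h.fdW σ
    have k1 := h.ws_lt hτ.1
    have k2 := h.ws_lt hσ.1
    have k3 := hτ.2
    have k4 := hσ.2
    by_cases e1 : TLe τ σ <;> by_cases e2 : TLe σ τ
    · exact le_antisymm (WS_anti e2) (WS_anti e1)
    · have := Submodule.finrank_mono (US_le_WS (G := G) e1 e2)
      omega
    · have := Submodule.finrank_mono (US_le_WS (G := G) e2 e1)
      omega
    · have k5 := Submodule.finrank_sup_add_finrank_inf_eq (US G τ) (US G σ)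
      have k6 := hU (US G τ ⊔ US G σ) (sup_le US_le_span US_le_span)
      exact (Submodule.eq_of_le_of_finrank_le (inf_le_WS e2) (by omega)).symm.trans
        (Submodule.eq_of_le_of_finrank_le ((inf_comm _ _).le.trans (inf_le_WS e1)) (by omega))
  obtain ⟨Z, z1, z2, z3⟩ : ∃ Z : Submodule ℚ V,
      (∀ C, Ch G G C → TInv C → ∀ x ∈ Z, x ∈ ⨆ τ, C τ → x ∈ pS G C) ∧
      (∀ τ, ¬ US G τ ≤ WS G τ → finrank ℚ (WS G τ) ≤ 2 → US G τ ≤ Z) ∧
      ∀ C, Ch G (reg G) C → ∀ x ∈ reg G, ∃ c ∈ ⨆ τ, C τ, x - c ∈ Z := by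
    by_cases h0 : ∃ τ, ¬ US G τ ≤ WS G τ ∧ 2 < finrank ℚ (WS G τ)
    swap
    · push Not at h0
      exact ⟨⊤, fun C hC _ x _ hx => (iSup_le fun τ => (hC τ).le_of fun e =>
        le_pS (h0 τ e) : _ ≤ pS G C) hx, fun _ _ _ => le_top,
        fun C _ x _ => ⟨0, zero_mem _, trivial⟩⟩
    obtain ⟨τ₀, k1, k2⟩ := h0
    have k3 := h.ws_lt k1
    have k4 : US G τ₀ = Submodule.span ℚ (G : Set V) :=
      Submodule.eq_of_le_of_finrank_le US_le_span ((hU _ le_rfl).trans (by omega))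
    have k5 : ∀ τ, ¬ US G τ ≤ WS G τ → TLe τ₀ τ := fun τ e => by_contra fun hn =>
      e ((le_inf le_rfl (k4 ▸ US_le_span)).trans (inf_le_WS hn))
    have k6 : ∀ τ, ¬ US G τ ≤ WS G τ → finrank ℚ (WS G τ) ≤ 2 → US G τ ≤ WS G τ₀ := fun τ e e' =>
      US_le_WS (k5 τ e) fun hn => by
        rw [le_antisymm (WS_anti (k5 τ e)) (WS_anti hn)] at e'
        omega
    refine ⟨WS G τ₀, fun C hC hI x hx hs => ?_, k6, fun C hC x hx => ?_⟩
    · have k7 : ⨆ τ, C τ ≤ C τ₀ ⊔ pS G C := iSup_le fun τ => (hC τ).le_of fun e => by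
        by_cases e' : TLe τ τ₀
        · exact (hI _ _ e' (k5 τ e)).le.trans le_sup_left
        · have := h.fdW τ₀
          have k8 := Submodule.finrank_mono (US_le_WS (G := G) (k5 τ e) e')
          have k9 := h.ws_lt e
          have k10 := hU _ (US_le_span (τ := τ₀))
          exact (le_pS (by omega)).trans le_sup_right
      have k8 : pS G C ≤ (WS G τ₀).toAddSubgroup := iSup₂_le fun τ hτ => (hC τ).le_of
        fun e x hx => k6 τ e hτ ((hC τ).le x hx).2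
      obtain ⟨a, ha, b, hb, rfl⟩ := AddSubgroup.mem_sup.1 (k7 hs)
      rwa [(hC τ₀).dj a ha (by simpa using sub_mem hx (k8 hb)), zero_add]
    · obtain ⟨a, ha, hW⟩ := (hC τ₀).sp x hx (k4 ▸ Submodule.subset_span (hR.1 hx))
      exact ⟨a, le_iSup C τ₀ ha, hW⟩
  have z4 : ∀ x ∈ Z, (x ∈ reg G ↔ ∀ C, Ch G G C → TInv C → x ∈ pS G C) := fun x hx =>
    Bd.refl.mem_reg.trans (forall₃_congr fun C hC hI => ⟨z1 C hC hI x hx,
      fun h => bsup_le _ _ h⟩)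
  refine le_antisymm (fun x hx => ?_) fun x hx => hR.mem_reg.2 fun C hC _ => ?_
  · obtain ⟨C, hC, hI⟩ := h.ch hR
    exact hC.le (hR.mem_reg.1 hx C hC hI)
  · obtain ⟨a, ha, hZ⟩ := z3 C hC x hx
    have := h.key hK (fun τ e e' x hx => z4 x (z2 τ e e' hx)) hR.1 hC
      ((z4 _ hZ).1 (sub_mem hx (hC.le ha)))
    simpa using add_mem (bsup_le _ _ this) ha

end Pool.Agent.MP_9f65ab_al
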