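import Pool.Agent.MP_9f65ab_al.Four

/-! The regulator for systems of subspaces indexed by a finite poset without the forbidden
patterns. -/

set_option autoImplicit false
set_option linter.unusedSectionVars false

namespace Pool.Agent.MP_9f65ab_al

variable {V : Type} [AddCommGroup V] [Module ℚ V] {ι : Type} [PartialOrder ι]
  {G B : AddSubgroup V} {U W : ι → Submodule ℚ V} {J L : Set ι} {C C' : ι → AddSubgroup V}
  {x y : V} {i j : ι}

/-- Sums over a set of indices. -/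
def sm (J : Set ι) (C : ι → AddSubgroup V) : AddSubgroup V := ⨆ (j : ι) (_ : j ∈ J), C j

theorem le_sm (h : j ∈ J) : C j ≤ sm J C :=
  le_iSup₂_of_le (f := fun (j : ι) (_ : j ∈ J) => C j) j h le_rfl

theorem sm_le {A : AddSubgroup V} (h : ∀ j ∈ J, C j ≤ A) : sm J C ≤ A := iSup₂_le h

theorem sm_mono (h : L ⊆ J) : sm L C ≤ sm J C := sm_le fun _ hj => le_sm (h hj)

/-- The properties of the type subspaces. -/
structure Sys (G : AddSubgroup V) (U W : ι → Submodule ℚ V) : Prop where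
  up : ∀ {i j}, i < j → U j ≤ W i
  le : ∀ {i} {Z : Submodule ℚ V}, (∀ j, i < j → U j ≤ Z) → W i ≤ Z
  wu : ∀ i, W i ≤ U i
  inf : ∀ {i j}, ¬ j ≤ i → U i ⊓ U j ≤ W i
  cp : ∀ i (B : AddSubgroup V) (m : ℕ), B ≤ G → m ≠ 0 → (∀ x ∈ G, x ∈ U i → (m : ℚ) • x ∈ B) →
    ∃ C, Cp B (U i) (W i) C
  bd : ∀ i, ∃ m : ℕ, m ≠ 0 ∧ ∀ C : ι → AddSubgroup V, (∀ j, Cp G (U j) (W j) (C j)) →
    ∀ x ∈ G, x ∈ W i → (m : ℚ) • x ∈ sm {j | i < j} C

/-- The relative regulator. -/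
def RJ (G : AddSubgroup V) (U W : ι → Submodule ℚ V) (J : Set ι) : AddSubgroup V :=
  ⨅ (C : ι → AddSubgroup V) (_ : ∀ j, Cp G (U j) (W j) (C j)), sm J C

theorem mem_RJ : x ∈ RJ G U W J ↔
    ∀ C : ι → AddSubgroup V, (∀ j, Cp G (U j) (W j) (C j)) → x ∈ sm J C := by
  simp only [RJ, AddSubgroup.mem_iInf]

theorem RJ_mono (h : L ⊆ J) : RJ G U W L ≤ RJ G U W J := fun _ hx =>
  mem_RJ.2 fun C hC => sm_mono h (mem_RJ.1 hx C hC)

/-- The relative regulator is its own relative regulator. -/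
def Good (G : AddSubgroup V) (U W : ι → Submodule ℚ V) (J : Set ι) : Prop :=
  ∀ (B : AddSubgroup V) (C' : ι → AddSubgroup V), (∀ j ∈ J, ∀ x ∈ U j, x ∈ B ↔ x ∈ RJ G U W J) →
    (∀ j ∈ J, Cp B (U j) (W j) (C' j)) → RJ G U W J ≤ sm J C'

theorem Sys.anti (h : Sys G U W) (e : i ≤ j) : U j ≤ U i := by
  rcases e.eq_or_lt with rfl | e
  · exact le_rfl
  · exact (h.up e).trans (h.wu i)

theorem Sys.ch (h : Sys G U W) : ∃ C : ι → AddSubgroup V, ∀ j, Cp G (U j) (W j) (C j) := by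
  choose C hC using fun j => h.cp j G 1 le_rfl one_ne_zero fun x hx _ => by simpa using hx
  exact ⟨C, hC⟩

theorem Sys.RJ_le (h : Sys G U W) : RJ G U W J ≤ G := fun _ hx =>
  let ⟨C, hC⟩ := h.ch
  (sm_le fun j _ x hx => ((hC j).le x hx).1 : sm J C ≤ G) (mem_RJ.1 hx C hC)

/-- Incomparable. -/
def Inc (a b : ι) : Prop := ¬ a ≤ b ∧ ¬ b ≤ a

variable [Finite ι]

theorem exists_least {S : Set ι} (hS : S.Nonempty) (h : ∀ a ∈ S, ∀ b ∈ S, a ≤ b ∨ b ≤ a) :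
    ∃ a ∈ S, ∀ b ∈ S, a ≤ b := by
  obtain ⟨a, ha⟩ := (Set.toFinite S).exists_minimal hS
  exact ⟨a, ha.1, fun b hb => (h a ha.1 b hb).elim id (ha.2 hb)⟩

theorem Sys.stepA (h : Sys G U W) (hJ : IsUpperSet J) (hi : i ∈ J) (hmin : ∀ j ∈ J, j ≤ i → j = i)
    (hfree : ∀ a ∈ J, ∀ b ∈ J, Inc i a → Inc i b → a ≤ b ∨ b ≤ a) (ih : Good G U W (J \ {i})) :
    Good G U W J := by
  classical
  let Y : Submodule ℚ V := ⨆ (j : ι) (_ : j ∈ J \ {i}), U j
  have hY : ∀ j ∈ J \ {i}, U j ≤ Y := fun j hj =>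
    le_iSup₂_of_le (f := fun (j : ι) (_ : j ∈ J \ {i}) => U j) j hj le_rfl
  have hcase : ∀ j ∈ J \ {i}, i < j ∨ Inc i j := fun j hj => by
    by_cases e : i ≤ j
    · exact Or.inl (lt_of_le_of_ne e fun e' => hj.2 e'.symm)
    · exact Or.inr ⟨e, fun e' => hj.2 (hmin j hj.1 e')⟩
  have il : ∀ x ∈ U i, x ∈ Y → x ∈ W i := fun x hx hxY => by
    by_cases e : {a ∈ J | Inc i a}.Nonempty
    · obtain ⟨a, ha, hle⟩ := exists_least e fun a ha b hb => hfree a ha.1 b hb.1 ha.2 hb.2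
      have h1 : Y ≤ W i ⊔ U a := iSup₂_le fun j hj => (hcase j hj).elim
        (fun e => (h.up e).trans le_sup_left) fun e => (h.anti (hle j ⟨hj.1, e⟩)).trans le_sup_right
      obtain ⟨w, hw, u, hu, rfl⟩ := Submodule.mem_sup.1 (h1 hxY)
      exact add_mem hw (h.inf ha.2.2 ⟨by simpa using sub_mem hx (h.wu i hw), hu⟩)
    · exact (iSup₂_le fun j hj => (hcase j hj).elim h.up fun e' => absurd ⟨j, hj.1, e'⟩ e : Y ≤ W i) hxY
  have dec : ∀ C : ι → AddSubgroup V, (∀ j, Cp G (U j) (W j) (C j)) → ∀ x ∈ sm J C,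
      ∃ a ∈ C i, x - a ∈ sm (J \ {i}) C ∧ x - a ∈ Y := fun C hC x hx => by
    have h1 : sm J C ≤ C i ⊔ sm (J \ {i}) C := sm_le fun j hj => by
      by_cases e : j = i
      · exact e ▸ le_sup_left
      · exact (le_sm (show j ∈ J \ {i} from ⟨hj, e⟩)).trans le_sup_right
    obtain ⟨a, ha, b, hb, rfl⟩ := AddSubgroup.mem_sup.1 (h1 hx)
    exact ⟨a, ha, by simpa using hb, by
      simpa using (sm_le fun j hj x hx => hY j hj ((hC j).le x hx).2 : _ ≤ Y.toAddSubgroup) hb⟩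
  have a1 : ∀ x ∈ RJ G U W J, x ∈ Y → x ∈ RJ G U W (J \ {i}) := fun x hx hxY =>
    mem_RJ.2 fun C hC => by
      obtain ⟨a, ha, h1, h2⟩ := dec C hC x (mem_RJ.1 hx C hC)
      rwa [(hC i).dj a ha (il a ((hC i).le a ha).2 (by simpa using sub_mem hxY h2)), sub_zero] at h1
  intro B C' hB hC' x hx
  have ih' := ih B C' (fun j hj y hy => (hB j hj.1 y hy).trans
    ⟨fun e => a1 y e (hY j hj hy), fun e => RJ_mono Set.sdiff_subset e⟩) fun j hj => hC' j hj.1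
  obtain ⟨C, hC⟩ := h.ch
  obtain ⟨a, ha, -, h2⟩ := dec C hC x (mem_RJ.1 hx C hC)
  have haU := ((hC i).le a ha).2
  have h3 : a ∈ RJ G U W J := mem_RJ.2 fun D hD => by
    have hm : ∀ j, Cp G (U j) (W j) (Function.update D i (C i) j) := fun j => by
      by_cases e : j = i
      · rw [e, Function.update_self]; exact hC i
      · rw [Function.update_of_ne e]; exact hD j
    obtain ⟨b, hb, h4, h5⟩ := dec _ hm x (mem_RJ.1 hx _ hm)
    rw [Function.update_self] at hb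
    have h6 := sub_mem hb ha
    rw [sub_eq_zero.1 ((hC i).dj _ h6 (il _ ((hC i).le _ h6).2 (by simpa using sub_mem h2 h5)))] at h4
    have h7 : sm (J \ {i}) (Function.update D i (C i)) ≤ sm J D := sm_le fun j hj => by
      rw [Function.update_of_ne hj.2]; exact le_sm hj.1
    simpa using sub_mem (mem_RJ.1 hx D hD) (h7 h4)
  obtain ⟨c, hc, h4⟩ := (hC' i hi).sp a ((hB i hi a haU).2 h3) haU
  have h5 : W i ≤ Y := h.le fun j hj => hY j ⟨hJ hj.le hi, hj.ne'⟩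
  have h6 := ih' (a1 _ ((hB i hi _ (h.wu i h4)).1
    (sub_mem ((hB i hi a haU).2 h3) ((hC' i hi).le c hc).1)) (h5 h4))
  have h7 := ih' (a1 _ (sub_mem hx h3) h2)
  simpa using add_mem (add_mem (sm_mono Set.sdiff_subset h7) (sm_mono Set.sdiff_subset h6))
    (le_sm hi hc)

theorem Sys.stepB (h : Sys G U W) (hJ : IsUpperSet J) (hi : i ∈ J)
    (hcut : ∀ a ∈ J, ¬ i < a → ∀ b, i < b → a < b)
    (htight : ∀ a ∈ J, ∀ b c, ¬ i < b → ¬ i < c → a < b → a < c → b ≤ c ∨ c ≤ b)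
    (ih : Good G U W {j | i < j}) : Good G U W J := by
  classical
  have hN : {j | i < j} ⊆ J := fun j hj => hJ (le_of_lt hj) hi
  have hKW : ∀ a ∈ J, ¬ i < a → W i ≤ W a := fun a ha e => h.le fun j hj => h.up (hcut a ha e j hj)
  have chain : ∀ (B : AddSubgroup V) (C : ι → AddSubgroup V), (∀ j ∈ J, Cp B (U j) (W j) (C j)) →
      ∀ a ∈ J, ¬ i < a → ∀ x ∈ B, x ∈ U a → ∃ c ∈ sm J C, c ∈ B ∧ x - c ∈ W i := by
    intro B C hC a
    induction a using WellFoundedGT.induction with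
    | ind a ih =>
    intro ha e x hx hU
    obtain ⟨c, hc, hW⟩ := (hC a ha).sp x hx hU
    have hcB := ((hC a ha).le c hc).1
    by_cases e' : {b | a < b ∧ ¬ i < b}.Nonempty
    · obtain ⟨b, hb, hle⟩ := exists_least e' fun b hb c hc => htight a ha b c hb.2 hc.2 hb.1 hc.1
      have hbJ := hJ hb.1.le ha
      have h1 : W a ≤ U b := h.le fun j hj => h.anti (by
        by_cases e : i < j
        · exact (hcut b hbJ hb.2 j e).le
        · exact hle j ⟨hj, e⟩)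
      obtain ⟨d, hd, hdB, h2⟩ := ih b hb.1 hbJ hb.2 _ (sub_mem hx hcB) (h1 hW)
      exact ⟨c + d, add_mem (le_sm ha hc) hd, add_mem hcB hdB, by rwa [← sub_sub]⟩
    · exact ⟨c, le_sm ha hc, hcB,
        h.le (fun j hj => h.up (by_contra fun e => e' ⟨j, hj, e⟩)) hW⟩
  let M := G ⊓ (W i).toAddSubgroup
  let E := M ⊔ ⨆ (a : ι) (_ : a ∈ J ∧ ¬ i < a), G ⊓ (U a).toAddSubgroup
  have hE : ∀ a ∈ J, ¬ i < a → ∀ x ∈ G, x ∈ U a → x ∈ E := fun a ha e x hx hU =>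
    AddSubgroup.mem_sup_right (le_iSup₂_of_le
      (f := fun (a : ι) (_ : a ∈ J ∧ ¬ i < a) => G ⊓ (U a).toAddSubgroup) a ⟨ha, e⟩ le_rfl ⟨hx, hU⟩)
  have hEG : E ≤ G := sup_le inf_le_left (iSup₂_le fun _ _ => inf_le_left)
  obtain ⟨m, hm, hbd⟩ := h.bd i
  have key : ∀ C : ι → AddSubgroup V, (∀ j, Cp G (U j) (W j) (C j)) → ∀ y ∈ M,
      y ∉ sm {j | i < j} C → ∃ (n : ℕ) (D : AddSubgroup V), n ∣ m ∧ D ≤ M ∧ y ∉ D ∧
        (∀ z ∈ M, (n : ℤ) • z ∈ D) ∧ ∀ x ∈ RJ G U W J, ∃ e ∈ E, x - (n : ℤ) • e ∈ D := by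
    intro C hC y hy hn
    obtain ⟨ψ, hψ⟩ := CharacterModule.exists_character_apply_ne_zero_of_ne_zero
      (a := (y : V ⧸ sm {j | i < j} C)) fun e => hn ((QuotientAddGroup.eq_zero_iff _).1 e)
    let χ : V →+ AddCircle (1 : ℚ) := AddMonoidHom.comp ψ (QuotientAddGroup.mk' _)
    have h1 : ∀ z ∈ sm {j | i < j} C, χ z = 0 := fun z hz =>
      (congrArg ψ ((QuotientAddGroup.eq_zero_iff z).2 hz)).trans (map_zero ψ)
    have h2 : ∀ z ∈ M, (m : ℤ) • z ∈ M ⊓ χ.ker := fun z hz => ⟨zsmul_mem hz _, h1 _ (by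
      rw [natCast_zsmul, ← Nat.cast_smul_eq_nsmul ℚ]; exact hbd C hC z hz.1 hz.2)⟩
    obtain ⟨μ, hμ, hgen⟩ := cyc hm h2 fun a ha b hb => by
      obtain ⟨k, hk⟩ := torsion_circle hm (χ a) (by rw [← map_zsmul]; exact (h2 a ha).2)
      obtain ⟨l, hl⟩ := torsion_circle hm (χ b) (by rw [← map_zsmul]; exact (h2 b hb).2)
      obtain ⟨s, hs⟩ := Int.gcd_dvd_left k l
      obtain ⟨t, ht⟩ := Int.gcd_dvd_right k l
      have hg := add_mem (zsmul_mem ha (k.gcdA l)) (zsmul_mem hb (k.gcdB l))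
      have e : χ (k.gcdA l • a + k.gcdB l • b) =
          (k.gcd l : ℤ) • (((m : ℚ)⁻¹ : ℚ) : AddCircle (1 : ℚ)) := by
        rw [map_add, map_zsmul, map_zsmul, hk, hl, Int.gcd_eq_gcd_ab]
        module
      refine ⟨_, hg, s, t, ⟨M.sub_mem ha (M.zsmul_mem hg _), ?_⟩,
        M.sub_mem hb (M.zsmul_mem hg _), ?_⟩
      · change χ _ = 0
        rw [map_sub, map_zsmul, e, hk, smul_smul, mul_comm, ← hs, sub_self]
      · change χ _ = 0
        rw [map_sub, map_zsmul, e, hl, smul_smul, mul_comm, ← ht, sub_self]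
    have h3 := zsmul_mem_iff (M ⊓ χ.ker) μ
    set n := addOrderOf (μ : V ⧸ (M ⊓ χ.ker))
    have h4 : n ∣ m := by exact_mod_cast (h3 m).1 (h2 μ hμ)
    have n0 : n ≠ 0 := ne_zero_of_dvd_ne_zero hm h4
    have h5 : ∀ z ∈ M, (n : ℤ) • z ∈ M ⊓ χ.ker := fun z hz => by
      obtain ⟨k, hk⟩ := hgen z hz
      convert add_mem (zsmul_mem hk n) (zsmul_mem ((h3 n).2 dvd_rfl) k) using 1
      module
    refine ⟨n, M ⊓ χ.ker, h4, inf_le_left, fun e => hψ e.2, h5, fun x hx => by_contra fun hx' => ?_⟩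
    push Not at hx'
    obtain ⟨S, s1, s2, s3, s4, s5⟩ := exists_supp (E := E) (μ := μ) ⟨n0, fun k e he hk => by
      have h6 : (n : ℤ) • e ∈ W i := by
        simpa using (W i).sub_mem (zsmul_mem (show μ ∈ W i from hμ.2) k) hk.1.2
      rw [← Int.cast_smul_eq_zsmul ℚ, (W i).smul_mem_iff (by exact_mod_cast n0)] at h6
      exact (h3 k).1 (by simpa using add_mem hk (h5 e ⟨hEG he, h6⟩))⟩
      (AddSubgroup.mem_sup_left hμ) (inf_le_left.trans le_sup_left) hx'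
    have h6 : ∀ a, ∃ D, Cp G (U a) (W a) D ∧ (a ∈ J → D ≤ S) := fun a => by
      by_cases e : a ∈ J ∧ ¬ i < a
      · obtain ⟨D, hD⟩ := h.cp a S n (s2.trans hEG) n0 fun x hx hU => by
          rw [Nat.cast_smul_eq_nsmul, ← natCast_zsmul]; exact s4 x (hE a e.1 e.2 x hx hU)
        refine ⟨D, ⟨fun x hx => ⟨hEG (s2 (hD.le x hx).1), (hD.le x hx).2⟩, hD.dj,
          fun x hx hU => ?_⟩, fun _ x hx => (hD.le x hx).1⟩
        have e' : μ ∈ W a := hKW a e.1 e.2 hμ.2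
        obtain ⟨k, hk⟩ := s3 x (hE a e.1 e.2 x hx hU)
        obtain ⟨c, hc, hW⟩ := hD.sp _ hk (sub_mem hU (zsmul_mem (h.wu a e') k))
        exact ⟨c, hc, by convert add_mem hW (zsmul_mem e' k) using 1; abel⟩
      · refine ⟨C a, hC a, fun ha x hx => s1 ?_⟩
        have e' : i < a := by_contra fun e' => e ⟨ha, e'⟩
        exact ⟨⟨((hC a).le x hx).1, h.up e' ((hC a).le x hx).2⟩, h1 x (le_sm e' hx)⟩
    choose D hD hDS using h6
    exact s5 ((sm_le hDS : sm J D ≤ S) (mem_RJ.1 hx D hD))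
  have c1 : ∀ y ∈ RJ G U W J, y ∈ W i → y ∈ RJ G U W {j | i < j} := fun y hy hW =>
    mem_RJ.2 fun C hC => by_contra fun hn => by
      obtain ⟨n, D, h1, h2, h3, h4, h5⟩ := key C hC y ⟨h.RJ_le hy, hW⟩ hn
      obtain ⟨e, he, h6⟩ := h5 y hy
      have h7 : (n : ℤ) • e ∈ W i := by simpa using sub_mem hW (h2 h6).2
      rw [← Int.cast_smul_eq_zsmul ℚ,
        (W i).smul_mem_iff (by exact_mod_cast ne_zero_of_dvd_ne_zero hm h1)] at h7
      exact h3 (by simpa using add_mem h6 (h4 e ⟨hEG he, h7⟩))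
  intro B C' hB hC' x hx
  have ih' := ih B C' (fun j hj y hy => (hB j (hN hj) y hy).trans
    ⟨fun e => c1 y e (h.up hj hy), fun e => RJ_mono hN e⟩) fun j hj => hC' j (hN hj)
  let H := E ⊔ (W i).toAddSubgroup
  obtain ⟨c, hc, hmax⟩ := Set.Finite.exists_maximal (s := {n : ℕ | n ∣ m ∧ (n : ℚ)⁻¹ • x ∈ H})
    ((Set.finite_le_nat m).subset fun n hn => Nat.le_of_dvd (Nat.pos_of_ne_zero hm) hn.1)
    ⟨1, one_dvd m, by
      obtain ⟨C, hC⟩ := h.ch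
      simpa using (sm_le fun j hj y hy => by
        by_cases e : i < j
        · exact AddSubgroup.mem_sup_right (h.up e ((hC j).le y hy).2)
        · exact AddSubgroup.mem_sup_left (hE j hj e y ((hC j).le y hy).1 ((hC j).le y hy).2) :
          sm J C ≤ H) (mem_RJ.1 hx C hC)⟩
  have c0 : c ≠ 0 := ne_zero_of_dvd_ne_zero hm hc.1
  have hdiv : ∀ n : ℕ, n ∣ m → (n : ℚ)⁻¹ • x ∈ H → n ∣ c := fun n h1 h2 => by
    have n0 : n ≠ 0 := ne_zero_of_dvd_ne_zero hm h1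
    have g0 : 0 < n.gcd c := Nat.gcd_pos_of_pos_left _ (Nat.pos_of_ne_zero n0)
    obtain ⟨a, b, hab, ha, hb⟩ := Nat.exists_coprime n c
    have e : n.lcm c = a * b * n.gcd c := by
      refine Nat.eq_of_mul_eq_mul_left g0 ?_
      rw [Nat.gcd_mul_lcm]
      nth_rewrite 1 [ha]
      nth_rewrite 2 [hb]
      ring
    have a0 : (a : ℚ) ≠ 0 := fun e => n0 (by rw [ha, (by exact_mod_cast e : a = 0), zero_mul])
    have b0 : (b : ℚ) ≠ 0 := fun e => c0 (by rw [hb, (by exact_mod_cast e : b = 0), zero_mul])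
    have h3 : ((n.lcm c : ℕ) : ℚ)⁻¹ • x ∈ H := by
      generalize n.gcd c = g at ha hb e g0
      refine mem_of_coprime hab ?_ ?_
      · convert hc.2 using 1
        rw [smul_smul, e, hb]
        congr 1
        push_cast
        field_simp
      · convert h2 using 1
        rw [smul_smul, e, ha]
        congr 1
        push_cast
        field_simp
    have h4 := Nat.le_of_dvd (Nat.pos_of_ne_zero (Nat.lcm_ne_zero n0 c0)) (Nat.dvd_lcm_right n c)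
    exact le_antisymm (hmax ⟨Nat.lcm_dvd h1 hc.1, h3⟩ h4) h4 ▸ Nat.dvd_lcm_left n c
  have c2 : ∀ C : ι → AddSubgroup V, (∀ j, Cp G (U j) (W j) (C j)) → ∀ y ∈ M,
      (c : ℤ) • y ∈ sm {j | i < j} C := fun C hC y hy => by_contra fun hn => by
    obtain ⟨n, D, h1, h2, h3, h4, h5⟩ := key C hC _ (zsmul_mem hy c) hn
    obtain ⟨e, he, h6⟩ := h5 x hx
    have n0 : (n : ℚ) ≠ 0 := by exact_mod_cast ne_zero_of_dvd_ne_zero hm h1
    obtain ⟨d, hd⟩ := hdiv n h1 (AddSubgroup.mem_sup.2 ⟨e, he, _,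
      (W i).smul_mem (n : ℚ)⁻¹ (h2 h6).2, by
        rw [smul_sub, ← Int.cast_smul_eq_zsmul ℚ, smul_smul, Int.cast_natCast, inv_mul_cancel₀ n0]
        simp⟩)
    exact h3 (by rw [hd, Nat.cast_mul, mul_smul]; exact h4 _ (zsmul_mem hy _))
  have c3 : E ≤ ((sm J C' ⊓ RJ G U W J) ⊔ (W i).toAddSubgroup).comap (zsmulAddGroupHom (c : ℤ)) :=
    sup_le (fun z hz => AddSubgroup.mem_sup_right ((W i).toAddSubgroup.zsmul_mem hz.2 _)) (iSup₂_le fun a ha z hz => by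
      have h1 : (c : ℤ) • z ∈ RJ G U W J := mem_RJ.2 fun C hC => by
        obtain ⟨d, hd, hdG, h2⟩ := chain G C (fun j _ => hC j) a ha.1 ha.2 z hz.1 hz.2
        convert add_mem (zsmul_mem hd c) (sm_mono hN (c2 C hC _ ⟨G.sub_mem hz.1 hdG, h2⟩)) using 1
        module
      have h2 : (c : ℤ) • z ∈ U a := zsmul_mem (show z ∈ U a from hz.2) _
      obtain ⟨d, hd, hdB, h3⟩ := chain B C' hC' a ha.1 ha.2 _ ((hB a ha.1 _ h2).2 h1) h2
      exact AddSubgroup.mem_sup.2 ⟨d, ⟨hd, (hB a ha.1 d (by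
        simpa using sub_mem h2 (h.wu a (hKW a ha.1 ha.2 h3)))).1 hdB⟩, _, h3, by simp⟩)
  obtain ⟨e, he, k, hk, e1⟩ := AddSubgroup.mem_sup.1 hc.2
  obtain ⟨d, hd, l, hl, e2⟩ := AddSubgroup.mem_sup.1 (c3 he)
  have e3 : x - d = l + (c : ℚ) • k := by
    have e4 : d + l = (c : ℚ) • e := e2.trans (by simp [Nat.cast_smul_eq_nsmul])
    have e5 : (c : ℚ) • (e + k) = x := by
      rw [e1, smul_smul, mul_inv_cancel₀ (by exact_mod_cast c0), one_smul]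
    rw [← e5, smul_add, ← e4]
    abel
  simpa using add_mem (sm_mono hN (ih' (c1 _ (sub_mem hx hd.2)
    (e3 ▸ add_mem hl ((W i).smul_mem _ hk))))) hd.1

/-- The forbidden patterns do not occur. -/
def NP (ι : Type) [PartialOrder ι] : Prop := ∀ t s₁ s₂ r₁ r₂ : ι, t < s₁ → t < s₂ → Inc s₁ s₂ →
  Inc t r₁ → Inc t r₂ → Inc r₁ r₂ → r₁ ≤ s₁

theorem Sys.good (h : Sys G U W) (hP : NP ι) (J : Set ι) (hJ : IsUpperSet J) : Good G U W J := by
  induction J using WellFoundedLT.induction with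
  | ind J ih =>
  by_cases hA : ∃ i ∈ J, (∀ j ∈ J, j ≤ i → j = i) ∧
      ∀ a ∈ J, ∀ b ∈ J, Inc i a → Inc i b → a ≤ b ∨ b ≤ a
  · obtain ⟨i, hi, h1, h2⟩ := hA
    exact h.stepA hJ hi h1 h2 (ih _ (Set.sdiff_singleton_ssubset.2 hi) fun a b hab ha =>
      ⟨hJ hab ha.1, fun e => ha.2 (h1 a ha.1 (e ▸ hab))⟩)
  rcases J.eq_empty_or_nonempty with rfl | hne
  · intro B C' _ _ x hx
    obtain ⟨C, hC⟩ := h.ch
    exact (sm_le (by simp) : sm ∅ C ≤ _) (mem_RJ.1 hx C hC)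
  let N : Set ι := {n | ∃ l ∈ J, ∃ s₁ s₂, l < s₁ ∧ l < s₂ ∧ Inc s₁ s₂ ∧ s₁ ≤ n}
  have cut : ∀ a ∈ J, a ∉ N → ∀ n ∈ N, a < n := by
    rintro a ha haN n ⟨l, hl, s₁, s₂, h1, h2, h3, h4⟩
    obtain ⟨t, htl, ht⟩ := (Set.toFinite J).exists_le_minimal hl
    have k : ∀ u ∈ J, u < s₁ → u ≤ a → a < s₁ := fun u hu e e' => by
      rcases e'.eq_or_lt with rfl | e'
      · exact e
      · by_contra hn
        by_cases e'' : s₁ ≤ a
        · exact haN ⟨l, hl, s₁, s₂, h1, h2, h3, e''⟩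
        · exact haN ⟨u, hu, a, s₁, e', e, ⟨fun e3 => hn (lt_of_le_not_ge e3 e''), e''⟩, le_rfl⟩
    have t1 := htl.trans_lt h1
    have t2 := htl.trans_lt h2
    refine lt_of_lt_of_le ?_ h4
    by_cases e1 : t ≤ a
    · exact k t ht.1 t1 e1
    have e2 : Inc t a := ⟨e1, fun e => e1 (ht.2 ha e)⟩
    obtain ⟨r₁, hr₁, r₂, hr₂, i1, i2, i3⟩ : ∃ a ∈ J, ∃ b ∈ J, Inc t a ∧ Inc t b ∧ Inc a b := by
      by_contra hn
      refine hA ⟨t, ht.1, fun j hj e => le_antisymm e (ht.2 hj e), fun a ha b hb e e' => ?_⟩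
      by_contra hc
      exact hn ⟨a, ha, b, hb, e, e', not_or.1 hc⟩
    have lt : ∀ u, Inc t u → u ≤ s₁ → u < s₁ := fun u e e' =>
      lt_of_le_of_ne e' fun e'' => e.1 (e'' ▸ t1.le)
    have r1 := lt r₁ i1 (hP t s₁ s₂ r₁ r₂ t1 t2 h3 i1 i2 i3)
    by_cases e3 : r₁ ≤ a
    · exact k r₁ hr₁ r1 e3
    by_cases e4 : a ≤ r₁
    · exact e4.trans_lt r1
    exact lt a e2 (hP t s₁ s₂ a r₁ t1 t2 h3 e2 i1 ⟨e4, e3⟩)
  obtain ⟨i, hi, hmax⟩ := (Set.toFinite (J \ N)).exists_maximal (by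
    obtain ⟨t, ht⟩ := (Set.toFinite J).exists_minimal hne
    exact ⟨t, ht.1, fun ⟨l, hl, s₁, _, h1, _, _, h4⟩ =>
      absurd (ht.2 hl (h1.le.trans h4)) (not_le_of_gt (h1.trans_le h4))⟩)
  have hN : ∀ a, i < a ↔ a ∈ N := fun a => ⟨fun e => by_contra fun hn =>
    absurd (hmax ⟨hJ e.le hi.1, hn⟩ e.le) (not_le_of_gt e), cut i hi.1 hi.2 a⟩
  refine h.stepB hJ hi.1 (fun a ha e b hb => cut a ha (mt (hN a).2 e) b ((hN b).1 hb))
    (fun a ha b c hb hc e e' => by_contra fun hn =>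
      hb ((hN b).2 ⟨a, ha, b, c, e, e', not_or.1 hn, le_rfl⟩))
    (ih _ ⟨fun j hj => hJ (le_of_lt hj) hi.1, fun e => lt_irrefl i (e hi.1)⟩
      fun a b hab ha => lt_of_lt_of_le ha hab)

end Pool.Agent.MP_9f65ab_al
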