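import Pool.Agent.MP_9f65ab_al.Four

/-! Groups defined by local conditions at finitely many primes. -/

set_option autoImplicit false

namespace Pool.Agent.MP_9f65ab_al

/-- The localization of the integers at `p`. -/
def zl (p : Nat.Primes) : Subring ℚ where
  carrier := {q | ∃ n : ℕ, ¬ (p : ℕ) ∣ n ∧ ∃ z : ℤ, (n : ℚ) * q = z}
  zero_mem' := ⟨1, p.2.not_dvd_one, 0, by simp⟩
  one_mem' := ⟨1, p.2.not_dvd_one, 1, by simp⟩
  add_mem' := by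
    rintro a b ⟨m, hm, x, hx⟩ ⟨n, hn, y, hy⟩
    exact ⟨m * n, p.2.not_dvd_mul hm hn, n * x + m * y, by push_cast; rw [← hx, ← hy]; ring⟩
  mul_mem' := by
    rintro a b ⟨m, hm, x, hx⟩ ⟨n, hn, y, hy⟩
    exact ⟨m * n, p.2.not_dvd_mul hm hn, x * y, by push_cast; rw [← hx, ← hy]; ring⟩
  neg_mem' := by
    rintro a ⟨m, hm, x, hx⟩
    exact ⟨m, hm, -x, by push_cast; rw [← hx]; ring⟩

variable {p q : Nat.Primes} {t : ℚ}

theorem zl_inv {n : ℕ} (h : ¬ (p : ℕ) ∣ n) : (n : ℚ)⁻¹ ∈ zl p :=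
  ⟨n, h, 1, by
    have : n ≠ 0 := fun e => h (e ▸ dvd_zero _)
    rw [mul_inv_cancel₀ (by exact_mod_cast this), Int.cast_one]⟩

theorem zl_inv_pow (h : p ≠ q) (k : ℕ) : (((q : ℕ) : ℚ) ^ k)⁻¹ ∈ zl p := by
  rw [← Nat.cast_pow]
  exact zl_inv fun e => h (Subtype.ext
    ((Nat.prime_dvd_prime_iff_eq p.2 q.2).1 (p.2.dvd_of_dvd_pow e)))

theorem zl_cancel {d : ℤ} (h0 : d ≠ 0) (h : d.natAbs < p) (ht : (d : ℚ) * t ∈ zl p) : t ∈ zl p := by
  have h1 := mul_mem (mul_mem (zl_inv (Nat.not_dvd_of_pos_of_lt (Int.natAbs_pos.2 h0) h))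
    (intCast_mem (zl p) d.sign)) ht
  have h2 : (d.natAbs : ℚ) ≠ 0 := by exact_mod_cast Int.natAbs_ne_zero.2 h0
  convert h1 using 1
  rw [mul_assoc, ← mul_assoc _ (d : ℚ), ← Int.cast_mul, Int.sign_mul_self_eq_abs, ← Nat.cast_natAbs,
    inv_mul_cancel_left₀ h2]

theorem zl_eq_zero (h : ∀ k : ℕ, (((p : ℕ) : ℚ) ^ k)⁻¹ * t ∈ zl p) : t = 0 := by
  by_contra h0
  have hn : t.num.natAbs ≠ 0 := Int.natAbs_ne_zero.2 (Rat.num_ne_zero.2 h0)
  obtain ⟨n, h1, z, hz⟩ := h t.num.natAbs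
  have p0 : ((p : ℕ) : ℚ) ≠ 0 := by exact_mod_cast p.2.ne_zero
  have h2 : (n : ℤ) * t.num = (p : ℕ) ^ t.num.natAbs * (z * t.den) := by
    have : (n : ℚ) * t.num = (p : ℕ) ^ t.num.natAbs * (z * t.den) := by
      rw [← hz, ← Rat.den_mul_eq_num]; field_simp
    exact_mod_cast this
  have h3 : (p : ℕ) ^ t.num.natAbs ∣ n * t.num.natAbs := by
    have := Int.natAbs_dvd_natAbs.2 (Dvd.intro _ h2.symm)
    simpa [Int.natAbs_mul, Int.natAbs_pow] using this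
  have h4 := (((Nat.Prime.coprime_iff_not_dvd p.2).2 h1).pow_left _).dvd_of_dvd_mul_left h3
  exact absurd (Nat.le_of_dvd (Nat.pos_of_ne_zero hn) h4) (not_le.2 (Nat.lt_pow_self p.2.one_lt))

theorem away (t : ℚ) (q : Nat.Primes) :
    ∃ m : ℕ, ¬ (q : ℕ) ∣ m ∧ ∀ p : Nat.Primes, (p = q → t ∈ zl q) → (m : ℚ) * t ∈ zl p := by
  obtain ⟨k, m, hm, e⟩ := Nat.exists_eq_pow_mul_and_not_dvd t.den_nz q q.2.ne_one
  refine ⟨m, hm, fun p hp => ?_⟩
  by_cases h : p = q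
  · exact h ▸ mul_mem (natCast_mem _ m) (h ▸ hp h)
  · have q0 : ((q : ℕ) : ℚ) ≠ 0 := by exact_mod_cast q.2.ne_zero
    convert mul_mem (zl_inv_pow h k) (intCast_mem _ t.num) using 1
    rw [← Rat.den_mul_eq_num, e]
    push_cast
    field_simp

variable {V : Type} [AddCommGroup V] [Module ℚ V] {ι : Type} {π : ι → Nat.Primes}
  {f : ι → V →ₗ[ℚ] ℚ} {x : V} {τ : Chi}

/-- The localization of a group at `q`. -/
def loc (q : Nat.Primes) (A : AddSubgroup V) : AddSubgroup V where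
  carrier := {x | ∃ m : ℕ, ¬ (q : ℕ) ∣ m ∧ (m : ℚ) • x ∈ A}
  zero_mem' := ⟨1, q.2.not_dvd_one, by simp⟩
  add_mem' := by
    rintro a b ⟨m, hm, ha⟩ ⟨n, hn, hb⟩
    refine ⟨m * n, q.2.not_dvd_mul hm hn, ?_⟩
    convert A.add_mem (qsmul_mem ha n) (qsmul_mem hb m) using 1
    push_cast
    module
  neg_mem' := by
    rintro a ⟨m, hm, ha⟩
    exact ⟨m, hm, by rw [smul_neg]; exact A.neg_mem ha⟩

theorem le_loc {A : AddSubgroup V} (h : x ∈ A) : x ∈ loc q A := ⟨1, q.2.not_dvd_one, by simpa using h⟩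

theorem loc_of_mul {A : AddSubgroup V} {m : ℕ} (hm : ¬ (q : ℕ) ∣ m) (h : (m : ℚ) • x ∈ loc q A) :
    x ∈ loc q A :=
  let ⟨n, hn, h⟩ := h
  ⟨n * m, q.2.not_dvd_mul hn hm, by rwa [Nat.cast_mul, mul_smul]⟩

theorem loc_smul {A : AddSubgroup V} (ht : t ∈ zl q) (h : x ∈ loc q A) : t • x ∈ loc q A :=
  let ⟨_, hn, z, hz⟩ := ht
  loc_of_mul hn (by rw [smul_smul, hz]; exact zq_mem h z)

/-- The group defined by the conditions `f i v ∈ zl (π i)`. -/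
def SG (π : ι → Nat.Primes) (f : ι → V →ₗ[ℚ] ℚ) : AddSubgroup V :=
  ⨅ i, (zl (π i)).toAddSubgroup.comap (f i).toAddMonoidHom

theorem mem_SG : x ∈ SG π f ↔ ∀ i, f i x ∈ zl (π i) := AddSubgroup.mem_iInf

theorem SG_ht (hx : x ∈ SG π f) : ht (SG π f) x q = ⊤ ↔ ∀ i, π i = q → f i x = 0 := by
  rw [ht_top hx]
  refine ⟨fun h i e => zl_eq_zero (p := q) fun k => ?_, fun h k => mem_SG.2 fun i => ?_⟩
  · simpa [e] using mem_SG.1 (h k) i
  · rw [map_smul, smul_eq_mul]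
    by_cases e : π i = q
    · rw [h i e, mul_zero]; exact zero_mem _
    · exact mul_mem (zl_inv_pow e k) (mem_SG.1 hx i)

variable [Finite ι]

theorem SG_mul (x : V) : ∃ n : ℕ, n ≠ 0 ∧ (n : ℚ) • x ∈ SG π f := by
  obtain ⟨n, hn, h⟩ := exists_den fun i => f i x
  refine ⟨n, hn, mem_SG.2 fun i => ?_⟩
  obtain ⟨z, hz⟩ := h i
  rw [map_smul, smul_eq_mul, hz]
  exact intCast_mem _ z

theorem SG_butler (h : ∀ x, (∀ i, f i x = 0) → x = 0) : IsButler (SG π f) := by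
  refine ⟨ι, inferInstance, fun i => (zl (π i)).toAddSubgroup, LinearMap.pi f,
    fun x _ e => h x fun i => congrFun e i, fun x hx => mem_SG.1 hx, ?_⟩
  rintro y hy n hn ⟨x, -, e⟩
  have e' : LinearMap.pi f ((n : ℚ)⁻¹ • x) = y := by
    rw [map_smul, e, ← Nat.cast_smul_eq_nsmul ℚ, smul_smul,
      inv_mul_cancel₀ (by exact_mod_cast hn), one_smul]
  exact ⟨_, mem_SG.2 fun i => by rw [show f i _ = y i from congrFun e' i]; exact hy i, e'⟩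

theorem SG_US : x ∈ US (SG π f) τ ↔ ∀ i, τ (π i) = ⊤ → f i x = 0 := by
  obtain ⟨n, hn, h⟩ := SG_mul (π := π) (f := f) x
  have n0 : (n : ℚ) ≠ 0 := by exact_mod_cast hn
  rw [← (US _ τ).smul_mem_iff n0, mem_US h]
  refine ⟨fun h1 i e => by simpa [n0] using (SG_ht h).1 (h1.2 _ e) i rfl, fun h1 =>
    ⟨(Set.finite_range π).subset fun p hp => by_contra fun hp' => ?_, fun p e =>
      (SG_ht h).2 fun i e' => by simp [h1 i (e' ▸ e)]⟩⟩
  have : ht (SG π f) ((n : ℚ) • x) p < τ p := hp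
  rw [(SG_ht h).2 fun i e => absurd ⟨i, e⟩ hp'] at this
  exact not_top_lt this

theorem SG_WS_le {Z : Submodule ℚ V} (h : ∀ q, τ q ≠ ⊤ → ∀ x ∈ US (SG π f) τ,
    (∀ i, π i = q → f i x = 0) → x ∈ Z) : WS (SG π f) τ ≤ Z := WS_le fun σ e e' x hx => by
  by_cases h1 : ∃ q, σ q = ⊤ ∧ τ q ≠ ⊤
  · obtain ⟨q, h1, h2⟩ := h1
    exact h q h2 x (US_anti e hx) fun i e => SG_US.1 hx i (e ▸ h1)
  · push Not at h1
    obtain ⟨q, h2, h3⟩ := Set.Infinite.exists_notMem_finite (fun h => e' ⟨h, h1⟩) (Set.finite_range π)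
    exact h q (ne_top_of_lt h2) x (US_anti e hx) fun i e => absurd ⟨i, e⟩ h3

theorem SG_WS (hq : τ q ≠ ⊤) (hx : x ∈ US (SG π f) τ) (h : ∀ i, π i = q → f i x = 0) :
    x ∈ WS (SG π f) τ := by
  classical
  refine US_le_WS (σ := Function.update τ q ⊤) (TLe.of_le (le_update_self_iff.2 le_top))
    (fun e => hq (e.2 q (by simp))) (SG_US.2 fun i e => ?_)
  by_cases e' : π i = q
  · exact h i e'
  · exact SG_US.1 hx i (by rwa [Function.update_of_ne e'] at e)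

end Pool.Agent.MP_9f65ab_al
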