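import Pool.Agent.MP_9f65ab_al.Semi
import Pool.Agent.MP_9f65ab_al.Bridge

/-! Butler groups of rank six with five critical types whose regulator is not its own regulator. -/

set_option autoImplicit false

namespace Pool.Agent.MP_9f65ab_al.Six

open Classical

abbrev V6 : Type := Fin 6 → ℚ

/-- The primes. -/
def pv : Option (Fin 5) → ℕ
  | none => 2
  | some j => ![3, 5, 7, 11, 13] j

theorem pv_prime : ∀ a, (pv a).Prime := by decide +kernel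

def pp (a : Option (Fin 5)) : Nat.Primes := ⟨pv a, pv_prime a⟩

theorem pp_inj {a b : Option (Fin 5)} : pp a = pp b ↔ a = b :=
  ⟨fun h => (by decide : ∀ a b, pv a = pv b → a = b) a b (congrArg Subtype.val h), congrArg pp⟩

/-- A form with integer coefficients. -/
def fm (c : Fin 6 → ℤ) : V6 →ₗ[ℚ] ℚ where
  toFun v := ∑ l, (c l : ℚ) * v l
  map_add' v w := by simp [mul_add, Finset.sum_add_distrib]
  map_smul' t v := by simp [Finset.mul_sum, mul_left_comm]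

variable (a b c : Prop)

/-- The order on the five types. -/
def le5 : Fin 5 → Fin 5 → Prop :=
  ![![True, False, False, False, False], ![False, True, False, False, False],
    ![True, True, True, False, False], ![a, b, False, True, False], ![False, c, False, False, True]]

/-- The forms at the odd primes. -/
noncomputable def Fx : Fin 5 → Fin 5 → Fin 6 → ℤ :=
  ![![![1, 0, 0, 0, 0, 0], ![0, 1, 0, 0, 0, 0], ![0, 0, 0, 0, 1, 0], ![0, 0, 0, 0, 0, 1], 0],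
    ![![1, 0, 2, 0, 0, 0], ![0, 1, 0, 2, 0, 0], ![0, 0, 0, 0, 1, 0], ![0, 0, 0, 0, 0, 1], 0],
    ![![0, 0, 0, 0, 0, 1], 0, 0, 0, 0],
    ![![0, 0, 0, 0, 1, 0], if b then 0 else ![1, 0, 0, 0, 0, 0], if b then 0 else ![0, 1, 0, 0, 0, 0],
      if a then 0 else ![1, 0, 2, 0, 0, 0], if a then 0 else ![0, 1, 0, 2, 0, 0]],
    ![![0, 0, 0, 0, 1, -1], ![1, 0, 2, 0, 0, 0], ![0, 2, 0, 4, 1, 0],
      if c then 0 else ![0, 0, 1, 0, 0, 0], if c then 0 else ![0, 0, 0, 1, 0, 0]]]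

/-- The five subspaces. -/
def Uq (j : Fin 5) (v : V6) : Prop :=
  ![v 0 = 0 ∧ v 1 = 0 ∧ v 4 = 0 ∧ v 5 = 0,
    v 0 + 2 * v 2 = 0 ∧ v 1 + 2 * v 3 = 0 ∧ v 4 = 0 ∧ v 5 = 0, v 5 = 0,
    v 4 = 0 ∧ (¬ b → v 0 = 0 ∧ v 1 = 0) ∧ (¬ a → v 0 + 2 * v 2 = 0 ∧ v 1 + 2 * v 3 = 0),
    v 4 = v 5 ∧ v 0 + 2 * v 2 = 0 ∧ 2 * v 1 + 4 * v 3 + v 4 = 0 ∧ (¬ c → v 2 = 0 ∧ v 3 = 0)] j

def pi6 : Fin 6 ⊕ Fin 5 × Fin 5 → Nat.Primes
  | .inl _ => pp none
  | .inr x => pp (some x.1)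

noncomputable def f6 : Fin 6 ⊕ Fin 5 × Fin 5 → V6 →ₗ[ℚ] ℚ
  | .inl l => LinearMap.proj l
  | .inr x => fm (Fx a b c x.1 x.2)

/-- The group. -/
noncomputable def GG : AddSubgroup V6 := SG pi6 (f6 a b c)

variable {a b c} {v : V6} {τ σ : Chi} {j k : Fin 5}

theorem uq_iff : (∀ k, fm (Fx a b c j k) v = 0) ↔ Uq a b c j v := by
  fin_cases j <;> by_cases a <;> by_cases b <;> by_cases c <;>
    simp [Uq, Fx, fm, Fin.forall_fin_succ, Fin.sum_univ_six, sub_eq_zero, ← sub_eq_add_neg,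
      and_assoc, *]

theorem van (Q : Nat.Primes → Prop) : (∀ i, Q (pi6 i) → f6 a b c i v = 0) ↔
    (Q (pp none) → v = 0) ∧ ∀ j, Q (pp (some j)) → Uq a b c j v := by
  simp only [Sum.forall, Prod.forall, pi6, f6, ← uq_iff, funext_iff]
  exact and_congr forall_comm (forall_congr' fun _ => forall_comm)

theorem butler : IsButler (GG a b c) := SG_butler fun _ h => funext fun l => h (.inl l)

theorem two_mem (h : v ∈ GG a b c) (l : Fin 6) : v l ∈ zl (pp none) := mem_SG.1 h (.inl l)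

theorem mem_of (h : ∀ p l, v l ∈ zl p) : v ∈ GG a b c := mem_SG.2 fun i => by
  rcases i with l | x
  · exact h _ l
  · exact (sum_mem fun l _ => mul_mem (intCast_mem _ _) (h _ l) :
      ∑ l, ((Fx a b c x.1 x.2 l : ℤ) : ℚ) * v l ∈ _)

theorem mem_U : v ∈ US (GG a b c) τ ↔
    (τ (pp none) = ⊤ → v = 0) ∧ ∀ j, τ (pp (some j)) = ⊤ → Uq a b c j v :=
  SG_US.trans (van fun p => τ p = ⊤)

theorem mem_W (h : τ (pp (some j)) ≠ ⊤) (hv : v ∈ US (GG a b c) τ) (h' : Uq a b c j v) :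
    v ∈ WS (GG a b c) τ :=
  SG_WS h hv ((van fun p => p = pp (some j)).2 (by simpa [pp_inj] using h'))

theorem mono (h : le5 a b c j k) (h' : Uq a b c k v) : Uq a b c j v := by
  fin_cases j <;> fin_cases k <;> simp [le5, Uq] at h h' ⊢ <;> grind

theorem meet (h : ¬ le5 a b c j k) (h1 : Uq a b c k v) (h2 : Uq a b c j v) :
    v 4 = 0 ∧ v 5 = 0 ∧ (k = 0 ∨ k = 1 → v = 0) := by
  fin_cases j <;> fin_cases k <;>
    simp [le5, Uq, funext_iff, Fin.forall_fin_succ] at h h1 h2 ⊢ <;> grind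

theorem both (h : v 4 = 0 ∧ v 5 = 0) (h0 : ¬ Uq a b c 0 v) (h1 : ¬ Uq a b c 1 v)
    (h2 : Uq a b c j v) : le5 a b c j 0 ∧ le5 a b c j 1 := by
  fin_cases j <;> simp [le5, Uq] at h0 h1 h2 ⊢ <;> grind

theorem dec (h : v 4 = 0 ∧ v 5 = 0) : ∃ y, Uq a b c 0 y ∧ Uq a b c 1 (v - y) :=
  ⟨![0, 0, v 2 + v 0 / 2, v 3 + v 1 / 2, 0, 0], by simp [Uq], by
    simp [Uq, h]; constructor <;> ring⟩

theorem K_le (h2 : τ (pp none) ≠ ⊤) (h : ∀ j, τ (pp (some j)) = ⊤ →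
    (le5 a b c j 0 ∧ le5 a b c j 1)) (hv : v 4 = 0 ∧ v 5 = 0) : v ∈ WS (GG a b c) τ := by
  obtain ⟨y, h0, h1⟩ := dec (a := a) (b := b) (c := c) hv
  simpa using add_mem
    (mem_W (fun e => (h 0 e).2) (mem_U.2 ⟨fun e => absurd e h2, fun j e => mono (h j e).1 h0⟩) h0)
    (mem_W (fun e => (h 1 e).1) (mem_U.2 ⟨fun e => absurd e h2, fun j e => mono (h j e).2 h1⟩) h1)

theorem crit (h : ¬ US (GG a b c) τ ≤ WS (GG a b c) τ) :
    τ (pp none) ≠ ⊤ ∧ ∃ k, ∀ j, τ (pp (some j)) = ⊤ ↔ le5 a b c j k := by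
  obtain ⟨v, hv, hW⟩ := SetLike.not_le_iff_exists.1 h
  have v0 : v ≠ 0 := fun e => hW (e ▸ zero_mem _)
  have h2 : τ (pp none) ≠ ⊤ := fun e => v0 ((mem_U.1 hv).1 e)
  have h3 : ∀ j, τ (pp (some j)) = ⊤ ↔ Uq a b c j v := fun j =>
    ⟨(mem_U.1 hv).2 j, fun e => by_contra fun e' => hW (mem_W e' hv e)⟩
  simp only [h3]
  refine ⟨h2, ?_⟩
  by_cases e : ∃ k, (k = 0 ∨ k = 1) ∧ Uq a b c k v
  · obtain ⟨k, hk, e⟩ := e
    exact ⟨k, fun j => ⟨fun e' => by_contra fun n => v0 ((meet n e e').2.2 hk), fun e' => mono e' e⟩⟩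
  have hK : ¬ (v 4 = 0 ∧ v 5 = 0) := fun hK => hW (K_le h2 (fun j hj =>
    both hK (fun n => e ⟨0, .inl rfl, n⟩) (fun n => e ⟨1, .inr rfl, n⟩) ((h3 j).1 hj)) hK)
  by_cases e' : ∃ k, Uq a b c k v
  · obtain ⟨k, e'⟩ := e'
    exact ⟨k, fun j => ⟨fun e'' => by_contra fun n => hK ⟨(meet n e' e'').1, (meet n e' e'').2.1⟩,
      fun e'' => mono e'' e'⟩⟩
  have h4 : ∀ j y, Uq a b c j y → y ∈ WS (GG a b c) τ := fun j y hy =>
    mem_W (fun n => e' ⟨j, (h3 j).1 n⟩)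
      (mem_U.2 ⟨fun e => absurd e h2, fun j n => absurd ⟨j, (h3 j).1 n⟩ e'⟩) hy
  have h5 := add_mem (h4 2 (v - Pi.single 5 (v 5)) (by simp [Uq]))
    (h4 3 (Pi.single 5 (v 5)) (by simp [Uq]))
  exact absurd (by simpa using h5) hW

theorem tle_iff (h : ¬ US (GG a b c) σ ≤ WS (GG a b c) σ) (h' : ¬ US (GG a b c) τ ≤ WS (GG a b c) τ) :
    TLe σ τ ↔ ∀ j, σ (pp (some j)) = ⊤ → τ (pp (some j)) = ⊤ := by
  have h1 : ∀ q, (∀ x, pp x ≠ q) → τ q = ⊤ := fun q hq => by_contra fun n =>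
    h' fun v hv => SG_WS n hv ((van fun p => p = q).2 (by simp [hq]))
  refine ⟨fun e j => e.2 _, fun e => ⟨(Set.finite_range pp).subset fun q hq => by_contra fun n => ?_,
    fun q hq => by_contra fun n => ?_⟩⟩
  · have : τ q < σ q := hq
    rw [h1 q fun x e => n ⟨x, e⟩] at this
    exact not_top_lt this
  · refine n (h1 q ?_)
    rintro (_ | j) rfl
    exacts [(crit h).1 hq, n (e j hq)]

/-- The upper bounds. -/
theorem upper {B : AddSubgroup V6} (hB : Bd (GG a b c) B) (α β δ : ℤ) (φ : V6 →ₗ[ℚ] ℚ)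
    (hφ : ∀ v, φ v = α * v 0 + β * v 1 + (δ + β / 2) * v 4) (h1 : ∀ v ∈ B, φ v ∈ zl (pp none))
    {μ : V6} (h2 : μ ∈ B) (h3 : μ 4 = 0 ∧ μ 5 = 0) (h4 : φ μ = 1) (hv : v ∈ reg B) :
    2⁻¹ * φ v ∈ zl (pp none) := by
  let B' := B ⊓ (zl (pp none)).toAddSubgroup.comap ((2 : ℚ)⁻¹ • φ).toAddMonoidHom
  have hm : ∀ x, x ∈ B' ↔ x ∈ B ∧ 2⁻¹ * φ x ∈ zl (pp none) := fun x => Iff.rfl
  refine (butler.reg_le_of (B' := B') (μ := μ) hB ⟨inf_le_left.trans hB.1, ?_⟩ inf_le_left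
    (fun x hx => ?_) (fun τ hτ => ?_) hv).2
  · obtain ⟨m, m0, h⟩ := hB.2
    refine ⟨2 * m, by omega, fun x hx => ?_⟩
    rw [Nat.cast_mul, mul_smul]
    exact (hm _).2 ⟨qsmul_mem (h x hx) 2, by simpa using h1 _ (h x hx)⟩
  · obtain ⟨n, hn, z, hz⟩ := h1 x hx
    obtain ⟨i, rfl⟩ : ∃ i, n = 2 * i + 1 := ⟨n / 2, by change ¬ 2 ∣ n at hn; omega⟩
    refine ⟨z, (hm _).2 ⟨sub_mem hx (zsmul_mem h2 z), ?_⟩⟩
    convert neg_mem (mul_mem (natCast_mem _ i) (h1 x hx)) using 1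
    rw [map_sub, map_zsmul, h4, zsmul_eq_mul, ← hz]
    push_cast
    ring
  obtain ⟨t2, k, hk⟩ := crit hτ
  by_cases e : ∀ j, le5 a b c j k → le5 a b c j 0 ∧ le5 a b c j 1
  · exact .inl (K_le t2 (fun j hj => e j ((hk j).1 hj)) h3)
  refine .inr fun x hx hU => (hm x).2 ⟨hx, ?_⟩
  have h5 : Uq a b c k x := (mem_U.1 hU).2 k ((hk k).2 (by fin_cases k <;> trivial))
  have h6 := two_mem (hB.1 hx)
  have h7 : ∀ i j k : ℤ, i * x 1 + j * x 2 + k * x 3 ∈ zl (pp none) := fun i j k =>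
    add_mem (add_mem (mul_mem (intCast_mem _ _) (h6 _)) (mul_mem (intCast_mem _ _) (h6 _)))
      (mul_mem (intCast_mem _ _) (h6 _))
  have h8 : (x 0 = 0 ∧ x 1 = 0 ∧ x 4 = 0) ∨ (x 0 + 2 * x 2 = 0 ∧ x 1 + 2 * x 3 = 0 ∧ x 4 = 0) ∨
      (x 0 + 2 * x 2 = 0 ∧ 2 * x 1 + 4 * x 3 + x 4 = 0) := by
    fin_cases k <;> simp [le5, Uq, Fin.forall_fin_succ] at e h5 <;> tauto
  rw [hφ]
  rcases h8 with h | h | h
  · simp [h]
  · convert h7 0 (-α) (-β) using 1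
    push_cast
    linear_combination α / 2 * h.1 + β / 2 * h.2.1 + (δ + β / 2) / 2 * h.2.2
  · convert h7 (-δ) (-α) (-β - 2 * δ) using 1
    push_cast
    linear_combination α / 2 * h.1 + (δ + β / 2) / 2 * h.2

/-- The five types. -/
noncomputable def tp (a b c : Prop) (k : Fin 5) : Chi :=
  fun p => if p = pp none ∨ ∃ j, pp (some j) = p ∧ ¬ le5 a b c j k then 0 else ⊤

theorem step {C : Chi → AddSubgroup V6} (hC : Ch (GG a b c) (GG a b c) C) (hv : v ∈ GG a b c)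
    (h : Uq a b c k v) : ∃ y ∈ GG a b c, v - y ∈ ⨆ τ, C τ ∧ Uq a b c k y ∧
      y 4 = 0 ∧ y 5 = 0 ∧ (k = 0 ∨ k = 1 → y = 0) := by
  have h1 : ∀ y, y ∈ US (GG a b c) (tp a b c k) ↔ Uq a b c k y := fun y =>
    mem_U.trans ⟨fun e => e.2 k (by fin_cases k <;> simp [tp, pp_inj, le5]),
      fun e => ⟨by simp [tp], fun j hj => mono (by simpa [tp, pp_inj] using hj) e⟩⟩
  obtain ⟨d, hd, hW⟩ := (hC _).sp v hv ((h1 v).2 h)
  let Z : Submodule ℚ V6 := LinearMap.ker (LinearMap.proj 4) ⊓ (LinearMap.ker (LinearMap.proj 5) ⊓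
    ⨅ _ : k = 0 ∨ k = 1, ⊥)
  have h2 : ∀ y, y ∈ Z ↔ y 4 = 0 ∧ y 5 = 0 ∧ (k = 0 ∨ k = 1 → y = 0) := fun y => by simp [Z]
  refine ⟨v - d, sub_mem hv ((hC _).le d hd).1, by simpa using le_iSup C _ hd,
    (h1 _).1 (WS_le_US hW), (h2 _).1 (SG_WS_le (fun q hq y hy e => ?_) hW)⟩
  have h3 := (van fun p => p = q).1 e
  rcases (by_contra fun n => hq (if_neg n) :
    q = pp none ∨ ∃ j, pp (some j) = q ∧ ¬ le5 a b c j k) with e' | ⟨j, e', n⟩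
  · exact h3.1 e'.symm ▸ Z.zero_mem
  · exact (h2 y).2 (meet n ((h1 y).1 hy) (h3.2 j e'))

theorem lower : Pi.single 1 1 ∈ reg (GG a b c) := Bd.refl.mem_reg.2 fun C hC _ => by
  have h1 : ∀ k, k = 0 ∨ k = 1 → ∀ v ∈ GG a b c, Uq a b c k v → v ∈ ⨆ τ, C τ := fun k hk v hv h => by
    obtain ⟨y, -, h1, -, -, -, h2⟩ := step hC hv h
    simpa [h2 hk] using h1
  have h2 : ∀ z : Fin 6 → ℤ, (fun l => (z l : ℚ)) ∈ GG a b c := fun z =>
    mem_of fun p l => intCast_mem _ _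
  have h3 : ∀ v : V6, (∀ l, v l ∈ zl (pp none)) → v ∈ loc (pp none) (GG a b c) := fun v hv => by
    rw [pi_eq_sum_univ' v]
    exact sum_mem fun l _ => loc_smul (hv l) (le_loc (mem_of fun p i => by
      by_cases e : i = l <;> simp [e]))
  have h4 : ∀ k, k = 0 ∨ k = 1 → ∀ v : V6, (∀ l, v l ∈ zl (pp none)) → Uq a b c k v →
      v ∈ loc (pp none) (⨆ τ, C τ) := fun k hk v hv h => by
    obtain ⟨m, hm, h5⟩ := h3 v hv
    refine ⟨m, hm, h1 k hk _ h5 (uq_iff.1 fun i => ?_)⟩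
    rw [map_smul, uq_iff.2 h i, smul_zero]
  have h5 : ∀ y ∈ GG a b c, y 4 = 0 → y 5 = 0 → (2 : ℚ) • y ∈ loc (pp none) (⨆ τ, C τ) :=
    fun y hy e e' => by
      have k := two_mem hy
      convert add_mem (h4 0 (.inl rfl) ![0, 0, 2 * y 2 + y 0, 2 * y 3 + y 1, 0, 0]
        (by simp [Fin.forall_fin_succ, add_mem, mul_mem, k]) (by simp [Uq]))
        (h4 1 (.inr rfl) ![2 * y 0, 2 * y 1, -y 0, -y 1, 0, 0]
          (by simp [Fin.forall_fin_succ, mul_mem, k]) (by simp [Uq])) using 1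
      simp [funext_iff, Fin.forall_fin_succ, e, e']
  obtain ⟨x, x1, x2, -, x3, x4, -⟩ := step (k := 2) hC (h2 ![0, 0, 0, 0, 1, 0]) (by simp [Uq])
  obtain ⟨y, y1, y2, -, y3, y4, -⟩ := step (k := 3) hC (h2 ![0, 0, 0, 0, 0, 1]) (by simp [Uq])
  obtain ⟨z, z1, z2, z3, z4, z5, -⟩ := step (k := 4) hC (h2 ![0, -1, 0, 0, 2, 2]) (by simp [Uq])
  have z6 := h1 1 (.inr rfl) z z1 ⟨z3.2.1, by linarith [z3.2.2.1], z4, z5⟩
  obtain ⟨m, hm, h6⟩ : Pi.single 1 1 ∈ loc (pp none) (⨆ τ, C τ) := by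
    convert add_mem (add_mem (h5 x x1 x3 x4) (h5 y y1 y3 y4)) (le_loc (sub_mem
      (add_mem (qsmul_mem x2 2) (qsmul_mem y2 2)) (add_mem z2 z6))) using 1
    funext l
    fin_cases l <;> simp <;> ring
  refine mem_of_coprime ((Nat.Prime.coprime_iff_not_dvd Nat.prime_two).2 hm) ?_ h6
  convert add_mem (h1 0 (.inl rfl) _ (h2 ![0, 0, 0, 1, 0, 0]) (by simp [Uq]))
    (h1 1 (.inr rfl) _ (h2 ![0, 2, 0, -1, 0, 0]) (by simp [Uq])) using 1
  simp [funext_iff, Fin.forall_fin_succ]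

theorem reg_ne : reg (reg (GG a b c)) ≠ reg (GG a b c) := fun e => by
  have hR := (butler (a := a) (b := b) (c := c)).bd_reg
  have h0 : Pi.single 0 1 ∈ GG a b c := mem_of fun p i => by
    by_cases e : i = 0 <;> simp [e]
  have h := upper hR 0 1 0 ((2 : ℚ)⁻¹ • fm ![0, 2, 0, 0, 1, 0])
    (by simp [fm, Fin.sum_univ_six, mul_add]) (fun v hv => by
      have k := two_mem (hR.1 hv)
      have h1 := upper Bd.refl 1 0 0 (fm ![1, 0, 0, 0, 0, 0]) (by simp [fm, Fin.sum_univ_six])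
        (fun v hv => by simpa [fm, Fin.sum_univ_six] using two_mem hv 0) h0 (by simp)
        (by simp [fm, Fin.sum_univ_six]) hv
      have h2 := upper Bd.refl 1 0 1 (fm ![1, 0, 0, 0, 1, 0]) (by simp [fm, Fin.sum_univ_six])
        (fun v hv => by simpa [fm, Fin.sum_univ_six] using add_mem (two_mem hv 0) (two_mem hv 4))
        h0 (by simp) (by simp [fm, Fin.sum_univ_six]) hv
      simpa [fm, Fin.sum_univ_six, mul_add, add_assoc] using add_mem (k 1) (sub_mem h2 h1))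
    lower (by simp) (by simp [fm, Fin.sum_univ_six]) (e.ge lower)
  obtain ⟨n, hn, z, hz⟩ := h
  refine hn (Int.natCast_dvd_natCast.1 ⟨z, ?_⟩)
  have : (n : ℚ) = 2 * z := by rw [← hz]; simp [fm, Fin.sum_univ_six]; ring
  exact_mod_cast this

theorem exists_group {P : Type} [PartialOrder P] (h : ¬ NP P) :
    ∃ (G : AddSubgroup V6) (e : Chi → P), IsButler G ∧ reg (reg G) ≠ reg G ∧
      ∀ σ τ, ¬ US G σ ≤ WS G σ → ¬ US G τ ≤ WS G τ → (TLe σ τ ↔ e σ ≤ e τ) := by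
  simp only [NP, not_forall] at h
  obtain ⟨t, s₁, s₂, r₂, r₁, h1, h2, h3, h4, h5, h6, h7⟩ := h
  let g : Fin 5 → P := ![s₁, s₂, t, r₁, r₂]
  have hg : ∀ j k, le5 (r₁ ≤ s₁) (r₁ ≤ s₂) (r₂ ≤ s₂) j k ↔ g j ≤ g k := fun j k => by
    have k1 : ¬ s₁ ≤ r₂ := fun e => h4.1 (h1.le.trans e)
    have k2 : ¬ s₂ ≤ r₂ := fun e => h4.1 (h2.le.trans e)
    have k3 : ¬ s₁ ≤ r₁ := fun e => h5.1 (h1.le.trans e)
    have k4 : ¬ s₂ ≤ r₁ := fun e => h5.1 (h2.le.trans e)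
    fin_cases j <;> fin_cases k <;> simp [le5, g, h1.le, h2.le, h1.not_ge, h2.not_ge, h3.1, h3.2,
      h4.1, h4.2, h5.1, h5.2, h6.1, h6.2, h7, k1, k2, k3, k4]
  let G := GG (r₁ ≤ s₁) (r₁ ≤ s₂) (r₂ ≤ s₂)
  have k : ∀ τ : Chi, ∃ k, ¬ US G τ ≤ WS G τ → ∀ j, τ (pp (some j)) = ⊤ ↔ g j ≤ g k := fun τ => by
    by_cases e : US G τ ≤ WS G τ
    · exact ⟨0, fun n => absurd e n⟩
    · exact (crit e).2.imp fun k hk _ j => (hk j).trans (hg j k)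
  choose k hk using k
  refine ⟨G, fun τ => g (k τ), butler, reg_ne, fun σ τ e e' => (tle_iff e e').trans ?_⟩
  simp only [hk σ e, hk τ e']
  exact ⟨fun h => h _ le_rfl, fun h _ h' => h'.trans h⟩

end Pool.Agent.MP_9f65ab_al.Six
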