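import Pool.Agent.MP_9f65ab_al.Basic

/-! Generation by rank-one groups up to bounded index, and the existence of complements. -/

set_option autoImplicit false

namespace Pool.Agent.MP_9f65ab_al

variable {V : Type} [AddCommGroup V] [Module ℚ V] {G : AddSubgroup V} {τ : Chi}

/-- The pure rank-one subgroup through `c`. -/
def ln (G : AddSubgroup V) (c : V) : AddSubgroup V := G ⊓ (ℚ ∙ c).toAddSubgroup

theorem mem_ln {c x : V} : x ∈ ln G c ↔ x ∈ G ∧ ∃ q : ℚ, q • c = x :=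
  and_congr_right fun _ => Submodule.mem_span_singleton

/-- `G ∩ Z` is a finite sum of rank-one groups up to bounded index. -/
def Gen (G : AddSubgroup V) (Z : Submodule ℚ V) : Prop :=
  ∃ (s : Finset V) (m : ℕ), m ≠ 0 ∧ (∀ c ∈ s, c ∈ G ∧ c ∈ Z ∧ c ≠ 0) ∧
    ∀ x ∈ G, x ∈ Z → (m : ℚ) • x ∈ ⨆ c ∈ s, ln G c

theorem exists_min {ι : Type} (r : ι → ι → Prop) (tot : ∀ a b, r a b ∨ r b a)
    (tr : ∀ a b c, r a b → r b c → r a c) (s : Finset ι) (hs : s.Nonempty) :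
    ∃ i ∈ s, ∀ j ∈ s, r i j := by
  induction hs using Finset.Nonempty.cons_induction with
  | singleton a => exact ⟨a, by simp, by simpa using (tot a a).elim id id⟩
  | cons a s ha hs ih =>
    obtain ⟨i, hi, h⟩ := ih
    rcases tot a i with e | e
    · exact ⟨a, by simp, (Finset.forall_mem_cons _ _).2 ⟨(tot a a).elim id id, fun j hj => tr _ _ _ e (h j hj)⟩⟩
    · exact ⟨i, by simp [hi], (Finset.forall_mem_cons _ _).2 ⟨e, h⟩⟩

/-- Inclusion after localization at `p`. -/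
def LocLe (p : ℕ) (A A' : AddSubgroup ℚ) : Prop := ∀ a ∈ A, ∃ n : ℕ, ¬ p ∣ n ∧ (n : ℚ) • a ∈ A'

theorem locLe_total {p : ℕ} (hp : p.Prime) (A A' : AddSubgroup ℚ) : LocLe p A A' ∨ LocLe p A' A := by
  by_contra h
  simp only [LocLe, not_or, not_forall, not_exists, not_and] at h
  obtain ⟨⟨a, ha, h1⟩, a', ha', h2⟩ := h
  have a0 : a ≠ 0 := fun e => h1 1 hp.not_dvd_one (by simp [e])
  have e : ((a' / a).den : ℚ) • a' = ((a' / a).num : ℚ) • a := by
    rw [smul_eq_mul, smul_eq_mul, ← Rat.den_mul_eq_num]; field_simp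
  by_cases hd : p ∣ (a' / a).den
  · refine h1 (a' / a).num.natAbs
      (fun h' => hp.one_lt.ne' (Nat.eq_one_of_dvd_coprimes (a' / a).reduced h' hd)) ?_
    rw [Nat.cast_natAbs, ← Int.sign_mul_self_eq_abs, Int.cast_mul, mul_smul, ← e]
    exact zq_mem (qsmul_mem ha' _) _
  · exact h2 _ hd (e ▸ zq_mem ha _)

theorem locLe_trans {p : ℕ} (hp : p.Prime) {A A' A'' : AddSubgroup ℚ} (h : LocLe p A A')
    (h' : LocLe p A' A'') : LocLe p A A'' := fun a ha => by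
  obtain ⟨n, hn, h1⟩ := h a ha
  obtain ⟨n', hn', h2⟩ := h' _ h1
  exact ⟨n' * n, hp.not_dvd_mul hn' hn, by rwa [Nat.cast_mul, mul_smul]⟩

theorem exists_den {ι : Type} [Finite ι] (a : ι → ℚ) :
    ∃ m : ℕ, m ≠ 0 ∧ ∀ i, ∃ z : ℤ, (m : ℚ) * a i = z := by
  classical
  have := Fintype.ofFinite ι
  refine ⟨∏ i, (a i).den, Finset.prod_ne_zero_iff.2 fun i _ => (a i).den_nz, fun i => ?_⟩
  obtain ⟨d, hd⟩ := Finset.dvd_prod_of_mem (fun i => (a i).den) (Finset.mem_univ i)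
  exact ⟨d * (a i).num, by rw [hd]; push_cast; rw [← Rat.den_mul_eq_num]; ring⟩

theorem exists_common {ι : Type} (s : Finset ι) (P : ι → ℕ → Prop)
    (mono : ∀ i m n, n ≠ 0 → P i m → P i (n * m)) (h : ∀ i ∈ s, ∃ m, m ≠ 0 ∧ P i m) :
    ∃ m, m ≠ 0 ∧ ∀ i ∈ s, P i m := by
  classical
  induction s using Finset.induction_on with
  | empty => exact ⟨1, one_ne_zero, by simp⟩
  | insert a s _ ih =>
    obtain ⟨m, hm, h1⟩ := ih fun i hi => h i (Finset.mem_insert_of_mem hi)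
    obtain ⟨n, hn, h2⟩ := h a (Finset.mem_insert_self _ _)
    exact ⟨n * m, mul_ne_zero hn hm, Finset.forall_mem_insert _ _ _ |>.2
      ⟨mul_comm m n ▸ mono _ _ _ hm h2, fun i hi => mono _ _ _ hn (h1 i hi)⟩⟩

theorem IsButler.gen (h : IsButler G) (Z : Submodule ℚ V) : Gen G Z := by
  classical
  obtain ⟨ι, _, A, f, hinj, hA, hpure⟩ := h
  have := Fintype.ofFinite ι
  have hmem : ∀ c ∈ G, ∀ q : ℚ, (∀ i, q • f c i ∈ A i) → q • c ∈ G := fun c hc q hq => by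
    have hd : (q.den : ℚ) • q • c ∈ G := by rw [smul_smul, Rat.den_mul_eq_num]; exact zq_mem hc _
    obtain ⟨y, hy, e⟩ := hpure (q • f c) hq q.den q.den_nz
      ⟨_, hd, by rw [map_smul, map_smul, Nat.cast_smul_eq_nsmul]⟩
    have := hinj _ (G.sub_mem hd (qsmul_mem hy q.den)) (by simp [e])
    rw [← smul_sub, smul_eq_zero, sub_eq_zero] at this
    exact (this.resolve_left (by exact_mod_cast q.den_nz)) ▸ hy
  suffices H : ∀ (J : Finset ι) (Z : Submodule ℚ V), (∀ x ∈ G, x ∈ Z → ∀ i ∉ J, f x i = 0) →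
      Gen G Z from H Finset.univ Z (by simp)
  intro J
  induction J using Finset.strongInduction with
  | H J ih =>
  intro Z hZ
  by_cases h0 : ∃ c ∈ G, c ∈ Z ∧ c ≠ 0
  swap
  · push Not at h0
    exact ⟨∅, 1, one_ne_zero, by simp, fun x hx hxZ => by simp [h0 x hx hxZ]⟩
  obtain ⟨c, hc, hcZ, hc0⟩ := h0
  let S := Finset.univ.filter fun i => f c i ≠ 0
  have hS : S.Nonempty := by
    by_contra hn
    refine hc0 (hinj c hc (funext fun i => by_contra fun hi => hn ⟨i, ?_⟩))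
    simpa [S] using hi
  have h1 : ∀ i, i ∈ S → Gen G (Z ⊓ LinearMap.ker (LinearMap.proj i ∘ₗ f)) := fun i hi =>
    ih (J.erase i) (Finset.erase_ssubset (by_contra fun hn =>
      (Finset.mem_filter.1 hi).2 (hZ c hc hcZ i hn))) _ fun x hx hxZ j hj => by
        by_cases e : j = i
        · subst e; exact hxZ.2
        · exact hZ x hx hxZ.1 j fun hJ => hj (Finset.mem_erase.2 ⟨e, hJ⟩)
  choose! s m hm hs hx using h1
  obtain ⟨M, hM, hMz⟩ := exists_den fun p : ι × ι => f c p.2 / f c p.1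
  refine ⟨insert c (S.biUnion s), (∏ i ∈ S, m i) * M,
    mul_ne_zero (Finset.prod_ne_zero_iff.2 hm) hM, Finset.forall_mem_insert _ _ _ |>.2
      ⟨⟨hc, hcZ, hc0⟩, fun y hy => ?_⟩, fun x hxG hxZ => mem_of_local fun p hp => ?_⟩
  · obtain ⟨i, hi, hy⟩ := Finset.mem_biUnion.1 hy
    exact ⟨(hs i hi y hy).1, (hs i hi y hy).2.1.1, (hs i hi y hy).2.2⟩
  obtain ⟨i, hi, hmin⟩ := exists_min (fun i j => LocLe p (A i) (A j))
    (fun i j => locLe_total hp _ _) (fun _ _ _ => locLe_trans hp) S hS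
  have hi0 : f c i ≠ 0 := (Finset.mem_filter.1 hi).2
  choose! n hn hnA using fun j hj => hmin j hj _ (hA x hxG i)
  refine ⟨∏ j ∈ S, n j, hp.prime.not_dvd_finsetProd hn, ?_⟩
  set N := ∏ j ∈ S, n j with hN
  have h2 : ((N : ℚ) * M * (f x i / f c i)) • c ∈ G := hmem c hc _ fun j => by
    by_cases hj : j ∈ S
    · obtain ⟨d, hd⟩ := Finset.dvd_prod_of_mem n hj
      obtain ⟨z, hz⟩ := hMz (i, j)
      convert zq_mem (qsmul_mem (hnA j hj) d) z using 1
      rw [hN, hd, ← hz]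
      simp only [smul_eq_mul, Nat.cast_mul]
      field_simp
    · have : f c j = 0 := by simpa [S] using hj
      simp [this]
  have h3 := hx i hi _ (G.sub_mem (qsmul_mem hxG (N * M)) h2)
    ⟨Z.sub_mem (Z.smul_mem _ hxZ) (Z.smul_mem _ hcZ), by
      simp only [SetLike.mem_coe, LinearMap.mem_ker, LinearMap.comp_apply, map_sub, map_smul,
        LinearMap.proj_apply, smul_eq_mul, Nat.cast_mul]
      field_simp
      ring⟩
  obtain ⟨d, hd⟩ := Finset.dvd_prod_of_mem m hi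
  have h4 : (⨆ y ∈ s i, ln G y) ≤ ⨆ y ∈ insert c (S.biUnion s), ln G y :=
    biSup_mono fun y hy => Finset.mem_insert_of_mem (Finset.mem_biUnion.2 ⟨i, hi, hy⟩)
  have h5 : ln G c ≤ ⨆ y ∈ insert c (S.biUnion s), ln G y :=
    le_iSup₂_of_le (f := fun y (_ : y ∈ insert c (S.biUnion s)) => ln G y) c
      (Finset.mem_insert_self _ _) le_rfl
  convert AddSubgroup.add_mem _ (qsmul_mem (h4 h3) d)
    (qsmul_mem (h5 (mem_ln.2 ⟨h2, _, rfl⟩)) (d * m i)) using 1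
  rw [hd]
  push_cast
  module

theorem IsButler.fd (h : IsButler G) : FiniteDimensional ℚ (Submodule.span ℚ (G : Set V)) := by
  obtain ⟨ι, _, A, f, hinj, -, -⟩ := h
  refine Module.Finite.of_injective (f ∘ₗ Submodule.subtype _)
    ((injective_iff_map_eq_zero _).2 fun x hx => Subtype.ext ?_)
  obtain ⟨n, hn, h⟩ := mem_span_iff.1 x.2
  have hx' : f x = 0 := hx
  exact (smul_eq_zero.1 (hinj _ h (by rw [map_smul, hx', smul_zero]))).resolve_left
    (by exact_mod_cast hn)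

section split

variable {T : AddSubgroup ℚ} {H : AddSubgroup V}

theorem local_gen (h1 : (1 : ℚ) ∈ T) {x : V} (hx : x ∈ H) {m : ℕ} (hm : m ≠ 0)
    (h : ∀ t ∈ T, ((m : ℚ) * t) • x ∈ H) {p : ℕ} (hp : p.Prime) :
    ∃ (n : ℕ) (v : V), ¬ p ∣ n ∧ (∀ s ∈ T, s • v ∈ H) ∧ ∃ t ∈ T, t • v = (n : ℚ) • x := by
  obtain ⟨a, n, hd, e⟩ := Nat.exists_eq_pow_mul_and_not_dvd hm p hp.ne_one
  have h0 : (p : ℚ) ≠ 0 := by exact_mod_cast hp.ne_zero
  by_cases hT : ∀ k : ℕ, ((p : ℚ) ^ k)⁻¹ ∈ T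
  · refine ⟨n, (m : ℚ) • x, hd, fun s hs => by rw [smul_smul, mul_comm]; exact h s hs, _, hT a, ?_⟩
    rw [smul_smul, e]
    congr 1
    push_cast
    field_simp
  · obtain ⟨k, hk, hk'⟩ : ∃ k : ℕ, ((p : ℚ) ^ k)⁻¹ ∈ T ∧ ((p : ℚ) ^ (k + 1))⁻¹ ∉ T := by
      by_contra hn
      push Not at hn
      exact hT fun k => Nat.rec (by simpa using h1) hn k
    refine ⟨n, ((n : ℚ) * p ^ k) • x, hd, fun s hs => ?_, _, hk, ?_⟩
    · have hw : ¬ p ∣ (s * p ^ k).den := fun ⟨w, hw⟩ => hk' (by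
        have h2 := qsmul_mem (inv_den_mem (q := s * p ^ k) hk (by
          rwa [smul_eq_mul, mul_assoc, mul_inv_cancel₀ (pow_ne_zero _ h0), mul_one])) w
        have w0 : (w : ℚ) ≠ 0 := by
          have : w ≠ 0 := fun e => (s * p ^ k).den_nz (by rw [hw, e, mul_zero])
          exact_mod_cast this
        convert h2 using 1
        rw [hw]
        simp only [smul_eq_mul, Nat.cast_mul]
        field_simp
        ring)
      refine mem_of_coprime (((Nat.Prime.coprime_iff_not_dvd hp).2 hw).pow_left a) ?_ ?_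
      · convert qsmul_mem (h s hs) (p ^ k) using 1
        rw [e]
        push_cast
        module
      · convert qsmul_mem (zq_mem hx (s * p ^ k).num) n using 1
        rw [← Rat.den_mul_eq_num]
        module
    · rw [smul_smul]
      congr 1
      field_simp

theorem one_step (h1 : (1 : ℚ) ∈ T) (hH : ∀ x ∈ H, ∃ m : ℕ, m ≠ 0 ∧ ∀ t ∈ T, ((m : ℚ) * t) • x ∈ H)
    (φ : V →ₗ[ℚ] ℚ) {r : ℕ} (hr : r ≠ 0) (hφ : ∀ x ∈ H, (r : ℚ) * φ x ∈ T) :
    ∃ h : V, (∀ s ∈ T, s • h ∈ H) ∧ ∀ x ∈ H, ∃ t ∈ T, φ x = t * φ h := by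
  let J : AddSubgroup ℤ :=
    { carrier := {n | ∃ v, (∀ s ∈ T, s • v ∈ H) ∧ (r : ℚ) * φ v = n}
      zero_mem' := ⟨0, fun s _ => by simp, by simp⟩
      add_mem' := by
        rintro a b ⟨v, hv, e⟩ ⟨w, hw, e'⟩
        exact ⟨v + w, fun s hs => by rw [smul_add]; exact H.add_mem (hv s hs) (hw s hs),
          by rw [map_add, mul_add, e, e', Int.cast_add]⟩
      neg_mem' := by
        rintro a ⟨v, hv, e⟩
        exact ⟨-v, fun s hs => by rw [smul_neg]; exact H.neg_mem (hv s hs),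
          by rw [map_neg, mul_neg, e, Int.cast_neg]⟩ }
  obtain ⟨g, hg⟩ := Int.subgroup_cyclic J
  obtain ⟨h, hh, eh⟩ : g ∈ J := hg ▸ AddSubgroup.subset_closure rfl
  have r0 : (r : ℚ) ≠ 0 := by exact_mod_cast hr
  refine ⟨h, hh, fun x hx => ?_⟩
  have : φ x ∈ T.map (AddMonoidHom.mulRight (φ h)) := mem_of_local fun p hp => by
    obtain ⟨m, hm, h2⟩ := hH x hx
    obtain ⟨n, v, hn, hv, t, ht, e⟩ := local_gen h1 hx hm h2 hp
    set z := (r : ℚ) * φ v with hz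
    have h3 : z.num ∈ J := ⟨(z.den : ℚ) • v, fun s hs => by
      rw [smul_comm]; exact qsmul_mem (hv s hs) _, by
      rw [map_smul, smul_eq_mul, mul_left_comm, Rat.den_mul_eq_num]⟩
    rw [hg, AddSubgroup.mem_closure_singleton] at h3
    obtain ⟨k, hk⟩ := h3
    have h4 : ((z.den : ℚ))⁻¹ • t ∈ T := inv_den_mem ht (by
      have := hφ _ (hv t ht)
      rwa [map_smul, smul_eq_mul, mul_left_comm, mul_comm] at this)
    have d0 : (z.den : ℚ) ≠ 0 := by exact_mod_cast z.den_nz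
    refine ⟨n, hn, _, zq_mem h4 k, ?_⟩
    have e1 : (z.den : ℚ) * φ v = k * φ h := by
      apply mul_left_cancel₀ r0
      rw [mul_left_comm, ← hz, Rat.den_mul_eq_num, mul_left_comm, eh, ← hk]
      simp
    rw [← φ.map_smul, ← e, φ.map_smul]
    simp only [AddMonoidHom.coe_mulRight, smul_eq_mul]
    field_simp
    linear_combination -t * e1
  obtain ⟨t, ht, e⟩ := this
  exact ⟨t, ht, e.symm⟩

theorem split (h1 : (1 : ℚ) ∈ T) (W : Submodule ℚ V) (n : ℕ) : ∀ (H : AddSubgroup V)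
    [FiniteDimensional ℚ (Submodule.span ℚ (H : Set V))],
    Module.finrank ℚ (Submodule.span ℚ (H : Set V)) < n →
    (∀ x ∈ H, ∃ m : ℕ, m ≠ 0 ∧ ∀ t ∈ T, ((m : ℚ) * t) • x ∈ H) →
    (∀ φ : V →ₗ[ℚ] ℚ, (∀ w ∈ W, φ w = 0) → ∃ r : ℕ, r ≠ 0 ∧ ∀ x ∈ H, (r : ℚ) * φ x ∈ T) →
    ∃ C, Cp H ⊤ W C := by
  induction n with
  | zero => intro H _ h; omega
  | succ n ih =>
    intro H _ hn hH hφ
    by_cases hW : ∀ x ∈ H, x ∈ W
    · exact ⟨⊥, fun x hx => by simp [AddSubgroup.mem_bot.1 hx], fun x hx _ => hx,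
        fun x hx _ => ⟨0, zero_mem _, by simpa using hW x hx⟩⟩
    push Not at hW
    obtain ⟨x₀, hx₀, hx₀W⟩ := hW
    obtain ⟨φ, hφ0, hφW⟩ := W.exists_dual_map_eq_bot_of_notMem hx₀W inferInstance
    have hφW' : ∀ w ∈ W, φ w = 0 := fun w hw =>
      (Submodule.mem_bot ℚ).1 (hφW ▸ Submodule.mem_map_of_mem hw)
    obtain ⟨r, hr, h2⟩ := hφ φ hφW'
    obtain ⟨h, hh, h3⟩ := one_step h1 hH φ hr h2
    have h0 : φ h ≠ 0 := fun e => by
      obtain ⟨t, -, e'⟩ := h3 x₀ hx₀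
      exact hφ0 (by rw [e', e, mul_zero])
    let H' := H ⊓ (LinearMap.ker φ).toAddSubgroup
    have hlt : Submodule.span ℚ (H' : Set V) < Submodule.span ℚ (H : Set V) :=
      lt_of_le_of_ne (Submodule.span_mono fun _ hx => hx.1) fun e => hφ0
        ((Submodule.span_le (p := LinearMap.ker φ)).2 (fun _ hx => hx.2)
          (e ▸ Submodule.subset_span hx₀))
    have := Submodule.finiteDimensional_of_le hlt.le
    obtain ⟨C, hC⟩ := ih H' ((Submodule.finrank_lt_finrank_of_lt hlt).trans_le (by omega))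
      (fun x hx => by
        obtain ⟨m, hm, h4⟩ := hH x hx.1
        exact ⟨m, hm, fun t ht => ⟨h4 t ht, Submodule.smul_mem _ _ hx.2⟩⟩)
      fun ψ hψ => by
        obtain ⟨r, hr, h4⟩ := hφ ψ hψ
        exact ⟨r, hr, fun x hx => h4 x hx.1⟩
    have key : ∀ x, x ∈ C ⊔ T.map (LinearMap.toSpanSingleton ℚ V h).toAddMonoidHom ↔
        ∃ c ∈ C, ∃ t ∈ T, c + t • h = x := fun x => by
      simp [AddSubgroup.mem_sup]
    refine ⟨C ⊔ T.map (LinearMap.toSpanSingleton ℚ V h).toAddMonoidHom, fun x hx => ?_,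
      fun x hx hxW => ?_, fun x hx _ => ?_⟩
    · obtain ⟨c, hc, t, ht, rfl⟩ := (key x).1 hx
      exact ⟨H.add_mem (hC.le c hc).1.1 (hh t ht), trivial⟩
    · obtain ⟨c, hc, t, ht, rfl⟩ := (key x).1 hx
      have e : φ c = 0 := (hC.le c hc).1.2
      have e' := hφW' _ hxW
      rw [map_add, e, zero_add, map_smul, smul_eq_mul, mul_eq_zero, or_iff_left h0] at e'
      rw [e', zero_smul, add_zero] at hxW ⊢
      exact hC.dj c hc hxW
    · obtain ⟨t, ht, e⟩ := h3 x hx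
      obtain ⟨c, hc, hcW⟩ := hC.sp (x - t • h) ⟨H.sub_mem hx (hh t ht), by
        simp [LinearMap.mem_ker, e]⟩ trivial
      exact ⟨c + t • h, (key _).2 ⟨c, hc, t, ht, rfl⟩, by convert hcW using 1; abel⟩

end split

/-- Complements exist in every subgroup that contains a multiple of `G(τ)`. -/
theorem IsButler.cp (h : IsButler G) {B : AddSubgroup V} (hB : B ≤ G) {m : ℕ} (hm : m ≠ 0)
    (hmB : ∀ x ∈ G, x ∈ US G τ → (m : ℚ) • x ∈ B) : ∃ C, Cp B (US G τ) (WS G τ) C := by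
  by_cases hW : ∀ x ∈ B, x ∈ US G τ → x ∈ WS G τ
  · exact ⟨⊥, fun x hx => by simp [AddSubgroup.mem_bot.1 hx], fun x hx _ => hx,
      fun x hx hU => ⟨0, zero_mem _, by simpa using hW x hx hU⟩⟩
  push Not at hW
  obtain ⟨c₀, hc₀, hU, hW⟩ := hW
  have hG := hB hc₀
  let T : AddSubgroup ℚ := G.comap (LinearMap.toSpanSingleton ℚ V c₀).toAddMonoidHom
  have hT : ∀ q : ℚ, q ∈ T ↔ q • c₀ ∈ G := fun q => Iff.rfl
  let H := B ⊓ (US G τ).toAddSubgroup
  have := h.fd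
  have : FiniteDimensional ℚ (Submodule.span ℚ (H : Set V)) :=
    Submodule.finiteDimensional_of_le (Submodule.span_mono fun _ hx => hB hx.1)
  obtain ⟨C, hC⟩ := split (T := T) (by simpa [hT] using hG) (WS G τ) _ H (Nat.lt_succ_self _)
    (fun x hx => by
      obtain ⟨n, hn, h1⟩ := mul_of_tle hG (hB hx.1)
        ((tle_of_not_mem hG hU hW).trans ((mem_US (hB hx.1)).1 hx.2))
      refine ⟨m * n, mul_ne_zero hm hn, fun t ht => ⟨?_, Submodule.smul_mem _ _ hx.2⟩⟩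
      rw [Nat.cast_mul, mul_assoc, mul_smul]
      exact hmB _ (h1 t ht) (Submodule.smul_mem _ _ hx.2))
    fun φ hφ => by
      obtain ⟨s, n, hn, hs, h1⟩ := h.gen (US G τ)
      obtain ⟨r, hr, h2⟩ := exists_common s (fun c r => ∀ x ∈ ln G c, (r : ℚ) * ((n : ℚ)⁻¹ * φ x) ∈ T)
        (fun c a b _ h x hx => by
          rw [Nat.cast_mul, mul_assoc]; exact qsmul_mem (h x hx) b) fun c hc => by
        by_cases hcW : c ∈ WS G τ
        · refine ⟨1, one_ne_zero, fun x hx => ?_⟩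
          obtain ⟨-, q, rfl⟩ := mem_ln.1 hx
          simp [hφ c hcW]
        · obtain ⟨k, hk, h3⟩ := mul_of_tle (hs c hc).1 hG
            ((tle_of_not_mem (hs c hc).1 (hs c hc).2.1 hcW).trans ((mem_US hG).1 hU))
          set z := (n : ℚ)⁻¹ * φ c with hz
          refine ⟨k * z.den, mul_ne_zero hk z.den_nz, fun x hx => ?_⟩
          obtain ⟨hx, q, rfl⟩ := mem_ln.1 hx
          convert zq_mem ((hT _).2 (h3 q hx)) z.num using 1
          rw [← Rat.den_mul_eq_num, hz, map_smul]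
          simp only [smul_eq_mul, Nat.cast_mul]
          ring
      refine ⟨r, hr, fun x hx => ?_⟩
      have h3 : (⨆ c ∈ s, ln G c) ≤
          T.comap (((r : ℚ) * (n : ℚ)⁻¹) • φ).toAddMonoidHom := iSup₂_le fun c hc x hx => by
        simpa [mul_assoc] using h2 c hc x hx
      have h4 := h3 (h1 x (hB hx.1) hx.2)
      have n0 : (n : ℚ) ≠ 0 := by exact_mod_cast hn
      have h5 : ((r : ℚ) * (n : ℚ)⁻¹) * φ ((n : ℚ) • x) ∈ T := h4
      rwa [map_smul, smul_eq_mul, mul_assoc, inv_mul_cancel_left₀ n0] at h5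
  exact ⟨C, fun x hx => (hC.le x hx).1, hC.dj, fun x hx hU => hC.sp x ⟨hx, hU⟩ trivial⟩

end Pool.Agent.MP_9f65ab_al
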